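import Mathlib
import Pool.Agent.Helper112.Arith

set_option autoImplicit false
set_option linter.unusedSectionVars false

/-! # Counting pairs of short intervals with square product -/

open Finset

namespace Pool.Agent.R177.RF

/-- pairs of squarefree integers up to `N` at distance less than `H` -/
noncomputable def PP (N H : ℕ) : Finset (ℕ × ℕ) := by
  classical
  exact ((range (N + 1)) ×ˢ (range (N + 1))).filter (fun p => 0 < p.1 ∧ p.1 < p.2 ∧ p.2 < p.1 + H ∧ Squarefree p.1 ∧ Squarefree p.2)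

lemma mem_PP {N H : ℕ} {p : ℕ × ℕ} : p ∈ PP N H ↔ p.2 ≤ N ∧ 0 < p.1 ∧ p.1 < p.2 ∧ p.2 < p.1 + H ∧ Squarefree p.1 ∧ Squarefree p.2 := by
  classical
  unfold PP
  simp only [mem_filter, mem_product, mem_range, Nat.lt_succ_iff]
  constructor
  · rintro ⟨⟨_, h2⟩, h3⟩
    exact ⟨h2, h3⟩
  · rintro ⟨h2, h3⟩
    exact ⟨⟨by omega, h2⟩, h3⟩

lemma sq_of_mul_sq {x y : ℕ} (hx : x ≠ 0) (h : IsSquare (x ^ 2 * y)) : IsSquare y := by
  obtain ⟨z, hz⟩ := h
  have h1 : x ^ 2 ∣ z ^ 2 := ⟨y, by rw [hz, sq]⟩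
  have h2 : x ∣ z := (Nat.pow_dvd_pow_iff (by norm_num)).1 h1
  obtain ⟨t, ht⟩ := h2
  refine ⟨t, ?_⟩
  have h3 : x ^ 2 * y = x ^ 2 * (t * t) := by rw [hz, ht]; ring
  exact Nat.eq_of_mul_eq_mul_left (by positivity) h3

lemma eq_of_sq {D E : ℕ} (hD : Squarefree D) (hE : Squarefree E) (h : IsSquare (D * E)) : D = E := by
  have hD0 := hD.ne_zero
  have hE0 := hE.ne_zero
  apply Nat.eq_of_factorization_eq hD0 hE0
  intro p
  obtain ⟨z, hz⟩ := h
  have hz0 : z ≠ 0 := by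
    rintro rfl
    rw [mul_zero] at hz
    exact (mul_ne_zero hD0 hE0) hz
  have h1 : (D * E).factorization p = (z * z).factorization p := by rw [hz]
  rw [Nat.factorization_mul hD0 hE0, Nat.factorization_mul hz0 hz0] at h1
  simp only [Finsupp.add_apply] at h1
  have h2 := hD.natFactorization_le_one p
  have h3 := hE.natFactorization_le_one p
  omega

/-- the structure of the solutions -/
lemma structure4 {a b c d : ℕ} (ha : Squarefree a) (hb : Squarefree b) (hc : Squarefree c) (hd : Squarefree d)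
    (h : IsSquare (a * b * (c * d))) :
    (a / Nat.gcd a b) * (b / Nat.gcd a b) = (c / Nat.gcd c d) * (d / Nat.gcd c d) := by
  have key : ∀ {x y : ℕ}, Squarefree x → Squarefree y →
      Squarefree ((x / Nat.gcd x y) * (y / Nat.gcd x y)) ∧ x * y = (Nat.gcd x y) ^ 2 * ((x / Nat.gcd x y) * (y / Nat.gcd x y)) := by
    intro x y hx hy
    have hg : 0 < Nat.gcd x y := Nat.gcd_pos_of_pos_left _ (Nat.pos_of_ne_zero hx.ne_zero)
    have hcop : Nat.Coprime (x / Nat.gcd x y) (y / Nat.gcd x y) := Nat.coprime_div_gcd_div_gcd hg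
    have e1 : x = Nat.gcd x y * (x / Nat.gcd x y) := (Nat.mul_div_cancel' (Nat.gcd_dvd_left x y)).symm
    have e2 : y = Nat.gcd x y * (y / Nat.gcd x y) := (Nat.mul_div_cancel' (Nat.gcd_dvd_right x y)).symm
    constructor
    · rw [Nat.squarefree_mul_iff]
      exact ⟨hcop, hx.squarefree_of_dvd (Nat.div_dvd_of_dvd (Nat.gcd_dvd_left x y)),
        hy.squarefree_of_dvd (Nat.div_dvd_of_dvd (Nat.gcd_dvd_right x y))⟩
    · calc x * y = (Nat.gcd x y * (x / Nat.gcd x y)) * (Nat.gcd x y * (y / Nat.gcd x y)) := by rw [← e1, ← e2]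
        _ = _ := by ring
  obtain ⟨k1, k2⟩ := key ha hb
  obtain ⟨k3, k4⟩ := key hc hd
  apply eq_of_sq k1 k3
  have hg : Nat.gcd a b ≠ 0 := (Nat.gcd_pos_of_pos_left _ (Nat.pos_of_ne_zero ha.ne_zero)).ne'
  have hg' : Nat.gcd c d ≠ 0 := (Nat.gcd_pos_of_pos_left _ (Nat.pos_of_ne_zero hc.ne_zero)).ne'
  apply sq_of_mul_sq (x := Nat.gcd a b * Nat.gcd c d) (mul_ne_zero hg hg')
  rw [k2, k4] at h
  convert h using 1
  ring

/-- for a fixed pair the number of partners -/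
lemma partners {N H : ℕ} {p : ℕ × ℕ} (hp : p ∈ PP N H) :
    (((PP N H).filter (fun q => IsSquare (p.1 * p.2 * (q.1 * q.2)))).card : ℝ) ≤
      ((p.1 / Nat.gcd p.1 p.2) * (p.2 / Nat.gcd p.1 p.2)).divisors.card * (N * (Nat.gcd p.1 p.2 / (p.1 : ℝ))) := by
  classical
  obtain ⟨h1, h2, h3, h4, h5, h6⟩ := mem_PP.1 hp
  set g := Nat.gcd p.1 p.2 with hg
  have hg0 : 0 < g := Nat.gcd_pos_of_pos_left _ h2
  set D := (p.1 / g) * (p.2 / g) with hD
  have hgd : g ∣ p.1 := Nat.gcd_dvd_left _ _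
  have hgd2 : g ∣ p.2 := Nat.gcd_dvd_right _ _
  have hpg : 0 < p.1 / g := Nat.div_pos (Nat.le_of_dvd h2 hgd) hg0
  have hpg2 : p.1 / g ≤ p.2 / g := Nat.div_le_div_right h3.le
  have hcard : ((PP N H).filter (fun q => IsSquare (p.1 * p.2 * (q.1 * q.2)))).card ≤ (D.divisors ×ˢ Icc 1 (N / (p.1 / g))).card := by
    apply card_le_card_of_injOn (fun q => (q.1 / Nat.gcd q.1 q.2, Nat.gcd q.1 q.2))
    · intro q hq
      rw [mem_coe, mem_filter] at hq
      obtain ⟨hq1, hq2⟩ := hq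
      obtain ⟨g1, g2, g3, g4, g5, g6⟩ := mem_PP.1 hq1
      have hst := structure4 h5 h6 g5 g6 hq2
      rw [← hg, ← hD] at hst
      have hv0 : 0 < Nat.gcd q.1 q.2 := Nat.gcd_pos_of_pos_left _ g2
      rw [mem_coe, mem_product, Nat.mem_divisors, mem_Icc]
      refine ⟨⟨⟨_, hst⟩, ?_⟩, hv0, ?_⟩
      · exact (Nat.mul_pos hpg (lt_of_lt_of_le hpg hpg2)).ne'
      · -- `v * (a / g) ≤ N`
        rw [Nat.le_div_iff_mul_le hpg]
        have e1 : q.1 = Nat.gcd q.1 q.2 * (q.1 / Nat.gcd q.1 q.2) := (Nat.mul_div_cancel' (Nat.gcd_dvd_left _ _)).symm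
        have e2 : q.2 = Nat.gcd q.1 q.2 * (q.2 / Nat.gcd q.1 q.2) := (Nat.mul_div_cancel' (Nat.gcd_dvd_right _ _)).symm
        have e3 : (Nat.gcd q.1 q.2 * (p.1 / g)) ^ 2 ≤ N ^ 2 := by
          calc (Nat.gcd q.1 q.2 * (p.1 / g)) ^ 2 = (Nat.gcd q.1 q.2) ^ 2 * ((p.1 / g) * (p.1 / g)) := by ring
            _ ≤ (Nat.gcd q.1 q.2) ^ 2 * ((p.1 / g) * (p.2 / g)) := Nat.mul_le_mul_left _ (Nat.mul_le_mul_left _ hpg2)
            _ = (Nat.gcd q.1 q.2) ^ 2 * ((q.1 / Nat.gcd q.1 q.2) * (q.2 / Nat.gcd q.1 q.2)) := by rw [← hD, hst]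
            _ = (Nat.gcd q.1 q.2 * (q.1 / Nat.gcd q.1 q.2)) * (Nat.gcd q.1 q.2 * (q.2 / Nat.gcd q.1 q.2)) := by ring
            _ = q.1 * q.2 := by rw [← e1, ← e2]
            _ ≤ N * N := Nat.mul_le_mul (by omega) g1
            _ = N ^ 2 := by ring
        exact (Nat.pow_le_pow_iff_left (by norm_num)).1 e3
    · intro q hq r hr hqr
      rw [mem_coe, mem_filter] at hq hr
      obtain ⟨hq1, hq2⟩ := hq
      obtain ⟨hr1, hr2⟩ := hr
      obtain ⟨g1, g2, g3, g4, g5, g6⟩ := mem_PP.1 hq1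
      obtain ⟨k1, k2, k3, k4, k5, k6⟩ := mem_PP.1 hr1
      have s1 := structure4 h5 h6 g5 g6 hq2
      have s2 := structure4 h5 h6 k5 k6 hr2
      rw [s1] at s2
      simp only [Prod.mk.injEq] at hqr
      obtain ⟨t1, t2⟩ := hqr
      have hv0 : 0 < Nat.gcd q.1 q.2 := Nat.gcd_pos_of_pos_left _ g2
      have hq0 : 0 < q.1 / Nat.gcd q.1 q.2 := Nat.div_pos (Nat.le_of_dvd g2 (Nat.gcd_dvd_left _ _)) hv0
      have e1 : q.1 = Nat.gcd q.1 q.2 * (q.1 / Nat.gcd q.1 q.2) := (Nat.mul_div_cancel' (Nat.gcd_dvd_left _ _)).symm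
      have e2 : q.2 = Nat.gcd q.1 q.2 * (q.2 / Nat.gcd q.1 q.2) := (Nat.mul_div_cancel' (Nat.gcd_dvd_right _ _)).symm
      have f1 : r.1 = Nat.gcd r.1 r.2 * (r.1 / Nat.gcd r.1 r.2) := (Nat.mul_div_cancel' (Nat.gcd_dvd_left _ _)).symm
      have f2 : r.2 = Nat.gcd r.1 r.2 * (r.2 / Nat.gcd r.1 r.2) := (Nat.mul_div_cancel' (Nat.gcd_dvd_right _ _)).symm
      rw [← t1] at s2
      have t3 : q.2 / Nat.gcd q.1 q.2 = r.2 / Nat.gcd r.1 r.2 := Nat.eq_of_mul_eq_mul_left hq0 s2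
      apply Prod.ext
      · rw [e1, f1, ← t1, ← t2]
      · rw [e2, f2, ← t3, ← t2]
  have h7 : (((PP N H).filter (fun q => IsSquare (p.1 * p.2 * (q.1 * q.2)))).card : ℝ) ≤ (D.divisors.card : ℝ) * ((N / (p.1 / g) : ℕ) : ℝ) := by
    rw [card_product, Nat.card_Icc, Nat.add_sub_cancel] at hcard
    exact_mod_cast hcard
  refine h7.trans (mul_le_mul_of_nonneg_left ?_ (Nat.cast_nonneg _))
  have hp1 : (0 : ℝ) < p.1 := by exact_mod_cast h2
  have hgr : (0 : ℝ) < g := by exact_mod_cast hg0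
  refine (Nat.cast_div_le).trans ?_
  rw [Nat.cast_div hgd hgr.ne']
  apply le_of_eq
  field_simp

/-- sums of greatest common divisors -/
lemma gcd_sum {N k : ℕ} (hk : 0 < k) : ∑ a ∈ Icc 1 N, (Nat.gcd a k : ℝ) / a ≤ k.divisors.card * (1 + Real.log N) := by
  classical
  have h1 : ∑ a ∈ Icc 1 N, (Nat.gcd a k : ℝ) / a = ∑ y ∈ (Icc 1 N).image (fun a => (Nat.gcd a k, a / Nat.gcd a k)), (1 : ℝ) / y.2 := by
    rw [sum_image]
    · refine sum_congr rfl fun a ha => ?_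
      have ha1 := (mem_Icc.1 ha).1
      have hg : 0 < Nat.gcd a k := Nat.gcd_pos_of_pos_left _ ha1
      simp only []
      rw [Nat.cast_div (Nat.gcd_dvd_left a k) (by exact_mod_cast hg.ne')]
      have h2 : (0 : ℝ) < a := by exact_mod_cast ha1
      have h3 : (0 : ℝ) < Nat.gcd a k := by exact_mod_cast hg
      field_simp
    · intro a _ b _ hab
      simp only [Prod.mk.injEq] at hab
      have e1 : a = Nat.gcd a k * (a / Nat.gcd a k) := (Nat.mul_div_cancel' (Nat.gcd_dvd_left _ _)).symm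
      have e2 : b = Nat.gcd b k * (b / Nat.gcd b k) := (Nat.mul_div_cancel' (Nat.gcd_dvd_left _ _)).symm
      rw [e1, e2, hab.2, hab.1]
  rw [h1]
  have h2 : (Icc 1 N).image (fun a => (Nat.gcd a k, a / Nat.gcd a k)) ⊆ k.divisors ×ˢ Icc 1 N := by
    intro y hy
    obtain ⟨a, ha, rfl⟩ := mem_image.1 hy
    have ha1 := mem_Icc.1 ha
    have hg : 0 < Nat.gcd a k := Nat.gcd_pos_of_pos_left _ ha1.1
    rw [mem_product, Nat.mem_divisors, mem_Icc]
    refine ⟨⟨Nat.gcd_dvd_right a k, hk.ne'⟩, Nat.div_pos (Nat.le_of_dvd ha1.1 (Nat.gcd_dvd_left a k)) hg, ?_⟩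
    exact (Nat.div_le_self _ _).trans ha1.2
  refine (sum_le_sum_of_subset_of_nonneg h2 fun y _ _ => by positivity).trans ?_
  rw [sum_product]
  show ∑ x ∈ k.divisors, ∑ y ∈ Icc 1 N, (1 : ℝ) / y ≤ _
  rw [sum_const, nsmul_eq_mul]
  apply mul_le_mul_of_nonneg_left _ (Nat.cast_nonneg _)
  have h3 : ∑ j ∈ Icc 1 N, (1 : ℝ) / j = ((harmonic N : ℚ) : ℝ) := by
    rw [harmonic_eq_sum_Icc]
    push_cast
    refine sum_congr rfl fun j _ => ?_
    rw [one_div]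
  rw [h3]
  exact harmonic_le_one_add_log N

/-- the number of pairs of pairs with square product -/
theorem count_sq (δ : ℝ) (hδ : 0 < δ) : ∃ C : ℝ, 0 < C ∧ ∀ N H : ℕ, 1 ≤ N → H ≤ N →
    (∑ p ∈ PP N H, (((PP N H).filter (fun q => IsSquare (p.1 * p.2 * (q.1 * q.2)))).card : ℝ)) ≤ C * H * (N : ℝ) ^ (1 + δ) := by
  classical
  obtain ⟨C1, hC1, hd⟩ := Pool.Agent.Helper112.divisor_bound (δ / 6) (by positivity)
  -- logarithms
  obtain ⟨C2, hC2, hlog⟩ : ∃ C2 : ℝ, 0 < C2 ∧ ∀ N : ℕ, 1 ≤ N → 1 + Real.log N ≤ C2 * (N : ℝ) ^ (δ / 6) := by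
    refine ⟨1 + 1 / (δ / 6), by positivity, fun N hN => ?_⟩
    have hN1 : (1 : ℝ) ≤ N := by exact_mod_cast hN
    have h1 := Real.log_le_rpow_div (show (0 : ℝ) ≤ N by linarith) (show 0 < δ / 6 by positivity)
    have h2 : (1 : ℝ) ≤ (N : ℝ) ^ (δ / 6) := Real.one_le_rpow hN1 (by positivity)
    calc 1 + Real.log N ≤ (N : ℝ) ^ (δ / 6) + (N : ℝ) ^ (δ / 6) / (δ / 6) := add_le_add h2 h1
      _ = _ := by ring
  refine ⟨C1 * C1 * C2, by positivity, fun N H hN hHN => ?_⟩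
  have hN1 : (1 : ℝ) ≤ N := by exact_mod_cast hN
  have hN0 : (0 : ℝ) < N := by linarith
  set P := (N : ℝ) ^ (δ / 6) with hP
  have hP0 : 0 < P := Real.rpow_pos_of_pos hN0 _
  -- first bound
  have s1 : ∀ p ∈ PP N H, (((PP N H).filter (fun q => IsSquare (p.1 * p.2 * (q.1 * q.2)))).card : ℝ) ≤
      (C1 * P ^ 2) * N * ((Nat.gcd p.1 (p.2 - p.1) : ℝ) / (p.1 : ℝ)) := by
    intro p hp
    obtain ⟨h1, h2, h3, h4, h5, h6⟩ := mem_PP.1 hp
    have hpar := partners hp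
    have hgg : Nat.gcd p.1 (p.2 - p.1) = Nat.gcd p.1 p.2 := by
      have : p.2 = (p.2 - p.1) + p.1 := by omega
      conv_rhs => rw [this]
      simp
    rw [hgg]
    refine hpar.trans ?_
    set g := Nat.gcd p.1 p.2 with hg
    have hg0 : 0 < g := Nat.gcd_pos_of_pos_left _ h2
    have hgd : g ∣ p.1 := Nat.gcd_dvd_left _ _
    have hpg : 0 < p.1 / g := Nat.div_pos (Nat.le_of_dvd h2 hgd) hg0
    have hpg2 : p.1 / g ≤ p.2 / g := Nat.div_le_div_right h3.le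
    have hD1 : 1 ≤ (p.1 / g) * (p.2 / g) := Nat.mul_pos hpg (lt_of_lt_of_le hpg hpg2)
    have hD2 : (p.1 / g) * (p.2 / g) ≤ N * N := Nat.mul_le_mul ((Nat.div_le_self _ _).trans (by omega)) ((Nat.div_le_self _ _).trans h1)
    have hD3 := hd _ hD1
    have hD4 : (((p.1 / g) * (p.2 / g) : ℕ) : ℝ) ^ (δ / 6) ≤ P ^ 2 := by
      calc (((p.1 / g) * (p.2 / g) : ℕ) : ℝ) ^ (δ / 6) ≤ ((N * N : ℕ) : ℝ) ^ (δ / 6) :=
            Real.rpow_le_rpow (Nat.cast_nonneg _) (by exact_mod_cast hD2) (by positivity)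
        _ = P ^ 2 := by
            push_cast
            rw [Real.mul_rpow hN0.le hN0.le, hP]
            ring
    have hD5 : (((p.1 / g) * (p.2 / g)).divisors.card : ℝ) ≤ C1 * P ^ 2 := hD3.trans (mul_le_mul_of_nonneg_left hD4 hC1.le)
    have : 0 ≤ (N : ℝ) * ((g : ℝ) / p.1) := by positivity
    calc (((p.1 / g) * (p.2 / g)).divisors.card : ℝ) * (N * ((g : ℝ) / p.1)) ≤ (C1 * P ^ 2) * (N * ((g : ℝ) / p.1)) :=
          mul_le_mul_of_nonneg_right hD5 this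
      _ = _ := by ring
  refine (sum_le_sum s1).trans ?_
  rw [← mul_sum]
  -- second bound
  have s2 : ∑ p ∈ PP N H, ((Nat.gcd p.1 (p.2 - p.1) : ℝ) / (p.1 : ℝ)) ≤ H * (C1 * P * (C2 * P)) := by
    have t1 : ∑ p ∈ PP N H, ((Nat.gcd p.1 (p.2 - p.1) : ℝ) / (p.1 : ℝ)) =
        ∑ y ∈ (PP N H).image (fun p => (p.2 - p.1, p.1)), ((Nat.gcd y.2 y.1 : ℝ) / (y.2 : ℝ)) := by
      rw [sum_image]
      intro p hp q hq hpq
      rw [mem_coe] at hp hq
      obtain ⟨h1, h2, h3, h4, h5, h6⟩ := mem_PP.1 hp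
      obtain ⟨k1, k2, k3, k4, k5, k6⟩ := mem_PP.1 hq
      simp only [Prod.mk.injEq] at hpq
      apply Prod.ext <;> omega
    have t2 : (PP N H).image (fun p => (p.2 - p.1, p.1)) ⊆ (Icc 1 H) ×ˢ (Icc 1 N) := by
      intro y hy
      obtain ⟨p, hp, rfl⟩ := mem_image.1 hy
      obtain ⟨h1, h2, h3, h4, h5, h6⟩ := mem_PP.1 hp
      rw [mem_product, mem_Icc, mem_Icc]
      refine ⟨⟨?_, ?_⟩, ?_, ?_⟩ <;> simp only [] <;> omega
    rw [t1]
    refine (sum_le_sum_of_subset_of_nonneg t2 fun y _ _ => by positivity).trans ?_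
    rw [sum_product]
    have t3 : ∀ k ∈ Icc 1 H, ∑ a ∈ Icc 1 N, ((Nat.gcd a k : ℝ) / (a : ℝ)) ≤ C1 * P * (C2 * P) := by
      intro k hk
      have hk1 := mem_Icc.1 hk
      refine (gcd_sum hk1.1).trans ?_
      have u1 := hd k hk1.1
      have u2 : (k : ℝ) ^ (δ / 6) ≤ P := Real.rpow_le_rpow (Nat.cast_nonneg _) (by exact_mod_cast hk1.2.trans hHN) (by positivity)
      have u3 : (k.divisors.card : ℝ) ≤ C1 * P := u1.trans (mul_le_mul_of_nonneg_left u2 hC1.le)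
      have u4 : 0 ≤ 1 + Real.log N := by
        have := Real.log_nonneg hN1
        linarith
      exact mul_le_mul u3 (hlog N hN) u4 (by positivity)
    refine (sum_le_sum t3).trans ?_
    rw [sum_const, Nat.card_Icc, Nat.add_sub_cancel, nsmul_eq_mul]
  calc C1 * P ^ 2 * N * ∑ p ∈ PP N H, ((Nat.gcd p.1 (p.2 - p.1) : ℝ) / (p.1 : ℝ)) ≤ C1 * P ^ 2 * N * (H * (C1 * P * (C2 * P))) :=
        mul_le_mul_of_nonneg_left s2 (by positivity)
    _ = C1 * C1 * C2 * H * (N * P ^ 4) := by ring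
    _ ≤ C1 * C1 * C2 * H * (N : ℝ) ^ (1 + δ) := by
        apply mul_le_mul_of_nonneg_left _ (by positivity)
        rw [Real.rpow_add hN0, Real.rpow_one, hP, ← Real.rpow_natCast, ← Real.rpow_mul hN0.le]
        apply mul_le_mul_of_nonneg_left _ hN0.le
        apply Real.rpow_le_rpow_of_exponent_le hN1
        push_cast
        linarith

end Pool.Agent.R177.RF
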