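import Pool.Agent.R177.RF.Grid
/-!
# From discrete windows to the continuous variance
-/
open Finset MeasureTheory ProbabilityTheory Filter Topology

namespace Pool.Agent.R177.RF

/-- sum over the window of length `H` centred at `x` -/
noncomputable def MM (f : ℕ → ℝ) (x H : ℝ) : ℝ :=
  ∑ n ∈ (Finset.range (⌈x + H⌉₊ + 1)).filter (fun n : ℕ => |(n : ℝ) - x| < H / 2), f n

lemma MM_lo (f : ℕ → ℝ) {j L : ℕ} {H θ x : ℝ} (hH : H = L + θ) (h0 : 0 ≤ θ) (hx : j + H / 2 < x)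
    (hx2 : x < j + 1 - θ + H / 2) : MM f x H = ∑ n ∈ Ioc j (j + L), f n := by
  unfold MM
  congr 1
  ext n
  rw [mem_filter, mem_range, mem_Ioc, abs_lt]
  have hL : (0 : ℝ) ≤ L := Nat.cast_nonneg _
  constructor
  · rintro ⟨_, h2, h3⟩
    constructor
    · have : (j : ℝ) < n := by linarith
      exact_mod_cast this
    · have : (n : ℝ) < ((j + L + 1 : ℕ) : ℝ) := by push_cast; linarith
      have := Nat.cast_lt.1 this
      omega
  · rintro ⟨h2, h3⟩
    have h2' : (j : ℝ) + 1 ≤ n := by exact_mod_cast h2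
    have h3' : (n : ℝ) ≤ j + L := by exact_mod_cast h3
    refine ⟨?_, by linarith, by linarith⟩
    have h4 : (n : ℝ) ≤ ⌈x + H⌉₊ := le_trans (by linarith) (Nat.le_ceil (x + H))
    have := Nat.cast_le.1 h4
    omega

lemma MM_hi (f : ℕ → ℝ) {j L : ℕ} {H θ x : ℝ} (hH : H = L + θ) (h0 : 0 ≤ θ) (h1 : θ < 1) (hx : j + 1 - θ + H / 2 < x)
    (hx2 : x < j + 1 + H / 2) : MM f x H = ∑ n ∈ Ioc j (j + (L + 1)), f n := by
  unfold MM
  congr 1
  ext n
  rw [mem_filter, mem_range, mem_Ioc, abs_lt]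
  have hL : (0 : ℝ) ≤ L := Nat.cast_nonneg _
  constructor
  · rintro ⟨_, h2, h3⟩
    constructor
    · have : (j : ℝ) < n := by linarith
      exact_mod_cast this
    · have : (n : ℝ) < ((j + L + 2 : ℕ) : ℝ) := by push_cast; linarith
      have := Nat.cast_lt.1 this
      omega
  · rintro ⟨h2, h3⟩
    have h2' : (j : ℝ) + 1 ≤ n := by exact_mod_cast h2
    have h3' : (n : ℝ) ≤ j + (L + 1) := by exact_mod_cast h3
    refine ⟨?_, by linarith, by linarith⟩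
    have h4 : (n : ℝ) ≤ ⌈x + H⌉₊ := le_trans (by linarith) (Nat.le_ceil (x + H))
    have := Nat.cast_le.1 h4
    omega

lemma int_const {g : ℝ → ℝ} {a b c : ℝ} (hab : a ≤ b) (h : ∀ x, a < x → x < b → g x = c) :
    IntervalIntegrable g volume a b ∧ ∫ x in a..b, g x = (b - a) * c := by
  have hne : ∀ᵐ x : ℝ, x ≠ b := by
    rw [ae_iff]
    simp
  have h1 : ∀ᵐ x : ℝ, x ∈ Set.uIoc a b → g x = (fun _ => c) x := by
    filter_upwards [hne] with x hx hx2
    rw [Set.uIoc_of_le hab] at hx2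
    exact h x hx2.1 (lt_of_le_of_ne hx2.2 hx)
  constructor
  · refine (intervalIntegrable_const (c := c)).congr_ae ?_
    rw [EventuallyEq, ae_restrict_iff' measurableSet_uIoc]
    filter_upwards [h1] with x hx hx2
    exact (hx hx2).symm
  · rw [intervalIntegral.integral_congr_ae h1, intervalIntegral.integral_const, smul_eq_mul]

lemma int_unit (f : ℕ → ℝ) {j L : ℕ} {H θ : ℝ} (hH : H = L + θ) (h0 : 0 ≤ θ) (h1 : θ < 1) :
    IntervalIntegrable (fun x => MM f x H ^ 2) volume (j + H / 2) ((j + 1 : ℕ) + H / 2) ∧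
    ∫ x in (j + H / 2)..((j + 1 : ℕ) + H / 2), MM f x H ^ 2 =
      (1 - θ) * (∑ n ∈ Ioc j (j + L), f n) ^ 2 + θ * (∑ n ∈ Ioc j (j + (L + 1)), f n) ^ 2 := by
  obtain ⟨i1, e1⟩ := int_const (g := fun x => MM f x H ^ 2) (a := j + H / 2) (b := j + 1 - θ + H / 2)
    (c := (∑ n ∈ Ioc j (j + L), f n) ^ 2) (by linarith) (fun x hx hx2 => by
      rw [MM_lo f hH h0 hx hx2])
  obtain ⟨i2, e2⟩ := int_const (g := fun x => MM f x H ^ 2) (a := j + 1 - θ + H / 2) (b := (j + 1 : ℕ) + H / 2)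
    (c := (∑ n ∈ Ioc j (j + (L + 1)), f n) ^ 2) (by push_cast; linarith) (fun x hx hx2 => by
      rw [MM_hi f hH h0 h1 hx (by push_cast at hx2; linarith)])
  refine ⟨i1.trans i2, ?_⟩
  rw [← intervalIntegral.integral_add_adjacent_intervals i1 i2, e1, e2]
  push_cast
  ring

lemma int_block (f : ℕ → ℝ) {A B L : ℕ} (hAB : A ≤ B) {H θ : ℝ} (hH : H = L + θ) (h0 : 0 ≤ θ) (h1 : θ < 1) :
    IntervalIntegrable (fun x => MM f x H ^ 2) volume (A + H / 2) (B + H / 2) ∧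
    ∫ x in (A + H / 2)..(B + H / 2), MM f x H ^ 2 =
      ∑ j ∈ Ico A B, ((1 - θ) * (∑ n ∈ Ioc j (j + L), f n) ^ 2 + θ * (∑ n ∈ Ioc j (j + (L + 1)), f n) ^ 2) := by
  have hi : ∀ k ∈ Set.Ico A B, IntervalIntegrable (fun x => MM f x H ^ 2) volume ((fun k : ℕ => (k : ℝ) + H / 2) k)
      ((fun k : ℕ => (k : ℝ) + H / 2) (k + 1)) := fun k _ => (int_unit f (j := k) hH h0 h1).1
  refine ⟨IntervalIntegrable.trans_iterate_Ico hAB hi, ?_⟩
  have h2 := intervalIntegral.sum_integral_adjacent_intervals_Ico (f := fun x => MM f x H ^ 2) hAB hi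
  rw [← h2]
  refine sum_congr rfl fun k _ => ?_
  exact (int_unit f (j := k) hH h0 h1).2

lemma bracket (f : ℕ → ℝ) {L : ℕ} {X H θ : ℝ} (hH : H = L + θ) (h0 : 0 ≤ θ) (h1 : θ < 1) (hH0 : 0 < H) (hHX : H ≤ X)
    (hX4 : 4 ≤ X) {η c : ℝ} (hη : 0 < η) (hc0 : 0 ≤ c) (hc1 : c ≤ 1) (GG : ℕ → ℝ)
    (hGG : ∀ Y, GG Y = (1 - θ) * ∑ k ∈ range Y, (∑ n ∈ Ioc k (k + L), f n) ^ 2 +
      θ * ∑ k ∈ range Y, (∑ n ∈ Ioc k (k + (L + 1)), f n) ^ 2)
    (hb : ∀ Y : ℕ, X / 4 ≤ Y → |GG Y - c * Y * H| ≤ η * Y * H) (hXη : 2 ≤ η * X) :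
    |(∫ x in X..2 * X, MM f x H ^ 2) - c * X * H| ≤ 5 * η * X * H := by
  have hblock : ∀ A B : ℕ, A ≤ B → IntervalIntegrable (fun x => MM f x H ^ 2) volume (A + H / 2) (B + H / 2) ∧
      ∫ x in (A + H / 2)..(B + H / 2), MM f x H ^ 2 = GG B - GG A := by
    intro A B hAB
    obtain ⟨i1, e1⟩ := int_block f hAB hH h0 h1
    refine ⟨i1, ?_⟩
    rw [e1, hGG, hGG, sum_Ico_eq_sub _ hAB, sum_add_distrib, sum_add_distrib, ← mul_sum, ← mul_sum, ← mul_sum, ← mul_sum]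
  have hX0 : 0 < X := by linarith
  have hd1 : 0 ≤ X - H / 2 := by linarith
  have hd2 : 0 ≤ 2 * X - H / 2 := by linarith
  have a1 : ((⌊X - H / 2⌋₊ : ℕ) : ℝ) ≤ X - H / 2 := Nat.floor_le hd1
  have a2 : X - H / 2 < (⌊X - H / 2⌋₊ : ℕ) + 1 := Nat.lt_floor_add_one _
  have a3 : X - H / 2 ≤ ((⌈X - H / 2⌉₊ : ℕ) : ℝ) := Nat.le_ceil _
  have a4 : ((⌈X - H / 2⌉₊ : ℕ) : ℝ) < X - H / 2 + 1 := Nat.ceil_lt_add_one hd1
  have b1 : ((⌊2 * X - H / 2⌋₊ : ℕ) : ℝ) ≤ 2 * X - H / 2 := Nat.floor_le hd2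
  have b2 : 2 * X - H / 2 < (⌊2 * X - H / 2⌋₊ : ℕ) + 1 := Nat.lt_floor_add_one _
  have b3 : 2 * X - H / 2 ≤ ((⌈2 * X - H / 2⌉₊ : ℕ) : ℝ) := Nat.le_ceil _
  have b4 : ((⌈2 * X - H / 2⌉₊ : ℕ) : ℝ) < 2 * X - H / 2 + 1 := Nat.ceil_lt_add_one hd2
  set A := ⌊X - H / 2⌋₊
  set A' := ⌈X - H / 2⌉₊
  set B' := ⌊2 * X - H / 2⌋₊
  set B := ⌈2 * X - H / 2⌉₊
  have hAB : A ≤ B := by
    have : (A : ℝ) ≤ B := by linarith
    exact_mod_cast this
  have hAB' : A' ≤ B' := by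
    have : (A' : ℝ) ≤ B' := by linarith
    exact_mod_cast this
  obtain ⟨i1, e1⟩ := hblock A B hAB
  obtain ⟨i2, e2⟩ := hblock A' B' hAB'
  have i3 : IntervalIntegrable (fun x => MM f x H ^ 2) volume X (2 * X) := by
    refine i1.mono_set ?_
    rw [Set.uIcc_of_le (by linarith), Set.uIcc_of_le (by linarith)]
    exact Set.Icc_subset_Icc (by linarith) (by linarith)
  have up : ∫ x in X..2 * X, MM f x H ^ 2 ≤ GG B - GG A := by
    rw [← e1]
    exact intervalIntegral.integral_mono_interval (by linarith) (by linarith) (by linarith)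
      (Eventually.of_forall fun x => sq_nonneg _) i1
  have lo : GG B' - GG A' ≤ ∫ x in X..2 * X, MM f x H ^ 2 := by
    rw [← e2]
    exact intervalIntegral.integral_mono_interval (by linarith) (by linarith) (by linarith)
      (Eventually.of_forall fun x => sq_nonneg _) i3
  have q1 := abs_le.1 (hb A (by linarith))
  have q2 := abs_le.1 (hb B (by linarith))
  have q3 := abs_le.1 (hb A' (by linarith))
  have q4 := abs_le.1 (hb B' (by linarith))
  have hXH : 0 ≤ X * H := by positivity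
  have z1 : 2 * H ≤ η * X * H := mul_le_mul_of_nonneg_right hXη hH0.le
  rw [abs_le]
  constructor
  · -- lower
    have s1 : c * H * (X - 2) ≤ c * H * (B' - A') := mul_le_mul_of_nonneg_left (by linarith) (by positivity)
    have s2 : η * H * (A' + B') ≤ η * H * (4 * X) := mul_le_mul_of_nonneg_left (by linarith) (by positivity)
    have s3 : c * (2 * H) ≤ 1 * (2 * H) := mul_le_mul_of_nonneg_right hc1 (by positivity)
    nlinarith [q3.2, q4.1]
  · have s1 : c * H * (B - A) ≤ c * H * (X + 2) := mul_le_mul_of_nonneg_left (by linarith) (by positivity)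
    have s2 : η * H * (A + B) ≤ η * H * (4 * X) := mul_le_mul_of_nonneg_left (by linarith) (by positivity)
    have s3 : c * (2 * H) ≤ 1 * (2 * H) := mul_le_mul_of_nonneg_right hc1 (by positivity)
    nlinarith [q1.1, q2.2]

variable {Ω : Type} [MeasurableSpace Ω] {μ : Measure Ω} [IsProbabilityMeasure μ] {X : ℕ → Ω → ℝ}

/-- uniform form for the continuous variance -/
theorem cont (hm : ∀ p, Measurable (X p)) (hs : ∀ p ω, X p ω = 1 ∨ X p ω = -1) (h0 : ∀ p, ∫ ω, X p ω ∂μ = 0)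
    (hind : iIndepFun X μ) : ∀ᵐ ω ∂μ, ∀ ε : ℝ, 0 < ε → ∀ η : ℝ, 0 < η → ∀ᶠ Y : ℝ in atTop,
      ∀ H : ℝ, 0 < H → H ≤ Y ^ (1 - ε) →
        |(∫ x in Y..2 * Y, MM (fun n => rf X n ω) x H ^ 2) - cc * Y * H| ≤ η * Y * H := by
  have hall : ∀ᵐ ω ∂μ, ∀ m : ℕ, ∀ η : ℝ, 0 < η → ∀ᶠ Y : ℕ in atTop,
      ∀ H : ℕ, 1 ≤ H → (H : ℝ) ≤ (Y : ℝ) ^ (1 - 2 * (1 / ((m : ℝ) + 3))) → |VV X Y H ω - cc * Y * H| ≤ η * Y * H := by
    rw [ae_all_iff]
    intro m
    have hm0 : (0 : ℝ) ≤ m := Nat.cast_nonneg _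
    refine all_H hm hs h0 hind (by positivity) ?_
    rw [div_lt_div_iff₀ (by positivity) (by norm_num)]
    linarith
  filter_upwards [hall] with ω hω ε hε η hη
  set ε' := min ε (1 / 2) with hε'
  have he0 : 0 < ε' := by positivity
  have he1 : ε' ≤ 1 / 2 := min_le_right _ _
  have he2 : ε' ≤ ε := min_le_left _ _
  obtain ⟨m, hm1⟩ := exists_nat_gt (4 / ε')
  set e := 1 / ((m : ℝ) + 3) with he
  have hm0 : (0 : ℝ) ≤ m := Nat.cast_nonneg _
  have hepos : 0 < e := by positivity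
  have hele : 4 * e ≤ ε' := by
    rw [div_lt_iff₀ he0] at hm1
    rw [he, mul_one_div, div_le_iff₀ (by positivity)]
    nlinarith
  have hη5 : 0 < η / 5 := by positivity
  obtain ⟨N, hN⟩ := eventually_atTop.1 (hω m (η / 5) hη5)
  -- growth
  have hgrow : ∀ᶠ Y : ℝ in atTop, Y ^ (1 - ε') + 1 ≤ (Y / 4) ^ (1 - 2 * e) := by
    have h1 : Tendsto (fun Y : ℝ => Y ^ (ε' - 2 * e)) atTop atTop := tendsto_rpow_atTop (by linarith)
    filter_upwards [h1.eventually_ge_atTop 8, eventually_ge_atTop 1] with Y h2 h3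
    have hY0 : 0 < Y := by linarith
    have h4 : (Y / 4) ^ (1 - 2 * e) ≥ Y ^ (1 - 2 * e) / 4 := by
      rw [Real.div_rpow hY0.le (by norm_num)]
      refine div_le_div_of_nonneg_left (by positivity) (by positivity) ?_
      calc (4 : ℝ) ^ (1 - 2 * e) ≤ (4 : ℝ) ^ (1 : ℝ) := Real.rpow_le_rpow_of_exponent_le (by norm_num) (by linarith)
        _ = 4 := Real.rpow_one _
    have h5 : Y ^ (1 - 2 * e) = Y ^ (1 - ε') * Y ^ (ε' - 2 * e) := by
      rw [← Real.rpow_add hY0]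
      congr 1
      ring
    have h6 : 1 ≤ Y ^ (1 - ε') := Real.one_le_rpow h3 (by linarith)
    have h7 : Y ^ (1 - ε') * 8 ≤ Y ^ (1 - ε') * Y ^ (ε' - 2 * e) := mul_le_mul_of_nonneg_left h2 (by linarith)
    linarith
  have hlin : ∀ᶠ Y : ℝ in atTop, 2 ≤ (η / 5) * Y := (tendsto_id.const_mul_atTop hη5).eventually_ge_atTop 2
  filter_upwards [hgrow, hlin, eventually_ge_atTop 4, eventually_ge_atTop (4 * (N : ℝ))] with Y k1 k2 k3 k4 H hH hHY
  have hY0 : 0 < Y := by linarith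
  have hHY' : H ≤ Y ^ (1 - ε') := hHY.trans (Real.rpow_le_rpow_of_exponent_le (by linarith) (by linarith))
  have hHY1 : H ≤ Y := hHY'.trans (by
    calc Y ^ (1 - ε') ≤ Y ^ (1 : ℝ) := Real.rpow_le_rpow_of_exponent_le (by linarith) (by linarith)
      _ = Y := Real.rpow_one _)
  have f1 : ((⌊H⌋₊ : ℕ) : ℝ) ≤ H := Nat.floor_le hH.le
  have f2 : H < (⌊H⌋₊ : ℕ) + 1 := Nat.lt_floor_add_one _
  set L := ⌊H⌋₊
  set θ := H - L with hθ
  have t0 : 0 ≤ θ := by linarith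
  have t1 : θ < 1 := by linarith
  have hb0 : ∀ Z : ℕ, Y / 4 ≤ Z → ∀ K : ℕ, K ≤ L + 1 → |VV X Z K ω - cc * Z * K| ≤ η / 5 * Z * K := by
    intro Z hZ K hK
    rcases Nat.eq_zero_or_pos K with h | h
    · subst h
      unfold VV SS
      simp
    · refine hN Z ?_ K h ?_
      · have : (N : ℝ) ≤ Z := by linarith
        exact_mod_cast this
      · have c1 : (K : ℝ) ≤ L + 1 := by exact_mod_cast hK
        have c2 : (Y / 4) ^ (1 - 2 * e) ≤ (Z : ℝ) ^ (1 - 2 * e) :=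
          Real.rpow_le_rpow (by positivity) hZ (by linarith)
        linarith
  have := bracket (fun n => rf X n ω) (L := L) (X := Y) (H := H) (θ := θ) (by rw [hθ]; ring) t0 t1 hH hHY1 k3
    hη5 cc_pos.le (by linarith [cc_le]) (fun Z => (1 - θ) * VV X Z L ω + θ * VV X Z (L + 1) ω)
    (fun Z => rfl) (fun Z hZ => by
      have d1 := abs_le.1 (hb0 Z hZ L (by omega))
      have d2 := abs_le.1 (hb0 Z hZ (L + 1) le_rfl)
      push_cast at d2
      have hZ0 : (0 : ℝ) ≤ Z := Nat.cast_nonneg _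
      have m1 := mul_le_mul_of_nonneg_left d1.1 (show 0 ≤ 1 - θ by linarith)
      have m2 := mul_le_mul_of_nonneg_left d1.2 (show 0 ≤ 1 - θ by linarith)
      have m3 := mul_le_mul_of_nonneg_left d2.1 t0
      have m4 := mul_le_mul_of_nonneg_left d2.2 t0
      have hHe : H = (1 - θ) * L + θ * (L + 1) := by rw [hθ]; ring
      have r1 : cc * Z * H = (1 - θ) * (cc * Z * L) + θ * (cc * Z * (L + 1)) := by rw [hHe]; ring
      have r2 : η / 5 * Z * H = (1 - θ) * (η / 5 * Z * L) + θ * (η / 5 * Z * (L + 1)) := by rw [hHe]; ring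
      rw [r1, r2, abs_le]
      constructor <;> linarith) k2
  refine this.trans (le_of_eq ?_)
  ring

end Pool.Agent.R177.RF
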