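import Pool.Agent.R177.RF.Hyp
import Pool.Agent.Helper112.Arith
/-!
# Random cubic completely multiplicative functions in short intervals
-/
open Finset

namespace Pool.Agent.R177.RF

/-- the exponent vector of `m` modulo 3 -/
def ex (r m : ℕ) (i : Fin r) : ZMod 3 := ((m.factorization (i : ℕ) : ℕ) : ZMod 3)

lemma wt_ex (r m : ℕ) : wt (ex r m) ≤ m.primeFactors.card := by
  classical
  unfold wt
  rw [← card_filter]
  apply card_le_card_of_injOn (fun i : Fin r => (i : ℕ))
  · intro i hi
    have hi' : ex r m i ≠ 0 := by simpa using hi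
    have h1 : m.factorization (i : ℕ) ≠ 0 := by
      intro h
      apply hi'
      unfold ex
      rw [h]
      simp
    have h2 : (i : ℕ) ∈ m.factorization.support := Finsupp.mem_support_iff.2 h1
    rw [Nat.support_factorization] at h2
    exact h2
  · intro i _ j _ hij
    exact Fin.ext hij

lemma two_pow_omega {m : ℕ} (hm : m ≠ 0) : 2 ^ m.primeFactors.card ≤ m.divisors.card := by
  rw [Nat.card_divisors hm, ← prod_const]
  apply prod_le_prod' 
  intro p hp
  have h2 : p ∈ m.factorization.support := by rw [Nat.support_factorization]; exact hp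
  have := Finsupp.mem_support_iff.1 h2
  omega

lemma prod_range {r n : ℕ} (hn : n ≠ 0) (hr : n < r) : n = ∏ i ∈ range r, i ^ (n.factorization i) := by
  have h1 := Nat.prod_factorization_pow_eq_self hn
  rw [Finsupp.prod_of_support_subset (s := range r)] at h1
  · exact h1.symm
  · intro p hp
    rw [Nat.support_factorization] at hp
    rw [mem_range]
    exact (Nat.le_of_mem_primeFactors hp).trans_lt hr
  · intro i _
    exact pow_zero i

/-- cube free part and cube root of the cube part -/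
lemma split3 {r n : ℕ} (hn : n ≠ 0) (hr : n < r) :
    n = (∏ i ∈ range r, i ^ (n.factorization i % 3)) * (∏ i ∈ range r, i ^ (n.factorization i / 3)) ^ 3 := by
  rw [← prod_pow, ← prod_mul_distrib]
  conv_lhs => rw [prod_range hn hr]
  refine prod_congr rfl fun i _ => ?_
  rw [← pow_mul, ← pow_add]
  congr 1
  omega

lemma class_card {r M N K n0 : ℕ} (hr : M + N < r) (hK : ∀ x : ℕ, x ^ 3 < N → x ≤ K) :
    ((Ioc M (M + N)).filter (fun n => ex r n = ex r n0)).card ≤ K + 1 := by
  classical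
  set T := (Ioc M (M + N)).filter (fun n => ex r n = ex r n0) with hT
  rcases T.eq_empty_or_nonempty with h | hne
  · rw [h]; simp
  set v : ℕ → ℕ := fun n => ∏ i ∈ range r, i ^ (n.factorization i / 3) with hv
  set c : ℕ → ℕ := fun n => ∏ i ∈ range r, i ^ (n.factorization i % 3) with hc
  have hmem : ∀ n ∈ T, M < n ∧ n ≤ M + N ∧ ex r n = ex r n0 := by
    intro n hn
    rw [hT, mem_filter, mem_Ioc] at hn
    exact ⟨hn.1.1, hn.1.2, hn.2⟩
  have hsplit : ∀ n ∈ T, n = c n * v n ^ 3 := fun n hn => split3 (by have := (hmem n hn).1; omega) (by have := (hmem n hn).2.1; omega)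
  have hceq : ∀ n ∈ T, ∀ n' ∈ T, c n = c n' := by
    intro n hn n' hn'
    refine prod_congr rfl fun i hi => ?_
    rw [mem_range] at hi
    have h1 : ex r n ⟨i, hi⟩ = ex r n' ⟨i, hi⟩ := by rw [(hmem n hn).2.2, (hmem n' hn').2.2]
    have h2 := (ZMod.natCast_eq_natCast_iff' _ _ 3).1 h1
    exact congrArg (fun k => i ^ k) h2
  obtain ⟨n1, hn1, hmin⟩ := exists_min_image T v hne
  have hsub : ∀ n ∈ T, v n ∈ Icc (v n1) (v n1 + K) := by
    intro n hn
    have h1 := hmin n hn
    rw [mem_Icc]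
    refine ⟨h1, ?_⟩
    have h2 : v n - v n1 ≤ K := by
      apply hK
      obtain ⟨d, hd⟩ := Nat.exists_eq_add_of_le h1
      have h3 := hsplit n hn
      have h4 := hsplit n1 hn1
      rw [hceq n hn n1 hn1] at h3
      have hc1 : 1 ≤ c n1 := by
        rcases Nat.eq_zero_or_pos (c n1) with h | h
        · rw [h, zero_mul] at h4
          have := (hmem n1 hn1).1
          omega
        · exact h
      have h5 : c n1 * (v n1 + d) ^ 3 < c n1 * v n1 ^ 3 + N := by
        rw [← hd, ← h3, ← h4]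
        have := (hmem n hn).2.1
        have := (hmem n1 hn1).1
        omega
      have h6 : (v n1) ^ 3 + d ^ 3 ≤ (v n1 + d) ^ 3 := by
        have : (v n1 + d) ^ 3 = (v n1) ^ 3 + d ^ 3 + (3 * (v n1) ^ 2 * d + 3 * v n1 * d ^ 2) := by ring
        omega
      have h7 : c n1 * ((v n1) ^ 3 + d ^ 3) ≤ c n1 * (v n1 + d) ^ 3 := Nat.mul_le_mul_left _ h6
      have h8 : d ^ 3 ≤ c n1 * d ^ 3 := Nat.le_mul_of_pos_left _ hc1
      have h9 : c n1 * ((v n1) ^ 3 + d ^ 3) = c n1 * (v n1) ^ 3 + c n1 * d ^ 3 := by ring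
      rw [hd, Nat.add_sub_cancel_left]
      omega
    omega
  have hinj : Set.InjOn v T := by
    intro n hn n' hn' h
    rw [hsplit n hn, hsplit n' hn', h, hceq n hn n' hn']
  have h1 := card_le_card_of_injOn v hsub hinj
  rw [Nat.card_Icc] at h1
  omega

lemma second3 {r M N K : ℕ} (hr : M + N < r) (hK : ∀ x : ℕ, x ^ 3 < N → x ≤ K) :
    (∑ ξ : Fin r → ZMod 3, ‖∑ m ∈ Ioc M (M + N), ps (ex r m) ξ‖ ^ 2) / 3 ^ r ≤ N * (K + 1) := by
  classical
  set W := Ioc M (M + N) with hW
  set a : (Fin r → ZMod 3) → ℂ := fun e => ((W.filter (fun m => ex r m = e)).card : ℂ) with ha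
  have h1 : ∀ ξ : Fin r → ZMod 3, ∑ m ∈ W, ps (ex r m) ξ = FF a ξ := by
    intro ξ
    unfold FF
    rw [← sum_fiberwise W (ex r)]
    refine sum_congr rfl fun e _ => ?_
    rw [sum_congr rfl (fun m hm => by rw [(mem_filter.1 hm).2]), sum_const, nsmul_eq_mul]
  simp_rw [h1]
  rw [parseval, mul_div_cancel_left₀ _ (by positivity)]
  have h2 : ∀ e : Fin r → ZMod 3, ‖a e‖ ^ 2 = ∑ m ∈ W.filter (fun m => ex r m = e), ((W.filter (fun m' => ex r m' = ex r m)).card : ℝ) := by
    intro e
    rw [sum_congr rfl (fun m hm => by rw [(mem_filter.1 hm).2]), sum_const, nsmul_eq_mul, ha]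
    simp only [Complex.norm_natCast]
    rw [sq]
  simp_rw [h2]
  rw [sum_fiberwise W (ex r)]
  calc ∑ m ∈ W, ((W.filter (fun m' => ex r m' = ex r m)).card : ℝ) ≤ ∑ _m ∈ W, ((K : ℝ) + 1) := by
        refine sum_le_sum fun m _ => ?_
        have := class_card (n0 := m) hr hK
        exact_mod_cast this
    _ = N * (K + 1) := by
      rw [sum_const, nsmul_eq_mul, hW, Nat.card_Ioc]
      simp

end Pool.Agent.R177.RF
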