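import Pool.Agent.R177.RF.Cub
/-!
# Pairs of integers of an interval whose quotient is a cube
-/
open Finset

namespace Pool.Agent.R177.RF

lemma card_pairs {r M N : ℕ} (hr : M + N < r) :
    ((((Ioc M (M + N)) ×ˢ (Ioc M (M + N))).filter (fun q => q.1 < q.2 ∧ ex r q.1 = ex r q.2)).card : ℝ) ≤ 4 * N := by
  classical
  set P := ((Ioc M (M + N)) ×ˢ (Ioc M (M + N))).filter (fun q => q.1 < q.2 ∧ ex r q.1 = ex r q.2) with hP
  set v : ℕ → ℕ := fun n => ∏ i ∈ range r, i ^ (n.factorization i / 3) with hv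
  set c : ℕ → ℕ := fun n => ∏ i ∈ range r, i ^ (n.factorization i % 3) with hc
  have hmem : ∀ q ∈ P, M < q.1 ∧ q.1 < q.2 ∧ q.2 ≤ M + N ∧ q.1 = c q.1 * v q.1 ^ 3 ∧ q.2 = c q.1 * v q.2 ^ 3 := by
    intro q hq
    rw [hP, mem_filter, mem_product, mem_Ioc, mem_Ioc] at hq
    obtain ⟨⟨⟨h1, h2⟩, h3, h4⟩, h5, h6⟩ := hq
    have hce : c q.1 = c q.2 := by
      refine prod_congr rfl fun i hi => ?_
      rw [mem_range] at hi
      have k1 : ex r q.1 ⟨i, hi⟩ = ex r q.2 ⟨i, hi⟩ := by rw [h6]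
      have k2 := (ZMod.natCast_eq_natCast_iff' _ _ 3).1 k1
      exact congrArg (fun k => i ^ k) k2
    refine ⟨h1, h5, h4, split3 (by omega) (by omega), ?_⟩
    rw [hce]
    exact split3 (by omega) (by omega)
  set S := (Icc 1 N).sigma (fun w => Ico (w - N / w ^ 2) w ×ˢ Ioc (M / w ^ 3) ((M + N) / w ^ 3)) with hS
  have hmaps : ∀ q ∈ P, (⟨v q.2, (v q.1, c q.1)⟩ : (_ : ℕ) × (ℕ × ℕ)) ∈ S := by
    intro q hq
    obtain ⟨h1, h2, h3, h4, h5⟩ := hmem q hq
    set u := v q.1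
    set w := v q.2
    set cc := c q.1
    have hc0 : 0 < cc := by
      rcases Nat.eq_zero_or_pos cc with h | h
      · rw [h, zero_mul] at h4
        omega
      · exact h
    have huw : u < w := by
      by_contra hcon
      push Not at hcon
      have : cc * w ^ 3 ≤ cc * u ^ 3 := Nat.mul_le_mul_left _ (Nat.pow_le_pow_left hcon 3)
      omega
    obtain ⟨d, hd⟩ := Nat.exists_eq_add_of_lt huw
    have hw0 : 0 < w := by omega
    have h6 : (w - u) * w ^ 2 < N := by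
      have e1 : w - u = d + 1 := by omega
      have e2 : u ^ 3 + (d + 1) * w ^ 2 ≤ w ^ 3 := by
        rw [hd]
        nlinarith [Nat.zero_le (u * d), Nat.zero_le (u * u), Nat.zero_le (u * u * d), Nat.zero_le (u * d * d)]
      have e3 : cc * (u ^ 3 + (d + 1) * w ^ 2) ≤ cc * w ^ 3 := Nat.mul_le_mul_left _ e2
      have e4 : cc * (u ^ 3 + (d + 1) * w ^ 2) = cc * u ^ 3 + cc * ((d + 1) * w ^ 2) := by ring
      have e5 : (d + 1) * w ^ 2 ≤ cc * ((d + 1) * w ^ 2) := Nat.le_mul_of_pos_left _ hc0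
      rw [e1]
      omega
    have h7 : w - u ≤ N / w ^ 2 := (Nat.le_div_iff_mul_le (by positivity)).2 h6.le
    have h8 : w ≤ N := by
      have : w * 1 ≤ w * w := Nat.mul_le_mul_left _ hw0
      have e1 : 1 * w ^ 2 ≤ (w - u) * w ^ 2 := Nat.mul_le_mul_right _ (by omega)
      nlinarith
    rw [hS, mem_sigma, mem_Icc, mem_product, mem_Ico, mem_Ioc]
    refine ⟨⟨hw0, h8⟩, ⟨?_, huw⟩, ?_, ?_⟩
    · show w - N / w ^ 2 ≤ u
      omega
    · show M / w ^ 3 < cc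
      rw [Nat.div_lt_iff_lt_mul (by positivity), ← h5]
      omega
    · show cc ≤ (M + N) / w ^ 3
      rw [Nat.le_div_iff_mul_le (by positivity), ← h5]
      exact h3
  have hinj : Set.InjOn (fun q : ℕ × ℕ => (⟨v q.2, (v q.1, c q.1)⟩ : (_ : ℕ) × (ℕ × ℕ))) P := by
    intro q hq q' hq' h
    obtain ⟨_, _, _, h4, h5⟩ := hmem q hq
    obtain ⟨_, _, _, h4', h5'⟩ := hmem q' hq'
    simp only [Sigma.mk.injEq, heq_eq_eq, Prod.mk.injEq] at h
    obtain ⟨k1, k2, k3⟩ := h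
    apply Prod.ext
    · rw [h4, h4', k2, k3]
    · rw [h5, h5', k1, k3]
  have h1 := card_le_card_of_injOn _ hmaps hinj
  rw [hS, card_sigma] at h1
  have h2 : (P.card : ℝ) ≤ ∑ w ∈ Icc 1 N, ((Ico (w - N / w ^ 2) w ×ˢ Ioc (M / w ^ 3) ((M + N) / w ^ 3)).card : ℝ) := by
    exact_mod_cast h1
  have h3 : ∀ w ∈ Icc 1 N, ((Ico (w - N / w ^ 2) w ×ˢ Ioc (M / w ^ 3) ((M + N) / w ^ 3)).card : ℝ) ≤ 2 * N * ((w : ℝ) ^ 2)⁻¹ := by
    intro w hw
    rw [mem_Icc] at hw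
    have hw0 : (0 : ℝ) < w := by exact_mod_cast hw.1
    rw [card_product, Nat.card_Ico, Nat.card_Ioc]
    have e1 : w - (w - N / w ^ 2) ≤ w := Nat.sub_le _ _
    have e2 : w - (w - N / w ^ 2) ≤ N / w ^ 2 := by
      generalize N / w ^ 2 = x
      omega
    have e3 : (M + N) / w ^ 3 - M / w ^ 3 ≤ N / w ^ 3 + 1 := by
      have hw3 : 0 < w ^ 3 := Nat.pow_pos hw.1
      rw [Nat.add_div hw3]
      generalize M / w ^ 3 = x
      generalize N / w ^ 3 = y
      split_ifs <;> omega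
    have e4 : (w - (w - N / w ^ 2)) * ((M + N) / w ^ 3 - M / w ^ 3) ≤ w * (N / w ^ 3) + N / w ^ 2 := by
      calc _ ≤ (w - (w - N / w ^ 2)) * (N / w ^ 3 + 1) := Nat.mul_le_mul_left _ e3
        _ = (w - (w - N / w ^ 2)) * (N / w ^ 3) + (w - (w - N / w ^ 2)) := by ring
        _ ≤ _ := add_le_add (Nat.mul_le_mul_right _ e1) e2
    have e5 : ((N / w ^ 3 : ℕ) : ℝ) ≤ N / (w : ℝ) ^ 3 := by
      have := Nat.cast_div_le (α := ℝ) (m := N) (n := w ^ 3)
      push_cast at this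
      exact this
    have e6 : ((N / w ^ 2 : ℕ) : ℝ) ≤ N / (w : ℝ) ^ 2 := by
      have := Nat.cast_div_le (α := ℝ) (m := N) (n := w ^ 2)
      push_cast at this
      exact this
    calc (((w - (w - N / w ^ 2)) * ((M + N) / w ^ 3 - M / w ^ 3) : ℕ) : ℝ) ≤ ((w * (N / w ^ 3) + N / w ^ 2 : ℕ) : ℝ) := by
          exact_mod_cast e4
      _ = (w : ℝ) * ((N / w ^ 3 : ℕ) : ℝ) + ((N / w ^ 2 : ℕ) : ℝ) := by push_cast; ring
      _ ≤ (w : ℝ) * (N / (w : ℝ) ^ 3) + N / (w : ℝ) ^ 2 := add_le_add (mul_le_mul_of_nonneg_left e5 hw0.le) e6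
      _ = 2 * N * ((w : ℝ) ^ 2)⁻¹ := by
        field_simp
        ring
  refine h2.trans ((sum_le_sum h3).trans ?_)
  rw [← mul_sum]
  have h4 : ∑ w ∈ Icc 1 N, ((w : ℝ) ^ 2)⁻¹ ≤ 2 := by
    have := sum_Ioo_inv_sq_le (α := ℝ) 0 (N + 1)
    have e1 : Ioo 0 (N + 1) = Icc 1 N := by
      ext x
      rw [mem_Ioo, mem_Icc]
      omega
    rw [e1] at this
    simpa using this
  nlinarith [Nat.cast_nonneg (α := ℝ) N]

lemma second4 {r M N : ℕ} (hr : M + N < r) :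
    (∑ ξ : Fin r → ZMod 3, ‖∑ m ∈ Ioc M (M + N), ps (ex r m) ξ‖ ^ 2) / 3 ^ r ≤ 9 * N := by
  classical
  set W := Ioc M (M + N) with hW
  set a : (Fin r → ZMod 3) → ℂ := fun e => ((W.filter (fun m => ex r m = e)).card : ℂ) with ha
  have h1 : ∀ ξ : Fin r → ZMod 3, ∑ m ∈ W, ps (ex r m) ξ = FF a ξ := by
    intro ξ
    unfold FF
    rw [← sum_fiberwise W (ex r)]
    refine sum_congr rfl fun e _ => ?_
    rw [sum_congr rfl (fun m hm => by rw [(mem_filter.1 hm).2]), sum_const, nsmul_eq_mul]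
  simp_rw [h1]
  rw [parseval, mul_div_cancel_left₀ _ (by positivity)]
  have h2 : ∀ e : Fin r → ZMod 3, ‖a e‖ ^ 2 = ∑ m ∈ W.filter (fun m => ex r m = e), ((W.filter (fun m' => ex r m' = ex r m)).card : ℝ) := by
    intro e
    rw [sum_congr rfl (fun m hm => by rw [(mem_filter.1 hm).2]), sum_const, nsmul_eq_mul, ha]
    simp only [Complex.norm_natCast]
    rw [sq]
  simp_rw [h2]
  rw [sum_fiberwise W (ex r)]
  set P := (W ×ˢ W).filter (fun q => q.1 < q.2 ∧ ex r q.1 = ex r q.2) with hP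
  have h3 : ∑ m ∈ W, (W.filter (fun m' => ex r m' = ex r m)).card = ((W ×ˢ W).filter (fun q => ex r q.2 = ex r q.1)).card := by
    rw [card_filter, sum_product]
    refine sum_congr rfl fun m _ => ?_
    rw [card_filter]
  have h4 : (W ×ˢ W).filter (fun q => ex r q.2 = ex r q.1) ⊆ W.image (fun m => (m, m)) ∪ (P ∪ P.image Prod.swap) := by
    intro q hq
    rw [mem_filter, mem_product] at hq
    rw [mem_union, mem_union, mem_image, mem_image]
    rcases lt_trichotomy q.1 q.2 with h | h | h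
    · right; left
      rw [hP, mem_filter, mem_product]
      exact ⟨hq.1, h, hq.2.symm⟩
    · left
      exact ⟨q.1, hq.1.1, Prod.ext rfl h⟩
    · right; right
      refine ⟨(q.2, q.1), ?_, rfl⟩
      rw [hP, mem_filter, mem_product]
      exact ⟨⟨hq.1.2, hq.1.1⟩, h, hq.2⟩
  have h5 : ((W ×ˢ W).filter (fun q => ex r q.2 = ex r q.1)).card ≤ W.card + (P.card + P.card) := by
    refine (card_le_card h4).trans ((card_union_le _ _).trans ?_)
    exact add_le_add card_image_le ((card_union_le _ _).trans (add_le_add le_rfl card_image_le))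
  have h6 : W.card = N := by rw [hW, Nat.card_Ioc]; omega
  have h7 : (P.card : ℝ) ≤ 4 * N := card_pairs hr
  have h8 : (((∑ m ∈ W, (W.filter (fun m' => ex r m' = ex r m)).card : ℕ)) : ℝ) ≤ ((W.card + (P.card + P.card) : ℕ) : ℝ) := by
    rw [h3]
    exact_mod_cast h5
  push_cast at h8
  rw [h6] at h8
  linarith

end Pool.Agent.R177.RF
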