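import Pool.Agent.R177.RF.Cub2
/-!
# Random cubic completely multiplicative functions: the final estimate
-/
open Finset

namespace Pool.Agent.R177.RF

lemma omega_bd (k : ℕ) : ∃ C : ℝ, 0 < C ∧ ∀ m : ℕ, 1 ≤ m → ((2 : ℝ) ^ m.primeFactors.card) ^ k ≤ C * m := by
  obtain ⟨C, hC, hdiv⟩ := Pool.Agent.Helper112.divisor_bound (1 / ((k : ℝ) + 1)) (by positivity)
  refine ⟨C ^ k, by positivity, fun m hm => ?_⟩
  have hm1 : (1 : ℝ) ≤ m := by exact_mod_cast hm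
  have h1 : (2 : ℝ) ^ m.primeFactors.card ≤ m.divisors.card := by exact_mod_cast two_pow_omega (m := m) (by omega)
  calc ((2 : ℝ) ^ m.primeFactors.card) ^ k ≤ (C * (m : ℝ) ^ (1 / ((k : ℝ) + 1))) ^ k :=
        pow_le_pow_left₀ (by positivity) (h1.trans (hdiv m hm)) k
    _ = C ^ k * ((m : ℝ) ^ (1 / ((k : ℝ) + 1))) ^ k := mul_pow _ _ _
    _ ≤ C ^ k * m := by
        apply mul_le_mul_of_nonneg_left _ (by positivity)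
        rw [← Real.rpow_natCast, ← Real.rpow_mul (by linarith)]
        calc (m : ℝ) ^ (1 / ((k : ℝ) + 1) * k) ≤ (m : ℝ) ^ (1 : ℝ) := by
              apply Real.rpow_le_rpow_of_exponent_le hm1
              rw [div_mul_eq_mul_div, one_mul, div_le_one (by positivity)]
              linarith
          _ = m := Real.rpow_one _

lemma markov3 {r : ℕ} (Φ : (Fin r → ZMod 3) → ℂ) {lam : ℝ} (hl : 0 < lam) (p : ℕ) {B : ℝ} (h : (∑ ξ, ‖Φ ξ‖ ^ p) / 3 ^ r ≤ B) :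
    ((univ.filter (fun ξ => lam < ‖Φ ξ‖)).card : ℝ) ≤ B / lam ^ p * 3 ^ r := by
  have h3 : (0 : ℝ) < 3 ^ r := by positivity
  have h1 : ((univ.filter (fun ξ => lam < ‖Φ ξ‖)).card : ℝ) * lam ^ p ≤ ∑ ξ, ‖Φ ξ‖ ^ p := by
    rw [← nsmul_eq_mul, ← sum_const]
    calc ∑ _ξ ∈ univ.filter (fun ξ => lam < ‖Φ ξ‖), lam ^ p ≤ ∑ ξ ∈ univ.filter (fun ξ => lam < ‖Φ ξ‖), ‖Φ ξ‖ ^ p := by
          refine sum_le_sum fun ξ hξ => ?_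
          exact pow_le_pow_left₀ hl.le (mem_filter.1 hξ).2.le p
      _ ≤ _ := sum_le_sum_of_subset_of_nonneg (filter_subset _ _) fun _ _ _ => by positivity
  rw [div_le_iff₀ h3] at h
  have hlp : 0 < lam ^ p := by positivity
  rw [div_mul_eq_mul_div, le_div_iff₀ hlp]
  exact h1.trans h

open Classical in
theorem cubic_final {A ε : ℝ} (hA : 0 < A) (hε : 0 < ε) : ∃ C : ℝ, 0 < C ∧ ∀ Q : ℕ, 1 ≤ Q →
    ((univ.filter (fun ξ : Fin (2 * Q + 1) → ZMod 3 => ∃ M N : ℕ, M ≤ Q ∧ 1 ≤ N ∧ N ≤ Q ∧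
      (N : ℝ) ^ (1 / 2 : ℝ) * (Q : ℝ) ^ ε < ‖∑ m ∈ Ioc M (M + N), ps (ex (2 * Q + 1) m) ξ‖)).card : ℝ) ≤
      C * (Q : ℝ) ^ (-A) * 3 ^ (2 * Q + 1) := by
  classical
  obtain ⟨j, hj⟩ := pow_unbounded_of_one_lt ((A + 3) / ε) (show (1 : ℝ) < 2 by norm_num)
  have hj2 : A + 3 ≤ ε * 2 ^ j := by
    rw [div_lt_iff₀ hε] at hj
    linarith
  obtain ⟨c, hc⟩ := moments j
  obtain ⟨C1, hC1, hom⟩ := omega_bd (7 * c)
  refine ⟨4 * C1 * 9 ^ (2 ^ j), by positivity, fun Q hQ => ?_⟩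
  have hQ1 : (1 : ℝ) ≤ Q := by exact_mod_cast hQ
  have hQ0 : (0 : ℝ) < Q := by linarith
  set r := 2 * Q + 1 with hr
  -- degrees
  obtain ⟨m0, hm0, hmax⟩ := exists_max_image (Icc 1 (2 * Q)) (fun m => m.primeFactors.card) ⟨1, by rw [mem_Icc]; omega⟩
  rw [mem_Icc] at hm0
  set d := m0.primeFactors.card with hd
  have h81 : (81 : ℝ) ^ (c * d) ≤ C1 * (2 * Q) := by
    have h1 := hom m0 hm0.1
    have h2 : (m0 : ℝ) ≤ 2 * Q := by exact_mod_cast hm0.2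
    calc (81 : ℝ) ^ (c * d) ≤ (2 ^ 7) ^ (c * d) := pow_le_pow_left₀ (by norm_num) (by norm_num) _
      _ = ((2 : ℝ) ^ d) ^ (7 * c) := by rw [← pow_mul, ← pow_mul]; congr 1; ring
      _ ≤ C1 * m0 := h1
      _ ≤ _ := mul_le_mul_of_nonneg_left h2 hC1.le
  -- one interval
  have hone : ∀ M N : ℕ, M ≤ Q → 1 ≤ N → N ≤ Q →
      ((univ.filter (fun ξ : Fin r → ZMod 3 => (N : ℝ) ^ (1 / 2 : ℝ) * (Q : ℝ) ^ ε < ‖∑ m ∈ Ioc M (M + N), ps (ex r m) ξ‖)).card : ℝ) ≤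
        (2 * C1 * 9 ^ (2 ^ j)) * (Q : ℝ) ^ (-(A + 2)) * 3 ^ r := by
    intro M N hM hN hNQ
    have hN1 : (1 : ℝ) ≤ N := by exact_mod_cast hN
    have hN0 : (0 : ℝ) < N := by linarith
    have hdeg : Dg3 d (fun ξ : Fin r → ZMod 3 => ∑ m ∈ Ioc M (M + N), ps (ex r m) ξ) := by
      apply Dg3_sum
      intro m hm
      rw [mem_Ioc] at hm
      exact Dg3_mono ((wt_ex r m).trans (hmax m (by rw [mem_Icc]; omega))) (Dg3_ps _)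
    have h4 : (∑ ξ : Fin r → ZMod 3, ‖∑ m ∈ Ioc M (M + N), ps (ex r m) ξ‖ ^ 2) / 3 ^ r ≤ 9 * (N : ℝ) :=
      second4 (r := r) (M := M) (N := N) (by omega)
    have h5 := hc r d _ hdeg
    have h6 : (∑ ξ : Fin r → ZMod 3, ‖∑ m ∈ Ioc M (M + N), ps (ex r m) ξ‖ ^ (2 ^ (j + 1))) / 3 ^ r ≤
        (C1 * (2 * Q)) * (9 * (N : ℝ)) ^ (2 ^ j) := by
      refine h5.trans ?_
      exact mul_le_mul h81 (pow_le_pow_left₀ (by positivity) h4 _) (by positivity) (by positivity)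
    have hlam : 0 < (N : ℝ) ^ (1 / 2 : ℝ) * (Q : ℝ) ^ ε := by positivity
    have h7 := markov3 (fun ξ : Fin r → ZMod 3 => ∑ m ∈ Ioc M (M + N), ps (ex r m) ξ) hlam (2 ^ (j + 1)) h6
    refine h7.trans ?_
    apply mul_le_mul_of_nonneg_right _ (by positivity)
    have e2 : ((N : ℝ) ^ (1 / 2 : ℝ) * (Q : ℝ) ^ ε) ^ (2 ^ (j + 1)) = (N : ℝ) ^ (2 ^ j) * ((Q : ℝ) ^ (2 * ε)) ^ (2 ^ j) := by
      rw [pow_succ 2 j, mul_comm (2 ^ j) 2, pow_mul, mul_pow, mul_pow]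
      congr 2
      · rw [← Real.rpow_natCast, ← Real.rpow_mul hN0.le]
        norm_num
      · rw [← Real.rpow_natCast, ← Real.rpow_mul hQ0.le]
        congr 1
        push_cast
        ring
    rw [e2, div_le_iff₀ (by positivity), mul_pow]
    have e3 : (Q : ℝ) ≤ (Q : ℝ) ^ (-(A + 2)) * ((Q : ℝ) ^ (2 * ε)) ^ (2 ^ j) := by
      rw [← Real.rpow_natCast, ← Real.rpow_mul hQ0.le, ← Real.rpow_add hQ0]
      calc (Q : ℝ) = (Q : ℝ) ^ (1 : ℝ) := (Real.rpow_one _).symm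
        _ ≤ _ := by
          apply Real.rpow_le_rpow_of_exponent_le hQ1
          push_cast
          nlinarith
    have e4 : 0 ≤ 2 * C1 * 9 ^ (2 ^ j) * (N : ℝ) ^ (2 ^ j) := by positivity
    calc C1 * (2 * Q) * (9 ^ (2 ^ j) * (N : ℝ) ^ (2 ^ j)) =
        (2 * C1 * 9 ^ (2 ^ j) * (N : ℝ) ^ (2 ^ j)) * Q := by ring
      _ ≤ (2 * C1 * 9 ^ (2 ^ j) * (N : ℝ) ^ (2 ^ j)) * ((Q : ℝ) ^ (-(A + 2)) * ((Q : ℝ) ^ (2 * ε)) ^ (2 ^ j)) :=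
          mul_le_mul_of_nonneg_left e3 e4
      _ = _ := by ring
  -- the union
  have hsub : (univ.filter (fun ξ : Fin r → ZMod 3 => ∃ M N : ℕ, M ≤ Q ∧ 1 ≤ N ∧ N ≤ Q ∧
      (N : ℝ) ^ (1 / 2 : ℝ) * (Q : ℝ) ^ ε < ‖∑ m ∈ Ioc M (M + N), ps (ex r m) ξ‖)) ⊆
      (range (Q + 1) ×ˢ Icc 1 Q).biUnion (fun q => univ.filter (fun ξ : Fin r → ZMod 3 =>
        (q.2 : ℝ) ^ (1 / 2 : ℝ) * (Q : ℝ) ^ ε < ‖∑ m ∈ Ioc q.1 (q.1 + q.2), ps (ex r m) ξ‖)) := by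
    intro ξ hξ
    rw [mem_filter] at hξ
    obtain ⟨_, M, N, h1, h2, h3, h4⟩ := hξ
    rw [mem_biUnion]
    refine ⟨(M, N), ?_, ?_⟩
    · rw [mem_product, mem_range, mem_Icc]
      exact ⟨by omega, h2, h3⟩
    · rw [mem_filter]
      exact ⟨mem_univ _, h4⟩
  have h1 := (card_le_card hsub).trans card_biUnion_le
  have h2 : ((univ.filter (fun ξ : Fin r → ZMod 3 => ∃ M N : ℕ, M ≤ Q ∧ 1 ≤ N ∧ N ≤ Q ∧
      (N : ℝ) ^ (1 / 2 : ℝ) * (Q : ℝ) ^ ε < ‖∑ m ∈ Ioc M (M + N), ps (ex r m) ξ‖)).card : ℝ) ≤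
      ∑ q ∈ range (Q + 1) ×ˢ Icc 1 Q, ((univ.filter (fun ξ : Fin r → ZMod 3 =>
        (q.2 : ℝ) ^ (1 / 2 : ℝ) * (Q : ℝ) ^ ε < ‖∑ m ∈ Ioc q.1 (q.1 + q.2), ps (ex r m) ξ‖)).card : ℝ) := by
    exact_mod_cast h1
  refine h2.trans ?_
  have h3 : ∀ q ∈ range (Q + 1) ×ˢ Icc 1 Q, ((univ.filter (fun ξ : Fin r → ZMod 3 =>
        (q.2 : ℝ) ^ (1 / 2 : ℝ) * (Q : ℝ) ^ ε < ‖∑ m ∈ Ioc q.1 (q.1 + q.2), ps (ex r m) ξ‖)).card : ℝ) ≤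
        (2 * C1 * 9 ^ (2 ^ j)) * (Q : ℝ) ^ (-(A + 2)) * 3 ^ r := by
    intro q hq
    rw [mem_product, mem_range, mem_Icc] at hq
    exact hone q.1 q.2 (by omega) hq.2.1 hq.2.2
  refine (sum_le_sum h3).trans ?_
  rw [sum_const, card_product, card_range, Nat.card_Icc, nsmul_eq_mul]
  have h4 : (((Q + 1) * (Q + 1 - 1) : ℕ) : ℝ) ≤ 2 * (Q : ℝ) ^ (2 : ℝ) := by
    rw [Nat.add_sub_cancel]
    push_cast
    have : (Q : ℝ) ^ (2 : ℝ) = Q ^ 2 := by norm_cast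
    rw [this]
    nlinarith
  calc (((Q + 1) * (Q + 1 - 1) : ℕ) : ℝ) * ((2 * C1 * 9 ^ (2 ^ j)) * (Q : ℝ) ^ (-(A + 2)) * 3 ^ r) ≤
      (2 * (Q : ℝ) ^ (2 : ℝ)) * ((2 * C1 * 9 ^ (2 ^ j)) * (Q : ℝ) ^ (-(A + 2)) * 3 ^ r) :=
        mul_le_mul_of_nonneg_right h4 (by positivity)
    _ = (4 * C1 * 9 ^ (2 ^ j)) * ((Q : ℝ) ^ (2 : ℝ) * (Q : ℝ) ^ (-(A + 2))) * 3 ^ r := by ring
    _ = _ := by
      rw [← Real.rpow_add hQ0]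
      congr 3
      ring

end Pool.Agent.R177.RF
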