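import Pool.Agent.R177.RF.Mom
/-!
# Sums over primes with a random multiplicative factor, all moduli
-/
open Finset MeasureTheory ProbabilityTheory Filter Topology

namespace Pool.Agent.R177.RF

variable {Ω : Type} [MeasurableSpace Ω] {μ : Measure Ω} [IsProbabilityMeasure μ] {X : ℕ → Ω → ℝ}

lemma log_pow_bd (m : ℕ) : ∃ C : ℝ, 0 < C ∧ ∀ N : ℕ, 1 ≤ N → (1 + Real.log N) ^ m ≤ C * (N : ℝ) ^ 2 := by
  set d : ℝ := 2 / (m + 1) with hd
  have hd0 : 0 < d := by positivity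
  refine ⟨(1 + 1 / d) ^ m, by positivity, fun N hN => ?_⟩
  have hN1 : (1 : ℝ) ≤ N := by exact_mod_cast hN
  have hlog0 : 0 ≤ Real.log N := Real.log_nonneg hN1
  have h1 : Real.log N ≤ (N : ℝ) ^ d / d := Real.log_le_rpow_div (by linarith) hd0
  have h2 : 1 ≤ (N : ℝ) ^ d := Real.one_le_rpow hN1 hd0.le
  have h3 : 1 + Real.log N ≤ (1 + 1 / d) * (N : ℝ) ^ d := by
    have : (1 + 1 / d) * (N : ℝ) ^ d = (N : ℝ) ^ d + (N : ℝ) ^ d / d := by ring
    rw [this]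
    linarith
  calc (1 + Real.log N) ^ m ≤ ((1 + 1 / d) * (N : ℝ) ^ d) ^ m := pow_le_pow_left₀ (by linarith) h3 m
    _ = (1 + 1 / d) ^ m * ((N : ℝ) ^ d) ^ m := mul_pow _ _ _
    _ ≤ (1 + 1 / d) ^ m * (N : ℝ) ^ 2 := by
        apply mul_le_mul_of_nonneg_left _ (by positivity)
        rw [← Real.rpow_natCast, ← Real.rpow_mul (by linarith), ← Real.rpow_natCast (N : ℝ) 2]
        apply Real.rpow_le_rpow_of_exponent_le hN1
        rw [hd, div_mul_eq_mul_div, div_le_iff₀ (by positivity)]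
        push_cast
        nlinarith

/-- the sums over multiples of `q` -/
noncomputable def TT (X : ℕ → Ω → ℝ) (w : ℕ → ℕ → ℝ) (N q : ℕ) (ω : Ω) : ℝ :=
  ∑ l ∈ Icc 1 ((N - 1) / q), w N (q * l) * rf X (q * l) ω

lemma TT_meas (hm : ∀ p, Measurable (X p)) (w : ℕ → ℕ → ℝ) (N q : ℕ) : Measurable (TT X w N q) := by
  unfold TT
  exact Finset.measurable_fun_sum _ fun l _ => (rf_meas hm _).const_mul _

lemma ratio_bd {C G x N e : ℝ} {k : ℕ} (hC : 0 ≤ C) (hG : 0 ≤ G) (hx : 0 < x) (hxN : x ≤ N) (hN : 1 ≤ N) (hk : 6 ≤ 2 * k * e) :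
    C * G * x ^ (k + 1) / ((x ^ (1 / 2 : ℝ) * N ^ e) ^ (2 * k)) ≤ C * G * N ^ (-5 : ℝ) := by
  have hN0 : 0 < N := by linarith
  have e1 : (x ^ (1 / 2 : ℝ) * N ^ e) ^ (2 * k) = x ^ k * N ^ (2 * k * e) := by
    rw [mul_pow, ← Real.rpow_natCast (x ^ (1 / 2 : ℝ)), ← Real.rpow_mul hx.le, ← Real.rpow_natCast (N ^ e), ← Real.rpow_mul hN0.le,
      ← Real.rpow_natCast x k]
    congr 1
    · congr 1
      push_cast
      ring
    · congr 1
      push_cast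
      ring
  rw [e1, div_le_iff₀ (by positivity)]
  have h1 : (N : ℝ) ≤ N ^ (-5 : ℝ) * N ^ (2 * k * e) := by
    rw [← Real.rpow_add hN0]
    calc N = N ^ (1 : ℝ) := (Real.rpow_one _).symm
      _ ≤ _ := Real.rpow_le_rpow_of_exponent_le hN (by linarith)
  calc C * G * x ^ (k + 1) = C * G * (x ^ k * x) := by rw [pow_succ]
    _ ≤ C * G * (x ^ k * (N ^ (-5 : ℝ) * N ^ (2 * k * e))) := by
        apply mul_le_mul_of_nonneg_left _ (mul_nonneg hC hG)
        exact mul_le_mul_of_nonneg_left (hxN.trans h1) (by positivity)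
    _ = _ := by ring

/-- almost surely square root cancellation for all large `N` and all moduli -/
theorem as_bound (hm : ∀ p, Measurable (X p)) (hs : ∀ p ω, X p ω = 1 ∨ X p ω = -1) (h0 : ∀ p, ∫ ω, X p ω ∂μ = 0)
    (hind : iIndepFun X μ) (w : ℕ → ℕ → ℝ) (hw : ∀ N m, 1 ≤ m → m < N → |w N m| ≤ (1 + Real.log N) ^ 2) {e : ℝ} (he : 0 < e) :
    ∀ᵐ ω ∂μ, ∀ᶠ N : ℕ in atTop, ∀ q : ℕ, 1 ≤ q → q < N → |TT X w N q ω| < ((N : ℝ) / q) ^ (1 / 2 : ℝ) * (N : ℝ) ^ e := by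
  classical
  obtain ⟨k, hk⟩ := exists_nat_ge (3 / e)
  have hk2 : 6 ≤ 2 * k * e := by
    rw [div_le_iff₀ he] at hk
    linarith
  obtain ⟨C, hC, hmom⟩ := moment (μ := μ) hm hs h0 hind k
  obtain ⟨C2, hC2, hlog⟩ := log_pow_bd (4 * k)
  set Bad : ℕ → Set Ω := fun N => ⋃ q ∈ Ico 1 N, {ω | ((N : ℝ) / q) ^ (1 / 2 : ℝ) * (N : ℝ) ^ e ≤ |TT X w N q ω|} with hBad
  have hsum : Summable (fun N : ℕ => (C * C2) * ((N : ℝ) ^ 2)⁻¹) :=
    (Real.summable_nat_pow_inv.2 (by norm_num)).mul_left _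
  have hb : ∀ᶠ N in atTop, μ.real (Bad N) ≤ (C * C2) * ((N : ℝ) ^ 2)⁻¹ := by
    filter_upwards [eventually_ge_atTop 1] with N hN
    have hN1 : (1 : ℝ) ≤ N := by exact_mod_cast hN
    have hN0 : (0 : ℝ) < N := by linarith
    have hlog0 : 0 ≤ Real.log N := Real.log_nonneg hN1
    have g1 : ∀ q ∈ Ico 1 N, μ.real {ω | ((N : ℝ) / q) ^ (1 / 2 : ℝ) * (N : ℝ) ^ e ≤ |TT X w N q ω|} ≤
        C * C2 * (N : ℝ) ^ (-3 : ℝ) := by
      intro q hq
      rw [mem_Ico] at hq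
      have hq1 : (1 : ℝ) ≤ q := by exact_mod_cast hq.1
      have hq0 : (0 : ℝ) < q := by linarith
      set L := (N - 1) / q with hL
      have hL1 : 1 ≤ L := by
        rw [hL, Nat.le_div_iff_mul_le (by omega)]
        omega
      have hLN : (L : ℝ) ≤ (N : ℝ) / q := by
        rw [le_div_iff₀ hq0]
        have : L * q ≤ N := (Nat.div_mul_le_self _ _).trans (by omega)
        exact_mod_cast this
      have ha : ∀ l ∈ Icc 1 L, |w N (q * l)| ≤ (1 + Real.log N) ^ 2 := by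
        intro l hl
        rw [mem_Icc] at hl
        apply hw
        · exact Nat.mul_pos (by omega) (by omega)
        · have : l * q ≤ N - 1 := (Nat.le_div_iff_mul_le (by omega)).1 hl.2
          rw [mul_comm]
          omega
      have h1 := hmom L q (fun l => w N (q * l)) ((1 + Real.log N) ^ 2) hL1 hq.1 (by positivity) ha
      have h2 : ∫ ω, (TT X w N q ω ^ k) ^ 2 ∂μ ≤ C * ((1 + Real.log N) ^ 2) ^ (2 * k) * (L : ℝ) ^ (k + 1) := by
        refine le_trans (le_of_eq ?_) h1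
        congr 1
        ext ω
        rw [← pow_mul, mul_comm k 2]
        rfl
      have hbd : ∀ ω, |TT X w N q ω ^ k| ≤ ((L : ℝ) * (1 + Real.log N) ^ 2) ^ k := by
        intro ω
        rw [abs_pow]
        apply pow_le_pow_left₀ (abs_nonneg _)
        unfold TT
        refine (abs_sum_le_sum_abs _ _).trans ?_
        calc ∑ l ∈ Icc 1 L, |w N (q * l) * rf X (q * l) ω| ≤ ∑ l ∈ Icc 1 L, (1 + Real.log N) ^ 2 := by
              refine sum_le_sum fun l hl => ?_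
              rw [abs_mul]
              calc |w N (q * l)| * |rf X (q * l) ω| ≤ (1 + Real.log N) ^ 2 * 1 :=
                    mul_le_mul (ha l hl) (rf_abs hs _ _) (abs_nonneg _) (by positivity)
                _ = _ := mul_one _
          _ = _ := by rw [sum_const, Nat.card_Icc, nsmul_eq_mul, Nat.add_sub_cancel]
      set lam := ((N : ℝ) / q) ^ (1 / 2 : ℝ) * (N : ℝ) ^ e with hlam
      have hxq : 0 < (N : ℝ) / q := by positivity
      have hlam0 : 0 < lam := by positivity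
      have h3 := cheb (μ := μ) ((TT_meas hm w N q).pow_const k) hbd (pow_pos hlam0 k) h2
      have h4 : {ω | lam ≤ |TT X w N q ω|} ⊆ {ω | lam ^ k ≤ |TT X w N q ω ^ k|} := by
        intro ω hω
        have hω' : lam ≤ |TT X w N q ω| := hω
        show lam ^ k ≤ |TT X w N q ω ^ k|
        rw [abs_pow]
        exact pow_le_pow_left₀ hlam0.le hω' k
      have h5 : (L : ℝ) ^ (k + 1) ≤ ((N : ℝ) / q) ^ (k + 1) := pow_le_pow_left₀ (Nat.cast_nonneg _) hLN _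
      have h6 := ratio_bd (C := C) (G := ((1 + Real.log N) ^ 2) ^ (2 * k)) (x := (N : ℝ) / q) (N := N) (e := e) (k := k) hC.le
        (by positivity) hxq (div_le_self hN0.le hq1) hN1 hk2
      have h7 : ((1 + Real.log N) ^ 2) ^ (2 * k) ≤ C2 * (N : ℝ) ^ 2 := by
        refine le_trans (le_of_eq ?_) (hlog N hN)
        rw [← pow_mul]
        congr 1
        ring
      calc μ.real {ω | lam ≤ |TT X w N q ω|} ≤ μ.real {ω | lam ^ k ≤ |TT X w N q ω ^ k|} := measureReal_mono h4 (measure_ne_top _ _)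
        _ ≤ C * ((1 + Real.log N) ^ 2) ^ (2 * k) * (L : ℝ) ^ (k + 1) / (lam ^ k) ^ 2 := h3
        _ ≤ C * ((1 + Real.log N) ^ 2) ^ (2 * k) * ((N : ℝ) / q) ^ (k + 1) / lam ^ (2 * k) := by
            have e9 : lam ^ (2 * k) = (lam ^ k) ^ 2 := by rw [← pow_mul, mul_comm]
            rw [e9]
            apply div_le_div_of_nonneg_right _ (by positivity)
            exact mul_le_mul_of_nonneg_left h5 (by positivity)
        _ ≤ C * ((1 + Real.log N) ^ 2) ^ (2 * k) * (N : ℝ) ^ (-5 : ℝ) := h6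
        _ ≤ C * (C2 * (N : ℝ) ^ 2) * (N : ℝ) ^ (-5 : ℝ) := by
            apply mul_le_mul_of_nonneg_right _ (by positivity)
            exact mul_le_mul_of_nonneg_left h7 hC.le
        _ = C * C2 * ((N : ℝ) ^ (2 : ℝ) * (N : ℝ) ^ (-5 : ℝ)) := by
            rw [← Real.rpow_natCast (N : ℝ) 2]
            push_cast
            ring
        _ = C * C2 * (N : ℝ) ^ (-3 : ℝ) := by
            rw [← Real.rpow_add hN0]
            norm_num
    have g2 : μ.real (Bad N) ≤ ∑ q ∈ Ico 1 N, C * C2 * (N : ℝ) ^ (-3 : ℝ) :=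
      (measureReal_biUnion_finset_le _ _).trans (sum_le_sum fun q hq => g1 q hq)
    refine g2.trans ?_
    rw [sum_const, Nat.card_Ico, nsmul_eq_mul]
    have h8 : ((N - 1 : ℕ) : ℝ) ≤ N := by exact_mod_cast Nat.sub_le N 1
    calc ((N - 1 : ℕ) : ℝ) * (C * C2 * (N : ℝ) ^ (-3 : ℝ)) ≤ N * (C * C2 * (N : ℝ) ^ (-3 : ℝ)) :=
          mul_le_mul_of_nonneg_right h8 (by positivity)
      _ = C * C2 * ((N : ℝ) ^ (1 : ℝ) * (N : ℝ) ^ (-3 : ℝ)) := by rw [Real.rpow_one]; ring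
      _ = C * C2 * ((N : ℝ) ^ 2)⁻¹ := by
          rw [← Real.rpow_add hN0, ← Real.rpow_natCast (N : ℝ) 2, ← Real.rpow_neg hN0.le]
          norm_num
  filter_upwards [Pool.Agent.R528.RM.bc_real (μ := μ) hsum hb] with ω hω
  filter_upwards [hω] with N hN q hq1 hqN
  by_contra hcon
  push Not at hcon
  apply hN
  simp only [hBad, Set.mem_iUnion]
  exact ⟨q, mem_Ico.2 ⟨hq1, hqN⟩, hcon⟩

/-- `∑ Λ(n) g(N - n)` over `1 ≤ n < N`, `n ≡ N` modulo `q` -/
noncomputable def tw (g : ℕ → ℝ) (N q : ℕ) : ℝ :=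
  ∑ n ∈ (range N).filter (fun n => 1 ≤ n ∧ n ≡ N [MOD q]), ArithmeticFunction.vonMangoldt n * g (N - n)

lemma tw_eq (g : ℕ → ℝ) {N q : ℕ} (hN : 1 ≤ N) (hq : 1 ≤ q) :
    tw g N q = ∑ l ∈ Icc 1 ((N - 1) / q), ArithmeticFunction.vonMangoldt (N - q * l) * g (q * l) := by
  unfold tw
  refine sum_nbij' (i := fun n => (N - n) / q) (j := fun l => N - q * l) ?_ ?_ ?_ ?_ ?_
  · intro n hn
    rw [mem_filter, mem_range] at hn
    obtain ⟨h1, h2, h3⟩ := hn
    have h4 : q ∣ N - n := (Nat.modEq_iff_dvd' h1.le).1 h3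
    rw [mem_Icc]
    refine ⟨?_, Nat.div_le_div_right (by omega)⟩
    exact (Nat.le_div_iff_mul_le (by omega)).2 (by rw [one_mul]; exact Nat.le_of_dvd (by omega) h4)
  · intro l hl
    rw [mem_Icc] at hl
    have h1 : l * q ≤ N - 1 := (Nat.le_div_iff_mul_le (by omega)).1 hl.2
    have h2 : 1 ≤ q * l := Nat.mul_pos (by omega) (by omega)
    have h3 : q * l ≤ N - 1 := by rw [mul_comm]; exact h1
    rw [mem_filter, mem_range]
    refine ⟨by omega, by omega, ?_⟩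
    apply (Nat.modEq_iff_dvd' (by omega)).2
    rw [show N - (N - q * l) = q * l by omega]
    exact dvd_mul_right _ _
  · intro n hn
    rw [mem_filter, mem_range] at hn
    obtain ⟨h1, h2, h3⟩ := hn
    have h4 : q ∣ N - n := (Nat.modEq_iff_dvd' h1.le).1 h3
    show N - q * ((N - n) / q) = n
    rw [Nat.mul_div_cancel' h4]
    omega
  · intro l hl
    rw [mem_Icc] at hl
    have h1 : l * q ≤ N - 1 := (Nat.le_div_iff_mul_le (by omega)).1 hl.2
    have h3 : q * l ≤ N - 1 := by rw [mul_comm]; exact h1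
    show (N - (N - q * l)) / q = l
    rw [show N - (N - q * l) = q * l by omega]
    exact Nat.mul_div_cancel_left _ (by omega)
  · intro n hn
    rw [mem_filter, mem_range] at hn
    obtain ⟨h1, h2, h3⟩ := hn
    have h4 : q ∣ N - n := (Nat.modEq_iff_dvd' h1.le).1 h3
    show _ = ArithmeticFunction.vonMangoldt (N - q * ((N - n) / q)) * g (q * ((N - n) / q))
    rw [Nat.mul_div_cancel' h4, show N - (N - n) = n by omega]

lemma tot_bd (q : ℕ) : (q : ℝ) ≤ q.divisors.card * Nat.totient q := by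
  rcases Nat.eq_zero_or_pos q with h | h
  · subst h; simp
  · have h1 : q = ∑ d ∈ q.divisors, Nat.totient d := (Nat.sum_totient q).symm
    have h2 : ∑ d ∈ q.divisors, Nat.totient d ≤ ∑ _d ∈ q.divisors, Nat.totient q :=
      sum_le_sum fun d hd => Nat.le_of_dvd (Nat.totient_pos.2 h) (Nat.totient_dvd_of_dvd (Nat.dvd_of_mem_divisors hd))
    rw [sum_const, smul_eq_mul] at h2
    rw [← h1] at h2
    exact_mod_cast h2

lemma sum_inv_sqrt (Q : ℕ) : ∑ q ∈ Icc 1 Q, (1 : ℝ) / √q ≤ 2 * √Q := by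
  induction Q with
  | zero => simp
  | succ Q ih =>
    rw [sum_Icc_succ_top (by omega)]
    have h1 : 0 < √((Q + 1 : ℕ) : ℝ) := Real.sqrt_pos.2 (by positivity)
    have h2 : 0 ≤ √(Q : ℝ) := Real.sqrt_nonneg _
    have h3 : √((Q + 1 : ℕ) : ℝ) ^ 2 = Q + 1 := by rw [Real.sq_sqrt (by positivity)]; push_cast; ring
    have h4 : √(Q : ℝ) ^ 2 = Q := Real.sq_sqrt (Nat.cast_nonneg _)
    have h5 : 1 / √((Q + 1 : ℕ) : ℝ) ≤ 2 * (√((Q + 1 : ℕ) : ℝ) - √(Q : ℝ)) := by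
      rw [div_le_iff₀ h1]
      nlinarith [sq_nonneg (√((Q + 1 : ℕ) : ℝ) - √(Q : ℝ))]
    linarith

/-- the quantity `D_g(N; θ)` of the problem -/
noncomputable def Dg (g : ℕ → ℝ) (N : ℕ) (θ : ℝ) : ℝ :=
  ∑ q ∈ (Icc 1 ⌊(N : ℝ) ^ θ⌋₊).filter (fun q => q.Coprime N),
    |tw g N q - 1 / (Nat.totient q : ℝ) * ∑ n ∈ (range N).filter (fun n => 1 ≤ n), ArithmeticFunction.vonMangoldt n * g (N - n)|

lemma Dg_bd {g : ℕ → ℝ} {N : ℕ} {e C : ℝ} (hN : 1 ≤ N) (hC0 : 0 < C) (hC : ∀ n : ℕ, 1 ≤ n → (n.divisors.card : ℝ) ≤ C * (n : ℝ) ^ (1 / 2 : ℝ))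
    (h : ∀ q : ℕ, 1 ≤ q → |tw g N q| ≤ ((N : ℝ) / q) ^ (1 / 2 : ℝ) * (N : ℝ) ^ e) (θ : ℝ) :
    Dg g N θ ≤ 2 * (1 + C) * (N : ℝ) ^ ((1 + θ) / 2 + e) := by
  have hN1 : (1 : ℝ) ≤ N := by exact_mod_cast hN
  have hN0 : (0 : ℝ) < N := by linarith
  have hS : ∑ n ∈ (range N).filter (fun n => 1 ≤ n), ArithmeticFunction.vonMangoldt n * g (N - n) = tw g N 1 := by
    unfold tw
    congr 1
    ext n
    rw [mem_filter, mem_filter]
    have : n ≡ N [MOD 1] := Nat.modEq_one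
    tauto
  unfold Dg
  rw [hS]
  have hterm : ∀ q ∈ Icc 1 ⌊(N : ℝ) ^ θ⌋₊, |tw g N q - 1 / (Nat.totient q : ℝ) * tw g N 1| ≤
      ((1 + C) * (N : ℝ) ^ (1 / 2 + e)) * (1 / √(q : ℝ)) := by
    intro q hq
    rw [mem_Icc] at hq
    have hq1 : (1 : ℝ) ≤ q := by exact_mod_cast hq.1
    have hq0 : (0 : ℝ) < q := by linarith
    have hphi : (0 : ℝ) < Nat.totient q := by exact_mod_cast Nat.totient_pos.2 hq.1
    have hsq : 0 < √(q : ℝ) := Real.sqrt_pos.2 hq0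
    have hss : √(q : ℝ) * √(q : ℝ) = q := Real.mul_self_sqrt hq0.le
    have h1 : |tw g N q| ≤ (N : ℝ) ^ (1 / 2 + e) * (1 / √(q : ℝ)) := by
      refine (h q hq.1).trans (le_of_eq ?_)
      rw [Real.div_rpow hN0.le hq0.le, ← Real.sqrt_eq_rpow (q : ℝ), Real.rpow_add hN0]
      ring
    have h2 : |tw g N 1| ≤ (N : ℝ) ^ (1 / 2 + e) := by
      have := h 1 le_rfl
      rw [Nat.cast_one, div_one, ← Real.rpow_add hN0] at this
      exact this
    have h3 : 1 / (Nat.totient q : ℝ) ≤ C * (1 / √(q : ℝ)) := by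
      rw [div_le_iff₀ hphi]
      have h4 := tot_bd q
      have h5 := hC q hq.1
      rw [← Real.sqrt_eq_rpow] at h5
      have h6 : (q : ℝ) ≤ C * √(q : ℝ) * Nat.totient q := h4.trans (mul_le_mul_of_nonneg_right h5 hphi.le)
      have h7 : √(q : ℝ) * √(q : ℝ) ≤ √(q : ℝ) * (C * Nat.totient q) := by
        rw [hss]
        linarith
      have h8 : √(q : ℝ) ≤ C * Nat.totient q := le_of_mul_le_mul_left h7 hsq
      calc (1 : ℝ) = √(q : ℝ) * (1 / √(q : ℝ)) := by field_simp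
        _ ≤ (C * Nat.totient q) * (1 / √(q : ℝ)) := mul_le_mul_of_nonneg_right h8 (by positivity)
        _ = _ := by ring
    calc |tw g N q - 1 / (Nat.totient q : ℝ) * tw g N 1| ≤ |tw g N q| + |1 / (Nat.totient q : ℝ) * tw g N 1| := abs_sub _ _
      _ = |tw g N q| + 1 / (Nat.totient q : ℝ) * |tw g N 1| := by rw [abs_mul, abs_of_pos (by positivity : (0:ℝ) < 1 / (Nat.totient q : ℝ))]
      _ ≤ (N : ℝ) ^ (1 / 2 + e) * (1 / √(q : ℝ)) + (C * (1 / √(q : ℝ))) * (N : ℝ) ^ (1 / 2 + e) :=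
          add_le_add h1 (mul_le_mul h3 h2 (abs_nonneg _) (by positivity))
      _ = _ := by ring
  have hsum : ∑ q ∈ (Icc 1 ⌊(N : ℝ) ^ θ⌋₊).filter (fun q => q.Coprime N), |tw g N q - 1 / (Nat.totient q : ℝ) * tw g N 1| ≤
      ∑ q ∈ Icc 1 ⌊(N : ℝ) ^ θ⌋₊, ((1 + C) * (N : ℝ) ^ (1 / 2 + e)) * (1 / √(q : ℝ)) :=
    (sum_le_sum_of_subset_of_nonneg (filter_subset _ _) fun _ _ _ => abs_nonneg _).trans (sum_le_sum hterm)
  refine hsum.trans ?_
  rw [← mul_sum]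
  have h9 := sum_inv_sqrt ⌊(N : ℝ) ^ θ⌋₊
  have h10 : √((⌊(N : ℝ) ^ θ⌋₊ : ℕ) : ℝ) ≤ (N : ℝ) ^ (θ / 2) := by
    calc √((⌊(N : ℝ) ^ θ⌋₊ : ℕ) : ℝ) ≤ √((N : ℝ) ^ θ) := Real.sqrt_le_sqrt (Nat.floor_le (by positivity))
      _ = (N : ℝ) ^ (θ / 2) := by
        rw [Real.sqrt_eq_rpow, ← Real.rpow_mul hN0.le]
        congr 1
        ring
  calc ((1 + C) * (N : ℝ) ^ (1 / 2 + e)) * ∑ q ∈ Icc 1 ⌊(N : ℝ) ^ θ⌋₊, (1 / √(q : ℝ)) ≤
      ((1 + C) * (N : ℝ) ^ (1 / 2 + e)) * (2 * (N : ℝ) ^ (θ / 2)) :=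
        mul_le_mul_of_nonneg_left (by linarith) (by positivity)
    _ = 2 * (1 + C) * ((N : ℝ) ^ (1 / 2 + e) * (N : ℝ) ^ (θ / 2)) := by ring
    _ = _ := by
      rw [← Real.rpow_add hN0]
      congr 2
      ring

/-- the statement with all uniformities -/
theorem deh (hm : ∀ p, Measurable (X p)) (hs : ∀ p ω, X p ω = 1 ∨ X p ω = -1) (h0 : ∀ p, ∫ ω, X p ω ∂μ = 0)
    (hind : iIndepFun X μ) (w : ℕ → ℝ) (hw : ∀ m : ℕ, 1 ≤ m → |w m| ≤ 1 + Real.log m) :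
    ∀ᵐ ω ∂μ, ∀ ε : ℝ, 0 < ε → ∀ᶠ N : ℕ in atTop,
      (∀ q : ℕ, 1 ≤ q → |tw (fun m => rf X m ω * w m) N q| ≤ ((N : ℝ) / q) ^ (1 / 2 : ℝ) * (N : ℝ) ^ ε) ∧
      ∀ θ : ℝ, Dg (fun m => rf X m ω * w m) N θ ≤ (N : ℝ) ^ ((1 + θ) / 2 + ε) := by
  have hall : ∀ᵐ ω ∂μ, ∀ m : ℕ, ∀ᶠ N : ℕ in atTop, ∀ q : ℕ, 1 ≤ q → q < N →
      |TT X (fun N m => ArithmeticFunction.vonMangoldt (N - m) * w m) N q ω| < ((N : ℝ) / q) ^ (1 / 2 : ℝ) * (N : ℝ) ^ (1 / ((m : ℝ) + 1)) := by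
    rw [ae_all_iff]
    intro m
    refine as_bound hm hs h0 hind _ ?_ (by positivity)
    intro N m hm1 hmN
    have hN1 : (1 : ℝ) ≤ N := by exact_mod_cast (by omega : 1 ≤ N)
    have hlog0 : 0 ≤ Real.log N := Real.log_nonneg hN1
    have hL0 : 0 ≤ ArithmeticFunction.vonMangoldt (N - m) := ArithmeticFunction.vonMangoldt_nonneg
    have hL1 : ArithmeticFunction.vonMangoldt (N - m) ≤ Real.log N := by
      refine ArithmeticFunction.vonMangoldt_le_log.trans ?_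
      apply Real.log_le_log
      · have : 1 ≤ N - m := by omega
        exact_mod_cast this
      · exact_mod_cast Nat.sub_le N m
    have hw1 : |w m| ≤ 1 + Real.log N := by
      refine (hw m hm1).trans ?_
      have : Real.log m ≤ Real.log N := Real.log_le_log (by exact_mod_cast hm1) (by exact_mod_cast hmN.le)
      linarith
    rw [abs_mul, abs_of_nonneg hL0, sq]
    exact mul_le_mul (by linarith) hw1 (abs_nonneg _) (by linarith)
  obtain ⟨C, hC0, hC⟩ := Pool.Agent.Helper112.divisor_bound (1 / 2) (by norm_num)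
  filter_upwards [hall] with ω hω ε hε
  obtain ⟨m, hm1⟩ := exists_nat_gt (2 / ε)
  have hm0 : (0 : ℝ) ≤ m := Nat.cast_nonneg _
  have he : 1 / ((m : ℝ) + 1) ≤ ε / 2 := by
    rw [div_lt_iff₀ hε] at hm1
    rw [div_le_div_iff₀ (by positivity) (by norm_num)]
    nlinarith
  have hgrow : ∀ᶠ N : ℕ in atTop, 2 * (1 + C) ≤ (N : ℝ) ^ (ε / 2) :=
    ((tendsto_rpow_atTop (show 0 < ε / 2 by positivity)).comp tendsto_natCast_atTop_atTop).eventually_ge_atTop _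
  filter_upwards [hω m, hgrow, eventually_ge_atTop 1] with N k1 k2 k3
  have hN1 : (1 : ℝ) ≤ N := by exact_mod_cast k3
  have hN0 : (0 : ℝ) < N := by linarith
  have hbase : ∀ q : ℕ, 1 ≤ q → |tw (fun m => rf X m ω * w m) N q| ≤ ((N : ℝ) / q) ^ (1 / 2 : ℝ) * (N : ℝ) ^ (ε / 2) := by
    intro q hq
    have h1 : tw (fun m => rf X m ω * w m) N q = TT X (fun N m => ArithmeticFunction.vonMangoldt (N - m) * w m) N q ω := by
      rw [tw_eq _ k3 hq]
      unfold TT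
      refine sum_congr rfl fun l _ => ?_
      ring
    rw [h1]
    rcases lt_or_ge q N with h | h
    · refine (k1 q hq h).le.trans ?_
      exact mul_le_mul_of_nonneg_left (Real.rpow_le_rpow_of_exponent_le hN1 he) (by positivity)
    · have h2 : (N - 1) / q = 0 := Nat.div_eq_of_lt (by omega)
      unfold TT
      rw [h2]
      simp only [show Icc 1 0 = (∅ : Finset ℕ) from rfl, sum_empty, abs_zero]
      positivity
  constructor
  · intro q hq
    refine (hbase q hq).trans ?_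
    exact mul_le_mul_of_nonneg_left (Real.rpow_le_rpow_of_exponent_le hN1 (by linarith)) (by positivity)
  · intro θ
    refine (Dg_bd k3 hC0 hC hbase θ).trans ?_
    calc 2 * (1 + C) * (N : ℝ) ^ ((1 + θ) / 2 + ε / 2) ≤ (N : ℝ) ^ (ε / 2) * (N : ℝ) ^ ((1 + θ) / 2 + ε / 2) :=
          mul_le_mul_of_nonneg_right k2 (by positivity)
      _ = _ := by
        rw [← Real.rpow_add hN0]
        congr 1
        ring

end Pool.Agent.R177.RF
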