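import Mathlib
import Pool.Agent.R177.RF.Cnt

set_option autoImplicit false
set_option linter.unusedSectionVars false

/-! # Random multiplicative functions: second moment of the off-diagonal part -/

open Finset MeasureTheory ProbabilityTheory
open scoped symmDiff

namespace Pool.Agent.R177.RF

variable {Ω : Type} {m0 : MeasurableSpace Ω} {μ : Measure Ω} [IsProbabilityMeasure μ] {X : ℕ → Ω → ℝ}

open Classical in
/-- the random multiplicative function with the signs `X p`, supported on squarefree integers -/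
noncomputable def rf (X : ℕ → Ω → ℝ) (n : ℕ) (ω : Ω) : ℝ := if Squarefree n then ∏ p ∈ n.primeFactors, X p ω else 0

lemma prod_symm {M : Type} [CommMonoid M] (S T : Finset ℕ) (f : ℕ → M) :
    (∏ p ∈ S, f p) * (∏ p ∈ T, f p) = (∏ p ∈ S ∩ T, f p) ^ 2 * ∏ p ∈ S ∆ T, f p := by
  have h1 := prod_union_inter (s₁ := S) (s₂ := T) (f := f)
  have h2 : S ∆ T = (S ∪ T) \ (S ∩ T) := symmDiff_eq_sup_sdiff_inf S T
  have h3 := prod_sdiff (s₁ := S ∩ T) (s₂ := S ∪ T) (f := f) (inter_subset_union)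
  rw [← h1, ← h3, h2, sq]
  calc (∏ x ∈ (S ∪ T) \ (S ∩ T), f x) * (∏ x ∈ S ∩ T, f x) * ∏ x ∈ S ∩ T, f x =
      (∏ x ∈ (S ∪ T) \ (S ∩ T), f x) * ((∏ x ∈ S ∩ T, f x) * ∏ x ∈ S ∩ T, f x) := mul_assoc _ _ _
    _ = _ := mul_comm _ _

lemma prod_sign (hs : ∀ p ω, X p ω = 1 ∨ X p ω = -1) (S : Finset ℕ) (ω : Ω) :
    ∏ p ∈ S, X p ω = 1 ∨ ∏ p ∈ S, X p ω = -1 := by
  classical
  induction S using Finset.induction_on with
  | empty => left; simp
  | insert a S ha ih =>
    rw [prod_insert ha]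
    rcases hs a ω with h | h <;> rcases ih with h' | h' <;> rw [h, h'] <;> norm_num

lemma prod_sq (hs : ∀ p ω, X p ω = 1 ∨ X p ω = -1) (S : Finset ℕ) (ω : Ω) : (∏ p ∈ S, X p ω) ^ 2 = 1 := by
  rcases prod_sign hs S ω with h | h <;> rw [h] <;> norm_num

lemma rf_abs (hs : ∀ p ω, X p ω = 1 ∨ X p ω = -1) (n : ℕ) (ω : Ω) : |rf X n ω| ≤ 1 := by
  unfold rf
  split_ifs
  · rcases prod_sign hs n.primeFactors ω with h | h <;> rw [h] <;> simp
  · simp

lemma rf_sq (hs : ∀ p ω, X p ω = 1 ∨ X p ω = -1) (n : ℕ) (ω : Ω) [Decidable (Squarefree n)] :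
    rf X n ω ^ 2 = if Squarefree n then 1 else 0 := by
  unfold rf
  by_cases h : Squarefree n
  · rw [if_pos h, if_pos h]
    exact prod_sq hs _ _
  · rw [if_neg h, if_neg h]
    norm_num

lemma rf_meas (hm : ∀ p, Measurable (X p)) (n : ℕ) : Measurable (rf X n) := by
  unfold rf
  by_cases h : Squarefree n
  · simp only [if_pos h]
    exact Finset.measurable_prod _ fun p _ => hm p
  · simp only [if_neg h]
    exact measurable_const

/-- expectation of products of signs -/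
lemma exp_prod (hm : ∀ p, Measurable (X p)) (h0 : ∀ p, ∫ ω, X p ω ∂μ = 0) (hind : iIndepFun X μ) {S : Finset ℕ} (hS : S.Nonempty) :
    ∫ ω, ∏ p ∈ S, X p ω ∂μ = 0 := by
  have h1 : iIndepFun (fun i : S => X i) μ := hind.precomp Subtype.val_injective
  have h2 := h1.integral_fun_prod_eq_prod_integral (fun i => (hm i).aestronglyMeasurable)
  have h3 : ∀ ω, ∏ i : S, X i ω = ∏ p ∈ S, X p ω := fun ω => Finset.prod_coe_sort S (fun p => X p ω)
  simp_rw [h3] at h2
  rw [h2]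
  obtain ⟨p, hp⟩ := hS
  exact Finset.prod_eq_zero (Finset.mem_univ (⟨p, hp⟩ : S)) (h0 p)

/-- four values are uncorrelated unless their product is a square -/
lemma exp_four (hm : ∀ p, Measurable (X p)) (hs : ∀ p ω, X p ω = 1 ∨ X p ω = -1) (h0 : ∀ p, ∫ ω, X p ω ∂μ = 0)
    (hind : iIndepFun X μ) {a b c d : ℕ} (h : ¬ IsSquare (a * b * (c * d))) :
    ∫ ω, rf X a ω * rf X b ω * (rf X c ω * rf X d ω) ∂μ = 0 := by
  classical
  by_cases ha : Squarefree a
  swap
  · have : ∀ ω, rf X a ω = 0 := fun ω => by unfold rf; rw [if_neg ha]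
    simp [this]
  by_cases hb : Squarefree b
  swap
  · have : ∀ ω, rf X b ω = 0 := fun ω => by unfold rf; rw [if_neg hb]
    simp [this]
  by_cases hc : Squarefree c
  swap
  · have : ∀ ω, rf X c ω = 0 := fun ω => by unfold rf; rw [if_neg hc]
    simp [this]
  by_cases hd : Squarefree d
  swap
  · have : ∀ ω, rf X d ω = 0 := fun ω => by unfold rf; rw [if_neg hd]
    simp [this]
  set S := (a.primeFactors ∆ b.primeFactors) ∆ (c.primeFactors ∆ d.primeFactors) with hS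
  have h1 : ∀ ω, rf X a ω * rf X b ω * (rf X c ω * rf X d ω) = ∏ p ∈ S, X p ω := by
    intro ω
    unfold rf
    rw [if_pos ha, if_pos hb, if_pos hc, if_pos hd, prod_symm a.primeFactors, prod_symm c.primeFactors, prod_sq hs, prod_sq hs,
      one_mul, one_mul, prod_symm, prod_sq hs, one_mul]
  simp_rw [h1]
  apply exp_prod hm h0 hind
  rw [nonempty_iff_ne_empty]
  intro hempty
  apply h
  have h2 : a.primeFactors ∆ b.primeFactors = c.primeFactors ∆ d.primeFactors := by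
    rw [hS] at hempty
    exact symmDiff_eq_bot.1 hempty
  have e1 : a * b = (∏ p ∈ a.primeFactors ∩ b.primeFactors, p) ^ 2 * ∏ p ∈ a.primeFactors ∆ b.primeFactors, p := by
    rw [← prod_symm, Nat.prod_primeFactors_of_squarefree ha, Nat.prod_primeFactors_of_squarefree hb]
  have e2 : c * d = (∏ p ∈ c.primeFactors ∩ d.primeFactors, p) ^ 2 * ∏ p ∈ c.primeFactors ∆ d.primeFactors, p := by
    rw [← prod_symm, Nat.prod_primeFactors_of_squarefree hc, Nat.prod_primeFactors_of_squarefree hd]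
  rw [e1, e2, h2]
  refine ⟨(∏ p ∈ a.primeFactors ∩ b.primeFactors, p) * (∏ p ∈ c.primeFactors ∩ d.primeFactors, p) *
    ∏ p ∈ c.primeFactors ∆ d.primeFactors, p, ?_⟩
  ring

/-- the off-diagonal part with weights -/
noncomputable def DD (X : ℕ → Ω → ℝ) (N H : ℕ) (w : ℕ × ℕ → ℝ) (ω : Ω) : ℝ :=
  ∑ p ∈ PP N H, w p * (rf X p.1 ω * rf X p.2 ω)

lemma DD_meas (hm : ∀ p, Measurable (X p)) (N H : ℕ) (w : ℕ × ℕ → ℝ) : Measurable (DD X N H w) := by
  unfold DD
  exact Finset.measurable_sum _ fun p _ => ((rf_meas hm p.1).mul (rf_meas hm p.2)).const_mul _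

/-- the second moment -/
theorem second (hm : ∀ p, Measurable (X p)) (hs : ∀ p ω, X p ω = 1 ∨ X p ω = -1) (h0 : ∀ p, ∫ ω, X p ω ∂μ = 0)
    (hind : iIndepFun X μ) (N H : ℕ) (w : ℕ × ℕ → ℝ) {B : ℝ} (hB : ∀ p, |w p| ≤ B) :
    ∫ ω, DD X N H w ω ^ 2 ∂μ ≤ B ^ 2 * ∑ p ∈ PP N H, (((PP N H).filter (fun q => IsSquare (p.1 * p.2 * (q.1 * q.2)))).card : ℝ) := by
  classical
  have hB0 : 0 ≤ B := (abs_nonneg _).trans (hB (0, 0))
  have hint : ∀ p q : ℕ × ℕ, Integrable (fun ω => (w p * w q) * (rf X p.1 ω * rf X p.2 ω * (rf X q.1 ω * rf X q.2 ω))) μ := by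
    intro p q
    refine Integrable.const_mul ?_ _
    refine Integrable.of_bound (C := 1) (((rf_meas hm p.1).mul (rf_meas hm p.2)).mul ((rf_meas hm q.1).mul (rf_meas hm q.2))).aestronglyMeasurable ?_
    filter_upwards with ω
    rw [Real.norm_eq_abs, abs_mul, abs_mul, abs_mul]
    have a1 := rf_abs hs p.1 ω
    have a2 := rf_abs hs p.2 ω
    have a3 := rf_abs hs q.1 ω
    have a4 := rf_abs hs q.2 ω
    exact mul_le_one₀ (mul_le_one₀ a1 (abs_nonneg _) a2) (by positivity) (mul_le_one₀ a3 (abs_nonneg _) a4)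
  have h1 : ∀ ω, DD X N H w ω ^ 2 = ∑ p ∈ PP N H, ∑ q ∈ PP N H,
      (w p * w q) * (rf X p.1 ω * rf X p.2 ω * (rf X q.1 ω * rf X q.2 ω)) := by
    intro ω
    unfold DD
    rw [sq, sum_mul_sum]
    refine sum_congr rfl fun p _ => sum_congr rfl fun q _ => ?_
    ring
  simp_rw [h1]
  rw [integral_finsetSum _ fun p _ => integrable_finsetSum _ fun q _ => hint p q]
  rw [mul_sum]
  refine sum_le_sum fun p _ => ?_
  rw [integral_finsetSum _ fun q _ => hint p q]
  have h2 : ∀ q ∈ PP N H, ∫ ω, (w p * w q) * (rf X p.1 ω * rf X p.2 ω * (rf X q.1 ω * rf X q.2 ω)) ∂μ ≤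
      if IsSquare (p.1 * p.2 * (q.1 * q.2)) then B ^ 2 else 0 := by
    intro q _
    split_ifs with hsq
    · refine (integral_mono (hint p q) (integrable_const (B ^ 2)) fun ω => ?_).trans (by simp)
      refine (le_abs_self _).trans ?_
      rw [abs_mul, abs_mul, abs_mul, abs_mul, abs_mul]
      have a1 := rf_abs hs p.1 ω
      have a2 := rf_abs hs p.2 ω
      have a3 := rf_abs hs q.1 ω
      have a4 := rf_abs hs q.2 ω
      have b1 : |w p| * |w q| ≤ B ^ 2 := by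
        rw [sq]
        exact mul_le_mul (hB p) (hB q) (abs_nonneg _) hB0
      have b2 : |rf X p.1 ω| * |rf X p.2 ω| * (|rf X q.1 ω| * |rf X q.2 ω|) ≤ 1 :=
        mul_le_one₀ (mul_le_one₀ a1 (abs_nonneg _) a2) (by positivity) (mul_le_one₀ a3 (abs_nonneg _) a4)
      calc |w p| * |w q| * (|rf X p.1 ω| * |rf X p.2 ω| * (|rf X q.1 ω| * |rf X q.2 ω|)) ≤ B ^ 2 * 1 :=
            mul_le_mul b1 b2 (by positivity) (by positivity)
        _ = B ^ 2 := mul_one _
    · rw [integral_const_mul, exp_four hm hs h0 hind hsq, mul_zero]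
  refine (sum_le_sum h2).trans (le_of_eq ?_)
  rw [← sum_filter, sum_const, nsmul_eq_mul, mul_comm]

/-- Chebyshev's inequality -/
lemma cheb {f : Ω → ℝ} (hf : Measurable f) {B : ℝ} (hb : ∀ ω, |f ω| ≤ B) {M lam : ℝ} (hlam : 0 < lam) (h : ∫ ω, f ω ^ 2 ∂μ ≤ M) :
    μ.real {ω | lam ≤ |f ω|} ≤ M / lam ^ 2 := by
  have hint : Integrable (fun ω => f ω ^ 2) μ := by
    refine Integrable.of_bound (C := B ^ 2) (hf.pow_const 2).aestronglyMeasurable ?_
    filter_upwards with ω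
    rw [Real.norm_eq_abs, abs_pow]
    exact pow_le_pow_left₀ (abs_nonneg _) (hb ω) 2
  have h1 := mul_meas_ge_le_integral_of_nonneg (μ := μ) (f := fun ω => f ω ^ 2) (Filter.Eventually.of_forall fun ω => sq_nonneg _) hint (lam ^ 2)
  have h2 : {ω | lam ≤ |f ω|} ⊆ {ω | lam ^ 2 ≤ f ω ^ 2} := by
    intro ω hω
    have hω' : lam ≤ |f ω| := hω
    show lam ^ 2 ≤ f ω ^ 2
    rw [← sq_abs (f ω)]
    exact pow_le_pow_left₀ hlam.le hω' 2
  rw [le_div_iff₀ (by positivity)]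
  calc μ.real {ω | lam ≤ |f ω|} * lam ^ 2 ≤ μ.real {ω | lam ^ 2 ≤ f ω ^ 2} * lam ^ 2 :=
        mul_le_mul_of_nonneg_right (measureReal_mono h2 (measure_ne_top _ _)) (by positivity)
    _ = lam ^ 2 * μ.real {ω | lam ^ 2 ≤ f ω ^ 2} := mul_comm _ _
    _ ≤ ∫ ω, f ω ^ 2 ∂μ := h1
    _ ≤ M := h

end Pool.Agent.R177.RF
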