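import Mathlib
/-!
# A family of independent fair signs
-/
open MeasureTheory ProbabilityTheory Filter Topology

namespace Pool.Agent.R177.RF

/-- a fair coin -/
noncomputable def coin : Measure Bool := (PMF.uniformOfFintype Bool).toMeasure

instance : IsProbabilityMeasure coin := by unfold coin; infer_instance

/-- the sign of a coin toss -/
def sgn (b : Bool) : ℝ := if b then 1 else -1

lemma coin_mean : ∫ b, sgn b ∂coin = 0 := by
  unfold coin
  rw [PMF.integral_eq_sum]
  simp [sgn]

lemma exists_family : ∃ (Ω : Type) (_ : MeasurableSpace Ω) (P : Measure Ω) (_ : IsProbabilityMeasure P) (ξ : ℕ → Ω → ℝ),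
    (∀ p, Measurable (ξ p)) ∧ (∀ p ω, ξ p ω = 1 ∨ ξ p ω = -1) ∧ (∀ p, ∫ ω, ξ p ω ∂P = 0) ∧ iIndepFun ξ P := by
  have hs : Measurable sgn := measurable_of_countable _
  refine ⟨ℕ → Bool, inferInstance, Measure.infinitePi (fun _ => coin), inferInstance, fun p ω => sgn (ω p), ?_, ?_, ?_, ?_⟩
  · intro p
    exact hs.comp (measurable_pi_apply p)
  · intro p ω
    show sgn (ω p) = 1 ∨ sgn (ω p) = -1
    cases ω p <;> simp [sgn]
  · intro p
    have h1 := (measurePreserving_eval_infinitePi (fun _ : ℕ => coin) p).map_eq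
    have h2 := integral_map (μ := Measure.infinitePi (fun _ : ℕ => coin)) (φ := Function.eval p)
      (measurable_pi_apply p).aemeasurable (f := sgn) hs.aestronglyMeasurable
    rw [h1, coin_mean] at h2
    exact h2.symm
  · exact iIndepFun_infinitePi (P := fun _ : ℕ => coin) (X := fun _ b => sgn b) (fun _ => hs)

end Pool.Agent.R177.RF
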