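import Mathlib
import Pool.Agent.R177.RF.Exp
import Pool.Agent.R528.RM.Gold
import Pool.Agent.Y293.SF.SQF

set_option autoImplicit false
set_option linter.unusedSectionVars false

/-! # The variance: decomposition, diagonal part and tail bounds -/

open Finset MeasureTheory ProbabilityTheory Filter
open scoped Topology

namespace Pool.Agent.R177.RF

variable {Ω : Type} {m0 : MeasurableSpace Ω} {μ : Measure Ω} [IsProbabilityMeasure μ] {X : ℕ → Ω → ℝ}

/-- sums over short intervals -/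
noncomputable def SS (X : ℕ → Ω → ℝ) (k H : ℕ) (ω : Ω) : ℝ := ∑ n ∈ Ioc k (k + H), rf X n ω

/-- the variance up to `Y` -/
noncomputable def VV (X : ℕ → Ω → ℝ) (Y H : ℕ) (ω : Ω) : ℝ := ∑ k ∈ range Y, SS X k H ω ^ 2

open Classical in
noncomputable def sq1 (n : ℕ) : ℝ := if Squarefree n then 1 else 0

/-- the weights of the pairs -/
def wk (Y H : ℕ) (p : ℕ × ℕ) : ℝ := ∑ k ∈ range Y, if k < p.1 ∧ p.1 < p.2 ∧ p.2 ≤ k + H then 1 else 0

lemma wk_abs (Y H : ℕ) (p : ℕ × ℕ) : |wk Y H p| ≤ H := by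
  unfold wk
  rw [abs_of_nonneg (sum_nonneg fun k _ => by split_ifs <;> norm_num), sum_boole]
  have h1 : (range Y).filter (fun k => k < p.1 ∧ p.1 < p.2 ∧ p.2 ≤ k + H) ⊆ Ico (p.1 - H) p.1 := by
    intro k hk
    obtain ⟨_, h2, h3, h4⟩ := mem_filter.1 hk
    rw [mem_Ico]
    omega
  have h2 := card_le_card h1
  rw [Nat.card_Ico] at h2
  exact_mod_cast h2.trans (by omega)

/-- square of a sum over an interval -/
lemma SS_sq (hs : ∀ p ω, X p ω = 1 ∨ X p ω = -1) (k H : ℕ) (ω : Ω) :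
    SS X k H ω ^ 2 = ∑ n ∈ Ioc k (k + H), sq1 n + 2 * ∑ n ∈ Ioc k (k + H), ∑ m ∈ Ioo k n, rf X m ω * rf X n ω := by
  classical
  induction H with
  | zero => simp [SS]
  | succ H ih =>
    have h1 : SS X k (H + 1) ω = SS X k H ω + rf X (k + H + 1) ω := by
      unfold SS
      rw [← add_assoc, sum_Ioc_succ_top (by omega)]
    have h2 : Ioo k (k + H + 1) = Ioc k (k + H) := by
      ext n
      simp only [mem_Ioo, mem_Ioc]
      omega
    rw [h1, ← add_assoc k H 1, sum_Ioc_succ_top (by omega), sum_Ioc_succ_top (by omega), h2, ← sum_mul]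
    have h3 : rf X (k + H + 1) ω ^ 2 = sq1 (k + H + 1) := by
      unfold sq1
      exact rf_sq hs _ _
    have h4 : ∑ i ∈ Ioc k (k + H), rf X i ω = SS X k H ω := rfl
    rw [h4, add_sq, ih, h3]
    ring

lemma pair_sum (k H N : ℕ) (hN : k + H ≤ N) (ω : Ω) :
    ∑ n ∈ Ioc k (k + H), ∑ m ∈ Ioo k n, rf X m ω * rf X n ω =
      ∑ p ∈ PP N H, (if k < p.1 ∧ p.1 < p.2 ∧ p.2 ≤ k + H then (1 : ℝ) else 0) * (rf X p.1 ω * rf X p.2 ω) := by
  classical
  have h1 : ∑ p ∈ PP N H, (if k < p.1 ∧ p.1 < p.2 ∧ p.2 ≤ k + H then (1 : ℝ) else 0) * (rf X p.1 ω * rf X p.2 ω) =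
      ∑ p ∈ (range (N + 1)) ×ˢ (range (N + 1)), if k < p.1 ∧ p.1 < p.2 ∧ p.2 ≤ k + H then rf X p.1 ω * rf X p.2 ω else 0 := by
    unfold PP
    rw [sum_filter]
    refine sum_congr rfl fun p _ => ?_
    by_cases hsq : Squarefree p.1 ∧ Squarefree p.2
    · by_cases hc : k < p.1 ∧ p.1 < p.2 ∧ p.2 ≤ k + H
      · have : 0 < p.1 ∧ p.1 < p.2 ∧ p.2 < p.1 + H ∧ Squarefree p.1 ∧ Squarefree p.2 := ⟨by omega, by omega, by omega, hsq.1, hsq.2⟩
        rw [if_pos this, if_pos hc, if_pos hc, one_mul]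
      · rw [if_neg hc, if_neg hc, zero_mul]
        split_ifs <;> rfl
    · have h0 : rf X p.1 ω * rf X p.2 ω = 0 := by
        unfold rf
        by_cases h5 : Squarefree p.1
        · have h6 : ¬ Squarefree p.2 := fun h6 => hsq ⟨h5, h6⟩
          rw [if_neg h6, mul_zero]
        · rw [if_neg h5, zero_mul]
      rw [h0]
      simp
  rw [h1, sum_product_right]
  have h2 : Ioc k (k + H) ⊆ range (N + 1) := by
    intro n hn
    rw [mem_range]
    have := (mem_Ioc.1 hn).2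
    omega
  rw [← sum_subset h2 (f := fun n => ∑ m ∈ range (N + 1), if k < m ∧ m < n ∧ n ≤ k + H then rf X m ω * rf X n ω else 0)]
  · refine sum_congr rfl fun n hn => ?_
    have hn' := mem_Ioc.1 hn
    have h3 : Ioo k n ⊆ range (N + 1) := by
      intro m hm
      rw [mem_range]
      have := (mem_Ioo.1 hm).2
      omega
    rw [← sum_subset h3]
    · refine sum_congr rfl fun m hm => ?_
      have hm' := mem_Ioo.1 hm
      rw [if_pos ⟨hm'.1, hm'.2, hn'.2⟩]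
    · intro m _ hm
      rw [mem_Ioo] at hm
      rw [if_neg]
      tauto
  · intro n _ hn
    rw [mem_Ioc] at hn
    refine sum_eq_zero fun m _ => ?_
    rw [if_neg]
    rintro ⟨g1, g2, g3⟩
    exact hn ⟨by omega, g3⟩

/-- decomposition of the variance -/
lemma VV_eq (hs : ∀ p ω, X p ω = 1 ∨ X p ω = -1) (Y H : ℕ) (ω : Ω) :
    VV X Y H ω = ∑ k ∈ range Y, ∑ n ∈ Ioc k (k + H), sq1 n + 2 * DD X (Y + H) H (wk Y H) ω := by
  unfold VV DD
  have h1 : ∀ k ∈ range Y, SS X k H ω ^ 2 = ∑ n ∈ Ioc k (k + H), sq1 n + 2 * ∑ p ∈ PP (Y + H) H,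
      (if k < p.1 ∧ p.1 < p.2 ∧ p.2 ≤ k + H then (1 : ℝ) else 0) * (rf X p.1 ω * rf X p.2 ω) := by
    intro k hk
    rw [SS_sq hs, pair_sum k H (Y + H) (by have := mem_range.1 hk; omega)]
  rw [sum_congr rfl h1, sum_add_distrib, ← mul_sum, sum_comm]
  congr 2
  refine sum_congr rfl fun p _ => ?_
  rw [← sum_mul]
  rfl

/-- the squarefree integers, with error -/
lemma sq_count {η : ℝ} (hη : 0 < η) : ∃ C : ℝ, 0 ≤ C ∧ ∀ n : ℕ, |∑ i ∈ range n, sq1 (i + 1) - (6 / Real.pi ^ 2) * n| ≤ η * n + C := by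
  classical
  have h := Pool.Agent.Y293.SF.t_SQF
  unfold Pool.Agent.Y859.SF.S_SQF at h
  have h1 : ∀ n : ℕ, (((Icc 1 n).filter (fun m => Squarefree m)).card : ℝ) = ∑ i ∈ range n, sq1 (i + 1) := by
    intro n
    induction n with
    | zero => simp
    | succ n ih =>
      rw [sum_range_succ, ← ih, ← Finset.insert_Icc_right_eq_Icc_add_one (by omega : 1 ≤ n + 1), filter_insert]
      unfold sq1
      split_ifs with h2
      · rw [card_insert_of_notMem (by simp)]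
        push_cast
        ring
      · ring
  have h2 := (Metric.tendsto_nhds.1 h) η hη
  obtain ⟨N, hN⟩ := eventually_atTop.1 h2
  refine ⟨2 * N, by positivity, fun n => ?_⟩
  have hpi : (6 : ℝ) / Real.pi ^ 2 ≤ 1 := by
    rw [div_le_one (by positivity)]
    have := Real.pi_gt_three
    nlinarith
  have hpi0 : (0 : ℝ) ≤ 6 / Real.pi ^ 2 := by positivity
  have hs0 : 0 ≤ ∑ i ∈ range n, sq1 (i + 1) := sum_nonneg fun i _ => by unfold sq1; split_ifs <;> norm_num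
  have hs1 : ∑ i ∈ range n, sq1 (i + 1) ≤ n := by
    calc ∑ i ∈ range n, sq1 (i + 1) ≤ ∑ i ∈ range n, (1 : ℝ) := sum_le_sum fun i _ => by unfold sq1; split_ifs <;> norm_num
      _ = n := by simp
  rcases Nat.lt_or_ge n N with hn | hn
  · have hn' : (n : ℝ) ≤ N := by exact_mod_cast hn.le
    have e1 : 0 ≤ η * n := by positivity
    have e2 : 0 ≤ (6 / Real.pi ^ 2) * (n : ℝ) := by positivity
    have e3 : (6 / Real.pi ^ 2) * (n : ℝ) ≤ n := mul_le_of_le_one_left (Nat.cast_nonneg n) hpi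
    rw [abs_le]
    constructor <;> linarith
  · rcases Nat.eq_zero_or_pos n with h0 | h0
    · subst h0
      simp
    · have h3 := hN n hn
      rw [h1, Real.dist_eq] at h3
      have hn0 : (0 : ℝ) < n := by exact_mod_cast h0
      have e1 : |∑ i ∈ range n, sq1 (i + 1) - (6 / Real.pi ^ 2) * (n : ℝ)| =
          |(∑ i ∈ range n, sq1 (i + 1)) / (n : ℝ) - 6 / Real.pi ^ 2| * (n : ℝ) := by
        have e0 : ∑ i ∈ range n, sq1 (i + 1) - (6 / Real.pi ^ 2) * (n : ℝ) =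
            ((∑ i ∈ range n, sq1 (i + 1)) / (n : ℝ) - 6 / Real.pi ^ 2) * (n : ℝ) := by
          field_simp
        rw [e0, abs_mul, abs_of_pos hn0]
      rw [e1]
      have := mul_le_mul_of_nonneg_right h3.le hn0.le
      have : (0 : ℝ) ≤ 2 * N := by positivity
      linarith

/-- the diagonal part -/
lemma diag {η : ℝ} (hη : 0 < η) : ∀ᶠ Y : ℕ in atTop, ∀ H : ℕ, H ≤ Y →
    |∑ k ∈ range Y, ∑ n ∈ Ioc k (k + H), sq1 n - (6 / Real.pi ^ 2) * Y * H| ≤ η * Y * H := by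
  obtain ⟨C, hC, hq⟩ := sq_count (show 0 < η / 4 by positivity)
  have hY : ∀ᶠ Y : ℕ in atTop, 2 * C ≤ η / 4 * Y := by
    have : Tendsto (fun Y : ℕ => η / 4 * (Y : ℝ)) atTop atTop := tendsto_natCast_atTop_atTop.const_mul_atTop (by positivity)
    exact this.eventually_ge_atTop _
  filter_upwards [hY] with Y hY H hHY
  have h1 : ∑ k ∈ range Y, ∑ n ∈ Ioc k (k + H), sq1 n = ∑ h ∈ range H, (∑ i ∈ range (h + Y), sq1 (i + 1) - ∑ i ∈ range h, sq1 (i + 1)) := by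
    have e1 : ∀ k, ∑ n ∈ Ioc k (k + H), sq1 n = ∑ h ∈ range H, sq1 (k + h + 1) := by
      intro k
      have : Ioc k (k + H) = Ico (k + 1) (k + 1 + H) := by
        ext n
        simp only [mem_Ioc, mem_Ico]
        omega
      rw [this, sum_Ico_eq_sum_range, Nat.add_sub_cancel_left]
      refine sum_congr rfl fun h _ => ?_
      congr 1
      ring
    simp_rw [e1]
    rw [sum_comm]
    refine sum_congr rfl fun h _ => ?_
    rw [sum_range_add]
    rw [add_sub_cancel_left]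
    refine sum_congr rfl fun k _ => ?_
    congr 1
    ring
  have h2 : (6 / Real.pi ^ 2) * (Y : ℝ) * H = ∑ h ∈ range H, (6 / Real.pi ^ 2) * (Y : ℝ) := by
    rw [sum_const, card_range, nsmul_eq_mul]
    ring
  rw [h1, h2, ← sum_sub_distrib]
  refine (abs_sum_le_sum_abs _ _).trans ?_
  have h3 : ∀ h ∈ range H, |∑ i ∈ range (h + Y), sq1 (i + 1) - ∑ i ∈ range h, sq1 (i + 1) - (6 / Real.pi ^ 2) * (Y : ℝ)| ≤ η * Y := by
    intro h hh
    have hh' := mem_range.1 hh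
    have g1 := abs_le.1 (hq (h + Y))
    have g2 := abs_le.1 (hq h)
    have g3 : (h : ℝ) ≤ Y := by exact_mod_cast (by omega : h ≤ Y)
    push_cast at g1
    have g4 : η / 4 * (h : ℝ) ≤ η / 4 * Y := mul_le_mul_of_nonneg_left g3 (by positivity)
    rw [abs_le]
    constructor <;> nlinarith [g1.1, g1.2, g2.1, g2.2]
  refine (sum_le_sum h3).trans ?_
  rw [sum_const, card_range, nsmul_eq_mul]
  apply le_of_eq
  ring

lemma DD_bd (hs : ∀ p ω, X p ω = 1 ∨ X p ω = -1) (N H : ℕ) (w : ℕ × ℕ → ℝ) {B : ℝ} (hB : ∀ p, |w p| ≤ B) (ω : Ω) :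
    |DD X N H w ω| ≤ (PP N H).card * B := by
  have hB0 : 0 ≤ B := (abs_nonneg _).trans (hB (0, 0))
  unfold DD
  refine (abs_sum_le_sum_abs _ _).trans ((sum_le_card_nsmul _ _ B fun p _ => ?_).trans (by rw [nsmul_eq_mul]))
  rw [abs_mul, abs_mul]
  have := mul_le_one₀ (rf_abs hs p.1 ω) (abs_nonneg _) (rf_abs hs p.2 ω)
  calc |w p| * (|rf X p.1 ω| * |rf X p.2 ω|) ≤ B * 1 := mul_le_mul (hB p) this (by positivity) hB0
    _ = B := mul_one B

/-- the tail of the off-diagonal part -/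
theorem tail (hm : ∀ p, Measurable (X p)) (hs : ∀ p ω, X p ω = 1 ∨ X p ω = -1) (h0 : ∀ p, ∫ ω, X p ω ∂μ = 0)
    (hind : iIndepFun X μ) {e : ℝ} (he : 0 < e) (he1 : e ≤ 1) : ∃ C : ℝ, 0 < C ∧ ∀ Y H : ℕ, 1 ≤ Y → 1 ≤ H → (H : ℝ) ≤ (Y : ℝ) ^ (1 - e) →
      μ.real {ω | (Y : ℝ) ^ (1 - e / 8) * H ≤ |DD X (Y + H) H (wk Y H) ω|} ≤ C * (Y : ℝ) ^ (-(e / 2)) := by
  obtain ⟨C, hC, hcount⟩ := count_sq (e / 8) (by positivity)
  refine ⟨C * 4, by positivity, fun Y H hY hH hHY => ?_⟩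
  have hY1 : (1 : ℝ) ≤ Y := by exact_mod_cast hY
  have hY0 : (0 : ℝ) < Y := by linarith
  have hH0 : (0 : ℝ) < H := by exact_mod_cast hH
  have hHY' : (H : ℝ) ≤ Y := hHY.trans (by
    calc (Y : ℝ) ^ (1 - e) ≤ (Y : ℝ) ^ (1 : ℝ) := Real.rpow_le_rpow_of_exponent_le hY1 (by linarith)
      _ = Y := Real.rpow_one _)
  have h1 := second (μ := μ) hm hs h0 hind (Y + H) H (wk Y H) (wk_abs Y H)
  have h2 := hcount (Y + H) H (by omega) (by omega)
  have h3 : ((Y + H : ℕ) : ℝ) ^ (1 + e / 8) ≤ 4 * (Y : ℝ) ^ (1 + e / 8) := by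
    have g1 : ((Y + H : ℕ) : ℝ) ≤ 2 * Y := by push_cast; linarith
    calc ((Y + H : ℕ) : ℝ) ^ (1 + e / 8) ≤ (2 * (Y : ℝ)) ^ (1 + e / 8) := Real.rpow_le_rpow (Nat.cast_nonneg _) g1 (by positivity)
      _ = (2 : ℝ) ^ (1 + e / 8) * (Y : ℝ) ^ (1 + e / 8) := Real.mul_rpow (by norm_num) hY0.le
      _ ≤ 4 * (Y : ℝ) ^ (1 + e / 8) := by
          apply mul_le_mul_of_nonneg_right _ (by positivity)
          calc (2 : ℝ) ^ (1 + e / 8) ≤ (2 : ℝ) ^ (2 : ℝ) := Real.rpow_le_rpow_of_exponent_le (by norm_num) (by linarith)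
            _ = 4 := by norm_num
  have h4 : ∫ ω, DD X (Y + H) H (wk Y H) ω ^ 2 ∂μ ≤ (C * 4) * (H : ℝ) ^ 3 * (Y : ℝ) ^ (1 + e / 8) := by
    calc ∫ ω, DD X (Y + H) H (wk Y H) ω ^ 2 ∂μ ≤ (H : ℝ) ^ 2 * (C * H * ((Y + H : ℕ) : ℝ) ^ (1 + e / 8)) :=
          h1.trans (mul_le_mul_of_nonneg_left h2 (by positivity))
      _ ≤ (H : ℝ) ^ 2 * (C * H * (4 * (Y : ℝ) ^ (1 + e / 8))) := by
          apply mul_le_mul_of_nonneg_left _ (by positivity)
          exact mul_le_mul_of_nonneg_left h3 (by positivity)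
      _ = _ := by ring
  have hlam : 0 < (Y : ℝ) ^ (1 - e / 8) * H := by positivity
  refine (cheb (μ := μ) (DD_meas hm _ _ _) (DD_bd hs _ _ _ (wk_abs Y H)) hlam h4).trans ?_
  rw [div_le_iff₀ (by positivity)]
  have e1 : ((Y : ℝ) ^ (1 - e / 8) * H) ^ 2 = (Y : ℝ) ^ (2 - e / 4) * (H : ℝ) ^ 2 := by
    rw [mul_pow, ← Real.rpow_natCast ((Y : ℝ) ^ (1 - e / 8)), ← Real.rpow_mul hY0.le]
    congr 2
    push_cast
    ring
  rw [e1]
  calc C * 4 * (H : ℝ) ^ 3 * (Y : ℝ) ^ (1 + e / 8) = C * 4 * (H : ℝ) ^ 2 * (H * (Y : ℝ) ^ (1 + e / 8)) := by ring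
    _ ≤ C * 4 * (H : ℝ) ^ 2 * ((Y : ℝ) ^ (1 - e) * (Y : ℝ) ^ (1 + e / 8)) := by
        apply mul_le_mul_of_nonneg_left _ (by positivity)
        exact mul_le_mul_of_nonneg_right hHY (by positivity)
    _ ≤ C * 4 * (H : ℝ) ^ 2 * ((Y : ℝ) ^ (-(e / 2)) * (Y : ℝ) ^ (2 - e / 4)) := by
        apply mul_le_mul_of_nonneg_left _ (by positivity)
        rw [← Real.rpow_add hY0, ← Real.rpow_add hY0]
        exact Real.rpow_le_rpow_of_exponent_le hY1 (by linarith)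
    _ = _ := by ring

end Pool.Agent.R177.RF
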