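import Mathlib
import Pool.Agent.R177.RF.Var

set_option autoImplicit false
set_option linter.unusedSectionVars false

/-! # Almost sure asymptotics of the variance, uniformly in the length -/

open Finset MeasureTheory ProbabilityTheory Filter
open scoped Topology

namespace Pool.Agent.R177.RF

variable {Ω : Type} {m0 : MeasurableSpace Ω} {μ : Measure Ω} [IsProbabilityMeasure μ] {X : ℕ → Ω → ℝ}

lemma natlog_bd {e : ℝ} (he : 0 < e) : ∃ C : ℝ, 0 < C ∧ ∀ Y : ℕ, 1 ≤ Y → ((Nat.log 2 Y : ℕ) : ℝ) + 1 ≤ C * (Y : ℝ) ^ e := by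
  have hl2 : 0 < Real.log 2 := Real.log_pos (by norm_num)
  refine ⟨1 / e / Real.log 2 + 1, by positivity, fun Y hY => ?_⟩
  have hY1 : (1 : ℝ) ≤ Y := by exact_mod_cast hY
  have h1 : ((Nat.log 2 Y : ℕ) : ℝ) ≤ Real.logb 2 Y := by
    have := Real.natLog_le_logb Y 2
    exact_mod_cast this
  have h2 := Real.log_le_rpow_div (show (0 : ℝ) ≤ Y by linarith) he
  have h3 : (1 : ℝ) ≤ (Y : ℝ) ^ e := Real.one_le_rpow hY1 he.le
  have h4 : Real.logb 2 Y ≤ (Y : ℝ) ^ e / e / Real.log 2 := by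
    unfold Real.logb
    exact div_le_div_of_nonneg_right h2 hl2.le
  calc ((Nat.log 2 Y : ℕ) : ℝ) + 1 ≤ (Y : ℝ) ^ e / e / Real.log 2 + (Y : ℝ) ^ e := add_le_add (h1.trans h4) h3
    _ = _ := by ring

/-- the off-diagonal part is small on the grid -/
theorem grid (hm : ∀ p, Measurable (X p)) (hs : ∀ p ω, X p ω = 1 ∨ X p ω = -1) (h0 : ∀ p, ∫ ω, X p ω ∂μ = 0)
    (hind : iIndepFun X μ) {e : ℝ} (he : 0 < e) (he1 : e ≤ 1) : ∃ K : ℕ, 0 < K ∧ ∀ᵐ ω ∂μ, ∀ s : ℕ, ∀ᶠ j : ℕ in atTop,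
      ∀ a q : ℕ, q < 2 ^ (s + 1) → 1 ≤ q * 2 ^ a → ((q * 2 ^ a : ℕ) : ℝ) ≤ ((j ^ K : ℕ) : ℝ) ^ (1 - e) →
        |DD X (j ^ K + q * 2 ^ a) (q * 2 ^ a) (wk (j ^ K) (q * 2 ^ a)) ω| < ((j ^ K : ℕ) : ℝ) ^ (1 - e / 8) * ((q * 2 ^ a : ℕ) : ℝ) := by
  classical
  obtain ⟨C, hC, htail⟩ := tail (μ := μ) hm hs h0 hind he he1
  obtain ⟨C2, hC2, hlog⟩ := natlog_bd (show 0 < e / 4 by positivity)
  obtain ⟨K, hK⟩ := exists_nat_ge (8 / e)
  have hK0 : 0 < K := by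
    have : (0 : ℝ) < K := lt_of_lt_of_le (by positivity) hK
    exact_mod_cast this
  have hKe : 8 ≤ K * e := by
    rw [div_le_iff₀ he] at hK
    exact hK
  refine ⟨K, hK0, ?_⟩
  rw [ae_all_iff]
  intro s
  set Bad : ℕ → Set Ω := fun j => ⋃ a ∈ range (Nat.log 2 (j ^ K) + 1), ⋃ q ∈ range (2 ^ (s + 1)),
    {ω | 1 ≤ q * 2 ^ a ∧ ((q * 2 ^ a : ℕ) : ℝ) ≤ ((j ^ K : ℕ) : ℝ) ^ (1 - e) ∧
      ((j ^ K : ℕ) : ℝ) ^ (1 - e / 8) * ((q * 2 ^ a : ℕ) : ℝ) ≤ |DD X (j ^ K + q * 2 ^ a) (q * 2 ^ a) (wk (j ^ K) (q * 2 ^ a)) ω|} with hBad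
  have hsum : Summable (fun j : ℕ => (C * C2 * 2 ^ (s + 1)) * ((j : ℝ) ^ 2)⁻¹) :=
    (Real.summable_nat_pow_inv.2 (by norm_num)).mul_left _
  have hb : ∀ᶠ j in atTop, μ.real (Bad j) ≤ (C * C2 * 2 ^ (s + 1)) * ((j : ℝ) ^ 2)⁻¹ := by
    filter_upwards [eventually_ge_atTop 1] with j hj
    have hj1 : (1 : ℝ) ≤ j := by exact_mod_cast hj
    set Y := j ^ K with hY
    have hY1 : 1 ≤ Y := Nat.one_le_pow _ _ hj
    have hY1' : (1 : ℝ) ≤ Y := by exact_mod_cast hY1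
    have hY0 : (0 : ℝ) < Y := by linarith
    have g1 : ∀ a ∈ range (Nat.log 2 Y + 1), ∀ q ∈ range (2 ^ (s + 1)),
        μ.real {ω | 1 ≤ q * 2 ^ a ∧ ((q * 2 ^ a : ℕ) : ℝ) ≤ (Y : ℝ) ^ (1 - e) ∧
          (Y : ℝ) ^ (1 - e / 8) * ((q * 2 ^ a : ℕ) : ℝ) ≤ |DD X (Y + q * 2 ^ a) (q * 2 ^ a) (wk Y (q * 2 ^ a)) ω|} ≤ C * (Y : ℝ) ^ (-(e / 2)) := by
      intro a _ q _
      by_cases hc : 1 ≤ q * 2 ^ a ∧ ((q * 2 ^ a : ℕ) : ℝ) ≤ (Y : ℝ) ^ (1 - e)
      · refine le_trans (measureReal_mono ?_ (measure_ne_top _ _)) (htail Y (q * 2 ^ a) hY1 hc.1 hc.2)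
        intro ω hω
        exact hω.2.2
      · have : {ω | 1 ≤ q * 2 ^ a ∧ ((q * 2 ^ a : ℕ) : ℝ) ≤ (Y : ℝ) ^ (1 - e) ∧
          (Y : ℝ) ^ (1 - e / 8) * ((q * 2 ^ a : ℕ) : ℝ) ≤ |DD X (Y + q * 2 ^ a) (q * 2 ^ a) (wk Y (q * 2 ^ a)) ω|} = ∅ := by
          ext ω
          simp only [Set.mem_ofPred_eq, Set.mem_empty_iff_false, iff_false]
          rintro ⟨k1, k2, _⟩
          exact hc ⟨k1, k2⟩
        rw [this, measureReal_empty]
        positivity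
    have g2 : μ.real (Bad j) ≤ ∑ a ∈ range (Nat.log 2 Y + 1), ∑ q ∈ range (2 ^ (s + 1)), C * (Y : ℝ) ^ (-(e / 2)) := by
      refine (measureReal_biUnion_finset_le _ _).trans (sum_le_sum fun a ha => ?_)
      exact (measureReal_biUnion_finset_le _ _).trans (sum_le_sum fun q hq => g1 a ha q hq)
    rw [sum_const, sum_const, card_range, card_range, nsmul_eq_mul, nsmul_eq_mul] at g2
    refine g2.trans ?_
    have g3 := hlog Y hY1
    have g4 : (Y : ℝ) ^ (e / 4) * (Y : ℝ) ^ (-(e / 2)) ≤ ((j : ℝ) ^ 2)⁻¹ := by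
      rw [← Real.rpow_add hY0]
      have e1 : (Y : ℝ) = (j : ℝ) ^ (K : ℝ) := by
        rw [hY]
        push_cast
        rw [Real.rpow_natCast]
      rw [e1, ← Real.rpow_mul (by linarith), ← Real.rpow_natCast (j : ℝ) 2, ← Real.rpow_neg (by linarith)]
      apply Real.rpow_le_rpow_of_exponent_le hj1
      push_cast
      nlinarith
    have e2 : (((Nat.log 2 Y + 1 : ℕ)) : ℝ) = ((Nat.log 2 Y : ℕ) : ℝ) + 1 := by push_cast; ring
    have e3 : ((2 ^ (s + 1) : ℕ) : ℝ) = 2 ^ (s + 1) := by push_cast; ring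
    rw [e2, e3]
    calc (((Nat.log 2 Y : ℕ) : ℝ) + 1) * (2 ^ (s + 1) * (C * (Y : ℝ) ^ (-(e / 2)))) ≤
        (C2 * (Y : ℝ) ^ (e / 4)) * (2 ^ (s + 1) * (C * (Y : ℝ) ^ (-(e / 2)))) := mul_le_mul_of_nonneg_right g3 (by positivity)
      _ = (C * C2 * 2 ^ (s + 1)) * ((Y : ℝ) ^ (e / 4) * (Y : ℝ) ^ (-(e / 2))) := by ring
      _ ≤ _ := mul_le_mul_of_nonneg_left g4 (by positivity)
  filter_upwards [Pool.Agent.R528.RM.bc_real (μ := μ) hsum hb] with ω hω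
  filter_upwards [hω, eventually_ge_atTop 1] with j hj hj1 a q hq h1 h2
  by_contra hcon
  push Not at hcon
  apply hj
  simp only [hBad, Set.mem_iUnion]
  refine ⟨a, ?_, q, mem_range.2 hq, h1, h2, hcon⟩
  rw [mem_range, Nat.lt_succ_iff]
  have hY1 : 1 ≤ j ^ K := Nat.one_le_pow _ _ hj1
  have hY1' : (1 : ℝ) ≤ ((j ^ K : ℕ) : ℝ) := by exact_mod_cast hY1
  have g1 : ((q * 2 ^ a : ℕ) : ℝ) ≤ ((j ^ K : ℕ) : ℝ) := h2.trans (by
    calc ((j ^ K : ℕ) : ℝ) ^ (1 - e) ≤ ((j ^ K : ℕ) : ℝ) ^ (1 : ℝ) := Real.rpow_le_rpow_of_exponent_le hY1' (by linarith)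
      _ = _ := Real.rpow_one _)
  have g2 : q * 2 ^ a ≤ j ^ K := by exact_mod_cast g1
  have hq1 : 1 ≤ q := by
    rcases Nat.eq_zero_or_pos q with h | h
    · subst h; simp at h1
    · exact h
  apply Nat.le_log_of_pow_le (by norm_num)
  calc 2 ^ a = 1 * 2 ^ a := (one_mul _).symm
    _ ≤ q * 2 ^ a := Nat.mul_le_mul_right _ hq1
    _ ≤ j ^ K := g2

/-- a constant -/
noncomputable def cc : ℝ := 6 / Real.pi ^ 2

lemma cc_pos : 0 < cc := by
  unfold cc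
  positivity

lemma cc_le : cc ≤ 2 / 3 := by
  unfold cc
  rw [div_le_div_iff₀ (by positivity) (by norm_num)]
  have := Real.pi_gt_three
  nlinarith

lemma cc_ge : 1 / 2 ≤ cc := by
  unfold cc
  rw [div_le_div_iff₀ (by norm_num) (by positivity)]
  have h1 := Real.pi_lt_d2
  have h2 := Real.pi_pos
  nlinarith

theorem grid2 (hm : ∀ p, Measurable (X p)) (hs : ∀ p ω, X p ω = 1 ∨ X p ω = -1) (h0 : ∀ p, ∫ ω, X p ω ∂μ = 0)
    (hind : iIndepFun X μ) {e : ℝ} (he : 0 < e) (he1 : e ≤ 1) : ∃ K : ℕ, 0 < K ∧ ∀ᵐ ω ∂μ, ∀ s : ℕ, ∀ η : ℝ, 0 < η → ∀ᶠ j : ℕ in atTop,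
      ∀ a q : ℕ, q < 2 ^ (s + 1) → 1 ≤ q * 2 ^ a → ((q * 2 ^ a : ℕ) : ℝ) ≤ ((j ^ K : ℕ) : ℝ) ^ (1 - e) →
        |VV X (j ^ K) (q * 2 ^ a) ω - cc * ((j ^ K : ℕ) : ℝ) * ((q * 2 ^ a : ℕ) : ℝ)| ≤ η * ((j ^ K : ℕ) : ℝ) * ((q * 2 ^ a : ℕ) : ℝ) := by
  obtain ⟨K, hK, hg⟩ := grid (μ := μ) hm hs h0 hind he he1
  refine ⟨K, hK, ?_⟩
  have htop : Tendsto (fun j : ℕ => j ^ K) atTop atTop := tendsto_pow_atTop hK.ne'
  filter_upwards [hg] with ω hω s η hη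
  have h1 := htop.eventually (diag (show 0 < η / 2 by positivity))
  have h2 : ∀ᶠ Y : ℕ in atTop, 2 * (Y : ℝ) ^ (1 - e / 8) ≤ η / 2 * Y := by
    have h3 : Tendsto (fun x : ℝ => x ^ (-(e / 8))) atTop (𝓝 0) := tendsto_rpow_neg_atTop (by positivity)
    have h4 := (h3.comp (tendsto_natCast_atTop_atTop (R := ℝ))).eventually (gt_mem_nhds (show (0 : ℝ) < η / 4 by positivity))
    filter_upwards [h4, eventually_gt_atTop 0] with Y h5 h6
    have h6' : (0 : ℝ) < Y := by exact_mod_cast h6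
    have h7 : (Y : ℝ) ^ (1 - e / 8) = Y * (Y : ℝ) ^ (-(e / 8)) := by
      rw [show 1 - e / 8 = 1 + -(e / 8) by ring, Real.rpow_add h6', Real.rpow_one]
    rw [h7]
    have h8 : (Y : ℝ) ^ (-(e / 8)) < η / 4 := h5
    nlinarith
  filter_upwards [hω s, h1, htop.eventually h2, eventually_ge_atTop 1] with j k1 k2 k3 k4 a q hq hh1 hh2
  have hY1 : (1 : ℝ) ≤ ((j ^ K : ℕ) : ℝ) := by exact_mod_cast Nat.one_le_pow K j k4
  have hle : q * 2 ^ a ≤ j ^ K := by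
    have : ((q * 2 ^ a : ℕ) : ℝ) ≤ ((j ^ K : ℕ) : ℝ) := hh2.trans (by
      calc ((j ^ K : ℕ) : ℝ) ^ (1 - e) ≤ ((j ^ K : ℕ) : ℝ) ^ (1 : ℝ) := Real.rpow_le_rpow_of_exponent_le hY1 (by linarith)
        _ = _ := Real.rpow_one _)
    exact_mod_cast this
  have g1 := k1 a q hq hh1 hh2
  have g2 := k2 (q * 2 ^ a) hle
  rw [VV_eq hs]
  set h := q * 2 ^ a
  set Y := j ^ K
  set D := DD X (Y + h) h (wk Y h) ω
  have hh0 : (0 : ℝ) ≤ h := Nat.cast_nonneg _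
  have g3 : (2 * (Y : ℝ) ^ (1 - e / 8)) * h ≤ (η / 2 * Y) * h := mul_le_mul_of_nonneg_right k3 hh0
  have g4 := abs_le.1 g2
  have g5 := abs_lt.1 g1
  have g6 : (6 : ℝ) / Real.pi ^ 2 = cc := rfl
  rw [g6] at g4
  rw [abs_le]
  constructor <;> nlinarith [g4.1, g4.2, g5.1, g5.2]

lemma VV_mono (Y Y' H : ℕ) (h : Y ≤ Y') (ω : Ω) : VV X Y H ω ≤ VV X Y' H ω := by
  unfold VV
  exact sum_le_sum_of_subset_of_nonneg (range_mono h) fun _ _ _ => sq_nonneg _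

/-- all `Y` -/
theorem all_Y (hm : ∀ p, Measurable (X p)) (hs : ∀ p ω, X p ω = 1 ∨ X p ω = -1) (h0 : ∀ p, ∫ ω, X p ω ∂μ = 0)
    (hind : iIndepFun X μ) {e : ℝ} (he : 0 < e) (he1 : e ≤ 1) : ∀ᵐ ω ∂μ, ∀ s : ℕ, ∀ η : ℝ, 0 < η → ∀ᶠ Y : ℕ in atTop,
      ∀ a q : ℕ, q < 2 ^ (s + 1) → 1 ≤ q * 2 ^ a → ((q * 2 ^ a : ℕ) : ℝ) ≤ (Y : ℝ) ^ (1 - 2 * e) →
        |VV X Y (q * 2 ^ a) ω - cc * Y * ((q * 2 ^ a : ℕ) : ℝ)| ≤ η * Y * ((q * 2 ^ a : ℕ) : ℝ) := by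
  obtain ⟨K, hK, hg⟩ := grid2 (μ := μ) hm hs h0 hind he he1
  filter_upwards [hg] with ω hω s η hη
  set t := min η 1 / 8 with ht
  have ht0 : 0 < t := by positivity
  have ht1 : t ≤ 1 / 8 := by
    rw [ht]
    have := min_le_right η 1
    linarith
  have ht2 : 8 * t ≤ η := by
    rw [ht]
    have := min_le_left η 1
    linarith
  -- neighbouring grid points
  have hr : ∀ᶠ j : ℕ in atTop, (((j + 1) ^ K : ℕ) : ℝ) ≤ (1 + t) * ((j ^ K : ℕ) : ℝ) := by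
    have h1 : Tendsto (fun j : ℕ => (1 + 1 / (j : ℝ)) ^ K) atTop (𝓝 ((1 + 0) ^ K)) :=
      (tendsto_one_div_atTop_nhds_zero_nat.const_add 1).pow K
    rw [add_zero, one_pow] at h1
    filter_upwards [h1.eventually (gt_mem_nhds (show (1 : ℝ) < 1 + t by linarith)), eventually_gt_atTop 0] with j h2 h3
    have h3' : (0 : ℝ) < j := by exact_mod_cast h3
    have e1 : (((j + 1) ^ K : ℕ) : ℝ) = (1 + 1 / (j : ℝ)) ^ K * ((j ^ K : ℕ) : ℝ) := by
      push_cast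
      rw [← mul_pow]
      congr 1
      field_simp
    rw [e1]
    exact mul_le_mul_of_nonneg_right h2.le (Nat.cast_nonneg _)
  have htop : Tendsto (fun j : ℕ => ((j ^ K : ℕ) : ℝ) ^ e) atTop atTop :=
    (tendsto_rpow_atTop he).comp (tendsto_natCast_atTop_atTop.comp (tendsto_pow_atTop hK.ne'))
  obtain ⟨J, hJ⟩ := eventually_atTop.1 ((hω s t ht0).and (hr.and ((htop.eventually_ge_atTop 2).and (eventually_ge_atTop 1))))
  filter_upwards [eventually_ge_atTop (J ^ K)] with Y hY a q hq hh1 hh2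
  -- the grid point below `Y`
  have hex : ∃ i : ℕ, Y < i ^ K := ⟨Y + 1, by
    calc Y < Y + 1 := Nat.lt_succ_self Y
      _ = (Y + 1) ^ 1 := (pow_one _).symm
      _ ≤ (Y + 1) ^ K := Nat.pow_le_pow_right (by omega) hK⟩
  have hi := Nat.find_spec hex
  have hi2 : ∀ m, m < Nat.find hex → m ^ K ≤ Y := fun m hm' => not_lt.1 (Nat.find_min hex hm')
  set i := Nat.find hex
  have hi0 : i ≠ 0 := by
    intro h
    rw [h, zero_pow hK.ne'] at hi
    omega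
  obtain ⟨j, hj⟩ : ∃ j, i = j + 1 := ⟨i - 1, by omega⟩
  rw [hj] at hi
  have hj1 : j ^ K ≤ Y := hi2 j (by omega)
  have hJj : J ≤ j := by
    by_contra hcon
    push Not at hcon
    have : (j + 1) ^ K ≤ J ^ K := Nat.pow_le_pow_left (by omega) K
    omega
  obtain ⟨k1, k2, k3, k4⟩ := hJ j hJj
  obtain ⟨l1, -, -, -⟩ := hJ (j + 1) (by omega)
  set y : ℝ := ((j ^ K : ℕ) : ℝ) with hy
  have hy1 : (1 : ℝ) ≤ y := by
    rw [hy]
    exact_mod_cast Nat.one_le_pow K j k4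
  have hy0 : 0 < y := by linarith
  have hyY : y ≤ Y := by
    rw [hy]
    exact_mod_cast hj1
  have hYy : (Y : ℝ) ≤ (1 + t) * y := by
    have : (Y : ℝ) ≤ (((j + 1) ^ K : ℕ) : ℝ) := by exact_mod_cast hi.le
    exact this.trans k2
  have hY0 : (0 : ℝ) < Y := by linarith
  have hb1 : ((q * 2 ^ a : ℕ) : ℝ) ≤ y ^ (1 - e) := by
    refine hh2.trans ?_
    rcases le_or_gt 0 (1 - 2 * e) with hpos | hneg
    · calc (Y : ℝ) ^ (1 - 2 * e) ≤ (2 * y) ^ (1 - 2 * e) := Real.rpow_le_rpow hY0.le (by nlinarith) hpos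
        _ = (2 : ℝ) ^ (1 - 2 * e) * y ^ (1 - 2 * e) := Real.mul_rpow (by norm_num) hy0.le
        _ ≤ y ^ e * y ^ (1 - 2 * e) := by
            apply mul_le_mul_of_nonneg_right _ (by positivity)
            calc (2 : ℝ) ^ (1 - 2 * e) ≤ (2 : ℝ) ^ (1 : ℝ) := Real.rpow_le_rpow_of_exponent_le (by norm_num) (by linarith)
              _ = 2 := Real.rpow_one _
              _ ≤ y ^ e := k3
        _ = y ^ (1 - e) := by
            rw [← Real.rpow_add hy0]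
            congr 1
            ring
    · calc (Y : ℝ) ^ (1 - 2 * e) ≤ y ^ (1 - 2 * e) := Real.rpow_le_rpow_of_nonpos hy0 hyY hneg.le
        _ ≤ y ^ (1 - e) := Real.rpow_le_rpow_of_exponent_le hy1 (by linarith)
  have hb2 : ((q * 2 ^ a : ℕ) : ℝ) ≤ (((j + 1) ^ K : ℕ) : ℝ) ^ (1 - e) := by
    refine hb1.trans (Real.rpow_le_rpow hy0.le ?_ (by linarith))
    rw [hy]
    exact_mod_cast Nat.pow_le_pow_left (by omega) K
  have m1 := abs_le.1 (k1 a q hq hh1 hb1)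
  have m2 := abs_le.1 (l1 a q hq hh1 hb2)
  have m3 := VV_mono (X := X) (j ^ K) Y (q * 2 ^ a) hj1 ω
  have m4 := VV_mono (X := X) Y ((j + 1) ^ K) (q * 2 ^ a) hi.le ω
  set h : ℝ := ((q * 2 ^ a : ℕ) : ℝ) with hh
  have hh0 : 0 ≤ h := Nat.cast_nonneg _
  set y' : ℝ := (((j + 1) ^ K : ℕ) : ℝ) with hy'
  have c1 := cc_pos
  have c2 := cc_le
  have c3 := cc_ge
  have n1 : VV X Y (q * 2 ^ a) ω ≤ (cc + t) * (1 + t) * (Y * h) := by
    have : VV X Y (q * 2 ^ a) ω ≤ (cc + t) * (y' * h) := by nlinarith [m2.2]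
    have h5 : y' * h ≤ ((1 + t) * Y) * h := mul_le_mul_of_nonneg_right (k2.trans (mul_le_mul_of_nonneg_left hyY (by linarith))) hh0
    calc VV X Y (q * 2 ^ a) ω ≤ (cc + t) * (y' * h) := this
      _ ≤ (cc + t) * (((1 + t) * Y) * h) := mul_le_mul_of_nonneg_left h5 (by linarith)
      _ = _ := by ring
  have n2 : (cc - t) * ((1 - t) * (Y * h)) ≤ VV X Y (q * 2 ^ a) ω := by
    have h6 : (cc - t) * (y * h) ≤ VV X Y (q * 2 ^ a) ω := by nlinarith [m1.1]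
    have h7 : (1 - t) * (Y : ℝ) ≤ y := by nlinarith
    have h8 : (1 - t) * (Y * h) ≤ y * h := by nlinarith
    exact (mul_le_mul_of_nonneg_left h8 (by linarith)).trans h6
  have hYh : 0 ≤ (Y : ℝ) * h := by positivity
  have p1 : (cc + t) * (1 + t) ≤ cc + η := by nlinarith
  have p2 : cc - η ≤ (cc - t) * (1 - t) := by nlinarith
  have q1 := mul_le_mul_of_nonneg_right p1 hYh
  have q2 := mul_le_mul_of_nonneg_right p2 hYh
  rw [abs_le]
  constructor <;> nlinarith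

lemma SS_add (k a b : ℕ) (ω : Ω) : SS X k (a + b) ω = SS X k a ω + SS X (k + a) b ω := by
  unfold SS
  rw [sum_Ioc_consecutive _ (by omega) (by omega), add_assoc]

lemma shift_sum (Y h H : ℕ) (hh : h ≤ Y) (ω : Ω) : ∑ k ∈ range Y, SS X (k + h) H ω ^ 2 ≤ VV X (2 * Y) H ω := by
  unfold VV
  have h1 : ∑ k ∈ range Y, SS X (k + h) H ω ^ 2 = ∑ k ∈ (range Y).image (· + h), SS X k H ω ^ 2 := by
    rw [sum_image]
    intro a _ b _ hab
    exact Nat.add_right_cancel hab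
  rw [h1]
  refine sum_le_sum_of_subset_of_nonneg ?_ fun _ _ _ => sq_nonneg _
  intro k hk
  obtain ⟨i, hi, rfl⟩ := mem_image.1 hk
  have := mem_range.1 hi
  rw [mem_range]
  omega

/-- chaining -/
lemma chain {Y : ℕ} {B : ℝ} {ω : Ω} (hB : ∀ b : ℕ, ((2 ^ b : ℕ) : ℝ) ≤ B → VV X (2 * Y) (2 ^ b) ω ≤ 4 * Y * ((2 ^ b : ℕ) : ℝ)) (a : ℕ) :
    ((2 ^ a : ℕ) : ℝ) ≤ B → ∀ r h : ℕ, r < 2 ^ a → h + 2 ^ a ≤ Y → ∑ k ∈ range Y, SS X (k + h) r ω ^ 2 ≤ 24 * Y * ((2 ^ a : ℕ) : ℝ) := by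
  induction a with
  | zero =>
    intro _ r h hr _
    have : r = 0 := by simpa using hr
    subst this
    have h1 : ∀ k ∈ range Y, SS X (k + h) 0 ω ^ 2 = 0 := by
      intro k _
      unfold SS
      simp
    rw [sum_eq_zero h1]
    positivity
  | succ a ih =>
    intro hB1 r h hr hh
    have hpow : (2 : ℕ) ^ (a + 1) = 2 * 2 ^ a := by ring
    have hB0 : ((2 ^ a : ℕ) : ℝ) ≤ B := by
      refine le_trans ?_ hB1
      exact_mod_cast Nat.pow_le_pow_right (by norm_num) (by omega)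
    have hpr : ((2 ^ (a + 1) : ℕ) : ℝ) = 2 * ((2 ^ a : ℕ) : ℝ) := by
      rw [hpow]
      push_cast
      ring
    rcases Nat.lt_or_ge r (2 ^ a) with h1 | h1
    · refine (ih hB0 r h h1 (by omega)).trans ?_
      rw [hpr]
      have : (0 : ℝ) ≤ 24 * Y * ((2 ^ a : ℕ) : ℝ) := by positivity
      linarith
    · have h2 := ih hB0 (r - 2 ^ a) (h + 2 ^ a) (by omega) (by omega)
      have h3 := (shift_sum (X := X) Y h (2 ^ a) (by omega) ω).trans (hB a hB0)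
      have h4 : ∀ k ∈ range Y, SS X (k + h) r ω ^ 2 ≤ 3 * SS X (k + h) (2 ^ a) ω ^ 2 + 3 / 2 * SS X (k + (h + 2 ^ a)) (r - 2 ^ a) ω ^ 2 := by
        intro k _
        have e1 : SS X (k + h) r ω = SS X (k + h) (2 ^ a) ω + SS X (k + (h + 2 ^ a)) (r - 2 ^ a) ω := by
          rw [← add_assoc, ← SS_add]
          congr 1
          omega
        rw [e1]
        nlinarith [sq_nonneg (2 * SS X (k + h) (2 ^ a) ω - SS X (k + (h + 2 ^ a)) (r - 2 ^ a) ω)]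
      refine (sum_le_sum h4).trans ?_
      rw [sum_add_distrib, ← mul_sum, ← mul_sum, hpr]
      nlinarith

lemma young (x y : ℝ) {t : ℝ} (ht : 0 < t) : (x + y) ^ 2 ≤ (1 + t) * x ^ 2 + (1 + 1 / t) * y ^ 2 := by
  have h1 : 0 ≤ (t * x - y) ^ 2 / t := by positivity
  have h2 : (t * x - y) ^ 2 / t = t * x ^ 2 - 2 * x * y + 1 / t * y ^ 2 := by
    field_simp
    ring
  nlinarith

/-- all lengths -/
theorem all_H (hm : ∀ p, Measurable (X p)) (hs : ∀ p ω, X p ω = 1 ∨ X p ω = -1) (h0 : ∀ p, ∫ ω, X p ω ∂μ = 0)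
    (hind : iIndepFun X μ) {e : ℝ} (he : 0 < e) (he1 : e < 1 / 2) : ∀ᵐ ω ∂μ, ∀ η : ℝ, 0 < η → ∀ᶠ Y : ℕ in atTop,
      ∀ H : ℕ, 1 ≤ H → (H : ℝ) ≤ (Y : ℝ) ^ (1 - 2 * e) → |VV X Y H ω - cc * Y * H| ≤ η * Y * H := by
  filter_upwards [all_Y (μ := μ) hm hs h0 hind he (by linarith)] with ω hω η hη
  set t := min η 1 / 16 with ht
  have ht0 : 0 < t := by positivity
  have ht1 : t ≤ 1 / 16 := by
    rw [ht]
    have := min_le_right η 1
    linarith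
  have ht2 : 16 * t ≤ η := by
    rw [ht]
    have := min_le_left η 1
    linarith
  obtain ⟨s, hs1⟩ : ∃ s : ℕ, 24 * (1 + 1 / t) / t ≤ (2 : ℝ) ^ s := by
    obtain ⟨s, hs⟩ := pow_unbounded_of_one_lt (24 * (1 + 1 / t) / t) (show (1 : ℝ) < 2 by norm_num)
    exact ⟨s, hs.le⟩
  have hp : (0 : ℝ) < 2 ^ s := by positivity
  have hs2 : 24 * (1 + 1 / t) ≤ t * 2 ^ s := by
    rw [div_le_iff₀ ht0] at hs1
    linarith
  have hs3 : 1 ≤ t * 2 ^ s := by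
    have : 0 < 1 / t := by positivity
    linarith
  have hdbl : Tendsto (fun Y : ℕ => 2 * Y) atTop atTop := tendsto_id.const_mul_atTop' (by norm_num)
  have hhalf : ∀ᶠ Y : ℕ in atTop, (Y : ℝ) ^ (1 - 2 * e) ≤ Y / 2 := by
    have h3 : Tendsto (fun x : ℝ => x ^ (-(2 * e))) atTop (𝓝 0) := tendsto_rpow_neg_atTop (by positivity)
    have h4 := (h3.comp (tendsto_natCast_atTop_atTop (R := ℝ))).eventually (gt_mem_nhds (show (0 : ℝ) < 1 / 2 by positivity))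
    filter_upwards [h4, eventually_gt_atTop 0] with Y h5 h6
    have h6' : (0 : ℝ) < Y := by exact_mod_cast h6
    have h7 : (Y : ℝ) ^ (1 - 2 * e) = Y * (Y : ℝ) ^ (-(2 * e)) := by
      rw [show 1 - 2 * e = 1 + -(2 * e) by ring, Real.rpow_add h6', Real.rpow_one]
    rw [h7]
    have h8 : (Y : ℝ) ^ (-(2 * e)) < 1 / 2 := h5
    nlinarith
  filter_upwards [hω s t ht0, hdbl.eventually (hω 0 1 one_pos), hhalf, eventually_ge_atTop 1] with Y k1 k2 k3 k4 H hH hHY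
  have hY1 : (1 : ℝ) ≤ Y := by exact_mod_cast k4
  have hY0 : (0 : ℝ) < Y := by linarith
  have hH1 : (1 : ℝ) ≤ H := by exact_mod_cast hH
  have hHhalf : 2 * H ≤ Y := by
    have h1 : (H : ℝ) ≤ Y / 2 := hHY.trans k3
    have : (2 * H : ℝ) ≤ Y := by linarith
    exact_mod_cast this
  have c1 := cc_pos
  have c2 := cc_le
  have c3 := cc_ge
  -- dyadic lengths
  have hB : ∀ b : ℕ, ((2 ^ b : ℕ) : ℝ) ≤ (H : ℝ) → VV X (2 * Y) (2 ^ b) ω ≤ 4 * Y * ((2 ^ b : ℕ) : ℝ) := by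
    intro b hb
    have h1 := k2 b 1 (by norm_num) (by rw [one_mul]; exact Nat.one_le_two_pow) (by
      rw [one_mul]
      refine hb.trans (hHY.trans (Real.rpow_le_rpow hY0.le ?_ (by linarith)))
      push_cast
      linarith)
    rw [one_mul] at h1
    have h2 := (abs_le.1 h1).2
    push_cast at h2 ⊢
    have h3 : (0 : ℝ) ≤ Y * 2 ^ b := by positivity
    nlinarith
  set L := Nat.log 2 H with hL
  set a := L - s with ha
  set q := H / 2 ^ a with hq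
  set r := H % 2 ^ a with hr
  have hHd : H = q * 2 ^ a + r := by
    rw [hq, hr]
    have := Nat.div_add_mod H (2 ^ a)
    rw [mul_comm] at this
    exact this.symm
  have hLH : 2 ^ L ≤ H := Nat.pow_log_le_self 2 (by omega)
  have hHL : H < 2 ^ (L + 1) := Nat.lt_pow_succ_log_self (by norm_num) H
  have haL : 2 ^ a ≤ H := (Nat.pow_le_pow_right (by norm_num) (by omega)).trans hLH
  have hq1 : 1 ≤ q := Nat.div_pos haL (by positivity)
  have hq2 : q < 2 ^ (s + 1) := by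
    apply Nat.div_lt_of_lt_mul
    calc H < 2 ^ (L + 1) := hHL
      _ ≤ 2 ^ (a + (s + 1)) := Nat.pow_le_pow_right (by norm_num) (by omega)
      _ = 2 ^ a * 2 ^ (s + 1) := pow_add _ _ _
  have hqa : q * 2 ^ a ≤ H := by omega
  have hqa1 : 1 ≤ q * 2 ^ a := Nat.mul_pos hq1 (by positivity)
  have hr1 : r < 2 ^ a := Nat.mod_lt _ (by positivity)
  have g1 := k1 a q hq2 hqa1 (by
    refine le_trans ?_ hHY
    exact_mod_cast hqa)
  set h := q * 2 ^ a with hh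
  set W := ∑ k ∈ range Y, SS X (k + h) r ω ^ 2 with hW
  -- the remainder
  have hWr : (1 + 1 / t) * W ≤ t * (Y * H) ∧ (1 - t) * (H : ℝ) ≤ h := by
    rcases Nat.eq_zero_or_pos a with ha0 | ha0
    · have hr0 : r = 0 := by
        rw [ha0, pow_zero] at hr1
        omega
      have hW0 : W = 0 := by
        rw [hW, hr0]
        apply sum_eq_zero
        intro k _
        unfold SS
        simp
      have hhH : h = H := by omega
      rw [hW0, hhH]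
      constructor
      · rw [mul_zero]
        positivity
      · nlinarith
    · have h1 := chain (X := X) (Y := Y) (B := H) hB a (by exact_mod_cast haL) r h hr1 (by omega)
      have h2 : 2 ^ a * 2 ^ s ≤ H := by
        rw [← pow_add, show a + s = L by omega]
        exact hLH
      have h3 : ((2 ^ a : ℕ) : ℝ) * 2 ^ s ≤ H := by exact_mod_cast h2
      have h4 : ((2 ^ a : ℕ) : ℝ) ≤ t * H := by
        have : ((2 ^ a : ℕ) : ℝ) * 1 ≤ ((2 ^ a : ℕ) : ℝ) * (t * 2 ^ s) := mul_le_mul_of_nonneg_left hs3 (Nat.cast_nonneg _)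
        nlinarith
      constructor
      · have h5 : 0 < 1 + 1 / t := by positivity
        calc (1 + 1 / t) * W ≤ (1 + 1 / t) * (24 * Y * ((2 ^ a : ℕ) : ℝ)) := mul_le_mul_of_nonneg_left h1 h5.le
          _ = (24 * (1 + 1 / t)) * (Y * ((2 ^ a : ℕ) : ℝ)) := by ring
          _ ≤ (t * 2 ^ s) * (Y * ((2 ^ a : ℕ) : ℝ)) := mul_le_mul_of_nonneg_right hs2 (by positivity)
          _ = t * (Y * (((2 ^ a : ℕ) : ℝ) * 2 ^ s)) := by ring
          _ ≤ t * (Y * H) := mul_le_mul_of_nonneg_left (mul_le_mul_of_nonneg_left h3 hY0.le) ht0.le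
      · have h6 : (H : ℝ) = h + r := by exact_mod_cast hHd
        have h7 : (r : ℝ) ≤ ((2 ^ a : ℕ) : ℝ) := by exact_mod_cast hr1.le
        linarith
  obtain ⟨w1, w2⟩ := hWr
  -- comparison
  have hdec : ∀ k, SS X k H ω = SS X k h ω + SS X (k + h) r ω := by
    intro k
    rw [← SS_add, ← hHd]
  have u1 : VV X Y H ω ≤ (1 + t) * VV X Y h ω + (1 + 1 / t) * W := by
    unfold VV
    rw [hW, mul_sum, mul_sum, ← sum_add_distrib]
    refine sum_le_sum fun k _ => ?_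
    rw [hdec]
    exact young _ _ ht0
  have u2 : VV X Y h ω ≤ (1 + t) * VV X Y H ω + (1 + 1 / t) * W := by
    unfold VV
    rw [hW, mul_sum, mul_sum, ← sum_add_distrib]
    refine sum_le_sum fun k _ => ?_
    have := young (SS X k H ω) (-SS X (k + h) r ω) ht0
    rw [hdec] at this ⊢
    have e1 : SS X k h ω + SS X (k + h) r ω + -SS X (k + h) r ω = SS X k h ω := by ring
    rw [e1, neg_sq] at this
    exact this
  have g2 := abs_le.1 g1
  have hhH : (h : ℝ) ≤ H := by exact_mod_cast hqa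
  have hh0 : (0 : ℝ) ≤ h := Nat.cast_nonneg _
  set R := (Y : ℝ) * H with hR
  have hR0 : 0 ≤ R := by positivity
  have v1 : VV X Y h ω ≤ (cc + t) * R := by
    have : (Y : ℝ) * h ≤ R := mul_le_mul_of_nonneg_left hhH hY0.le
    nlinarith [g2.2]
  have v2 : (cc - t) * ((1 - t) * R) ≤ VV X Y h ω := by
    have h8 : (1 - t) * R ≤ (Y : ℝ) * h := by
      calc (1 - t) * R = Y * ((1 - t) * H) := by rw [hR]; ring
        _ ≤ _ := mul_le_mul_of_nonneg_left w2 hY0.le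
    have h9 : (cc - t) * ((1 - t) * R) ≤ (cc - t) * ((Y : ℝ) * h) := mul_le_mul_of_nonneg_left h8 (by linarith)
    nlinarith [g2.1]
  have x1 : VV X Y H ω ≤ (cc + η) * R := by
    have h10 : (1 + t) * VV X Y h ω ≤ (1 + t) * ((cc + t) * R) := mul_le_mul_of_nonneg_left v1 (by linarith)
    have h11 : (1 + t) * (cc + t) + t ≤ cc + η := by nlinarith
    have h12 := mul_le_mul_of_nonneg_right h11 hR0
    nlinarith
  have x2 : (cc - η) * R ≤ VV X Y H ω := by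
    have h13 : (cc - t) * ((1 - t) * R) - t * R ≤ (1 + t) * VV X Y H ω := by linarith
    have hV0 : 0 ≤ VV X Y H ω := sum_nonneg fun _ _ => sq_nonneg _
    have h14 : (cc - η) * (1 + t) ≤ (cc - t) * (1 - t) - t := by nlinarith
    have h15 := mul_le_mul_of_nonneg_right h14 hR0
    have h16 : (1 + t) * ((cc - η) * R) ≤ (1 + t) * VV X Y H ω := by nlinarith
    exact le_of_mul_le_mul_left h16 (by linarith)
  rw [abs_le]
  constructor <;> nlinarith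

end Pool.Agent.R177.RF
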