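import Mathlib
/-!
# Hypercontractivity on `(ℤ/3)^r`
-/
open Finset

namespace Pool.Agent.R177.RF

/-- the cubic character -/
noncomputable def ch (t : ZMod 3) : ℂ := ZMod.stdAddChar t

lemma ch_add (s t : ZMod 3) : ch (s + t) = ch s * ch t := AddChar.map_add_eq_mul _ _ _

lemma ch_zero : ch 0 = 1 := AddChar.map_zero_eq_one _

lemma ch_norm (t : ZMod 3) : ‖ch t‖ = 1 := by
  unfold ch
  exact AddChar.norm_apply _ _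

lemma ch_sum : ∑ t : ZMod 3, ch t = 0 := by
  have h := AddChar.sum_eq_zero_of_ne_one (ψ := (ZMod.stdAddChar (N := 3))) (by
    have := ZMod.isPrimitive_stdAddChar 3 (one_ne_zero)
    rwa [AddChar.mulShift_one] at this)
  exact h

lemma shift2 (g0 : ℂ) (v : ZMod 3 → ℂ) (hv : ∑ t, v t = 0) :
    ∑ t, ‖g0 + v t‖ ^ 2 = 3 * ‖g0‖ ^ 2 + ∑ t, ‖v t‖ ^ 2 := by
  have h1 : ∀ t, ‖g0 + v t‖ ^ 2 = ‖g0‖ ^ 2 + 2 * inner ℝ g0 (v t) + ‖v t‖ ^ 2 := fun t => norm_add_sq_real _ _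
  simp_rw [h1]
  rw [sum_add_distrib, sum_add_distrib, ← mul_sum, ← inner_sum, hv, inner_zero_right, sum_const, card_univ, ZMod.card]
  simp

/-- the nontrivial part in one variable -/
noncomputable def uu (g1 g2 : ℂ) (t : ZMod 3) : ℂ := ch t * g1 + ch (2 * t) * g2

lemma uu_eq (g1 g2 : ℂ) (t : ZMod 3) : uu g1 g2 t = ch t * (g1 + ch t * g2) := by
  unfold uu
  rw [two_mul, ch_add]
  ring

lemma uu_norm (g1 g2 : ℂ) (t : ZMod 3) : ‖uu g1 g2 t‖ = ‖g1 + ch t * g2‖ := by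
  rw [uu_eq, norm_mul, ch_norm, one_mul]

lemma ch2_sum : ∑ t : ZMod 3, ch (2 * t) = 0 := by
  rw [← ch_sum]
  exact Fintype.sum_bijective (fun t : ZMod 3 => 2 * t) (by decide) _ _ (fun _ => rfl)

lemma uu_sum (g1 g2 : ℂ) : ∑ t, uu g1 g2 t = 0 := by
  unfold uu
  rw [sum_add_distrib, ← sum_mul, ← sum_mul, ch_sum, ch2_sum]
  ring

lemma uu_sq (g1 g2 : ℂ) : ∑ t, ‖uu g1 g2 t‖ ^ 2 = 3 * (‖g1‖ ^ 2 + ‖g2‖ ^ 2) := by
  simp_rw [uu_norm]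
  rw [shift2 g1 (fun t => ch t * g2) (by rw [← sum_mul, ch_sum, zero_mul])]
  simp_rw [norm_mul, ch_norm, one_mul]
  rw [sum_const, card_univ, ZMod.card]
  simp
  ring

lemma two_point (g0 g1 g2 : ℂ) : ∑ t, ‖g0 + uu g1 g2 t‖ ^ 2 = 3 * (‖g0‖ ^ 2 + ‖g1‖ ^ 2 + ‖g2‖ ^ 2) := by
  rw [shift2 _ _ (uu_sum g1 g2), uu_sq]
  ring

lemma four_point (g0 g1 g2 : ℂ) : ∑ t, ‖g0 + uu g1 g2 t‖ ^ 4 ≤
    3 * (‖g0‖ ^ 4 + 8 * ‖g0‖ ^ 2 * (‖g1‖ ^ 2 + ‖g2‖ ^ 2) + 24 * (‖g1‖ ^ 4 + ‖g2‖ ^ 4)) := by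
  have h1 : ∀ t, ‖g0 + uu g1 g2 t‖ ^ 4 ≤ ‖g0‖ ^ 4 + 4 * ‖g0‖ ^ 2 * inner ℝ g0 (uu g1 g2 t) +
      8 * ‖g0‖ ^ 2 * ‖uu g1 g2 t‖ ^ 2 + 24 * (‖g1‖ ^ 4 + ‖g2‖ ^ 4) := by
    intro t
    have e1 : ‖g0 + uu g1 g2 t‖ ^ 2 = ‖g0‖ ^ 2 + 2 * inner ℝ g0 (uu g1 g2 t) + ‖uu g1 g2 t‖ ^ 2 := norm_add_sq_real _ _
    have e2 := abs_le.1 (abs_real_inner_le_norm g0 (uu g1 g2 t))
    have e3 : ‖uu g1 g2 t‖ ≤ ‖g1‖ + ‖g2‖ := by
      unfold uu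
      refine (norm_add_le _ _).trans ?_
      rw [norm_mul, norm_mul, ch_norm, ch_norm, one_mul, one_mul]
    set R := inner ℝ g0 (uu g1 g2 t)
    set a := ‖g0‖
    set b := ‖uu g1 g2 t‖
    have ha : 0 ≤ a := norm_nonneg _
    have hb : 0 ≤ b := norm_nonneg _
    have e4 : R ^ 2 ≤ (a * b) ^ 2 := by nlinarith [e2.1, e2.2]
    have e5 : b ^ 4 ≤ 8 * (‖g1‖ ^ 4 + ‖g2‖ ^ 4) := by
      have k1 : b ^ 4 ≤ (‖g1‖ + ‖g2‖) ^ 4 := pow_le_pow_left₀ hb e3 4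
      have k2 : (‖g1‖ + ‖g2‖) ^ 2 ≤ 2 * (‖g1‖ ^ 2 + ‖g2‖ ^ 2) := by nlinarith [sq_nonneg (‖g1‖ - ‖g2‖)]
      have k3 : (‖g1‖ + ‖g2‖) ^ 4 ≤ (2 * (‖g1‖ ^ 2 + ‖g2‖ ^ 2)) ^ 2 := by
        rw [show (‖g1‖ + ‖g2‖) ^ 4 = ((‖g1‖ + ‖g2‖) ^ 2) ^ 2 by ring]
        exact pow_le_pow_left₀ (sq_nonneg _) k2 2
      nlinarith [sq_nonneg (‖g1‖ ^ 2 - ‖g2‖ ^ 2)]
    have e6 : 4 * R * b ^ 2 ≤ 2 * a ^ 2 * b ^ 2 + 2 * b ^ 4 := by
      have k1 : R * b ^ 2 ≤ (a * b) * b ^ 2 := mul_le_mul_of_nonneg_right e2.2 (sq_nonneg b)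
      nlinarith [mul_nonneg (sq_nonneg (a - b)) (sq_nonneg b)]
    have e7 : ‖g0 + uu g1 g2 t‖ ^ 4 = (a ^ 2 + 2 * R + b ^ 2) ^ 2 := by rw [← e1]; ring
    rw [e7]
    nlinarith
  refine (sum_le_sum fun t _ => h1 t).trans ?_
  rw [sum_add_distrib, sum_add_distrib, sum_add_distrib, ← mul_sum, ← mul_sum, ← inner_sum, uu_sum, inner_zero_right, uu_sq,
    sum_const, sum_const, card_univ, ZMod.card]
  simp
  nlinarith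

/-- the characters -/
noncomputable def ps {r : ℕ} (e ξ : Fin r → ZMod 3) : ℂ := ch (∑ i, e i * ξ i)

/-- the number of nonzero coordinates -/
def wt {r : ℕ} (e : Fin r → ZMod 3) : ℕ := ∑ i, if e i ≠ 0 then 1 else 0

/-- a sum of characters -/
noncomputable def FF {r : ℕ} (a : (Fin r → ZMod 3) → ℂ) (ξ : Fin r → ZMod 3) : ℂ := ∑ e, a e * ps e ξ

lemma sum_cons {r : ℕ} {M : Type} [AddCommMonoid M] (g : (Fin (r + 1) → ZMod 3) → M) :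
    ∑ ξ, g ξ = ∑ ξ' : Fin r → ZMod 3, ∑ t : ZMod 3, g (Fin.cons t ξ') := by
  rw [← (Fin.consEquiv (fun _ : Fin (r + 1) => ZMod 3)).sum_comp, Fintype.sum_prod_type, sum_comm]
  rfl

lemma ps_cons {r : ℕ} (s t : ZMod 3) (e ξ : Fin r → ZMod 3) :
    ps (Fin.cons s e : Fin (r + 1) → ZMod 3) (Fin.cons t ξ) = ch (s * t) * ps e ξ := by
  unfold ps
  rw [Fin.sum_univ_succ]
  simp only [Fin.cons_zero, Fin.cons_succ]
  exact ch_add _ _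

lemma FF_cons {r : ℕ} (a : (Fin (r + 1) → ZMod 3) → ℂ) (t : ZMod 3) (ξ : Fin r → ZMod 3) :
    FF a (Fin.cons t ξ) = FF (fun e => a (Fin.cons 0 e)) ξ + uu (FF (fun e => a (Fin.cons 1 e)) ξ) (FF (fun e => a (Fin.cons 2 e)) ξ) t := by
  unfold FF uu
  rw [sum_cons]
  have h : ∀ e : Fin r → ZMod 3, ∑ s : ZMod 3, a (Fin.cons s e) * ps (Fin.cons s e : Fin (r + 1) → ZMod 3) (Fin.cons t ξ) =
      a (Fin.cons 0 e) * ps e ξ + (ch t * (a (Fin.cons 1 e) * ps e ξ) + ch (2 * t) * (a (Fin.cons 2 e) * ps e ξ)) := by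
    intro e
    rw [show (univ : Finset (ZMod 3)) = {0, 1, 2} from rfl, sum_insert (by decide), sum_insert (by decide), sum_singleton,
      ps_cons, ps_cons, ps_cons, zero_mul, one_mul, ch_zero]
    ring
  simp_rw [h]
  rw [sum_add_distrib, sum_add_distrib, ← mul_sum, ← mul_sum]

lemma parseval : ∀ (r : ℕ) (a : (Fin r → ZMod 3) → ℂ), ∑ ξ, ‖FF a ξ‖ ^ 2 = 3 ^ r * ∑ e, ‖a e‖ ^ 2 := by
  intro r
  induction r with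
  | zero =>
    intro a
    unfold FF ps
    simp [ch_zero]
  | succ r ih =>
    intro a
    rw [sum_cons, sum_cons]
    simp_rw [FF_cons, two_point]
    rw [← mul_sum, sum_add_distrib, sum_add_distrib, ih, ih, ih]
    have h : ∀ e : Fin r → ZMod 3, ∑ s : ZMod 3, ‖a (Fin.cons s e)‖ ^ 2 =
        ‖a (Fin.cons 0 e)‖ ^ 2 + ‖a (Fin.cons 1 e)‖ ^ 2 + ‖a (Fin.cons 2 e)‖ ^ 2 := by
      intro e
      rw [show (univ : Finset (ZMod 3)) = {0, 1, 2} from rfl, sum_insert (by decide), sum_insert (by decide), sum_singleton]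
      ring
    simp_rw [h]
    rw [sum_add_distrib, sum_add_distrib]
    ring

lemma wt_cons {r : ℕ} (s : ZMod 3) (e : Fin r → ZMod 3) :
    wt (Fin.cons s e : Fin (r + 1) → ZMod 3) = (if s ≠ 0 then 1 else 0) + wt e := by
  unfold wt
  rw [Fin.sum_univ_succ]
  simp only [Fin.cons_zero, Fin.cons_succ]

lemma cs {ι : Type} [Fintype ι] (x y : ι → ℝ) {A B : ℝ} (hA : 0 ≤ A) (hB : 0 ≤ B) {c : ℝ} (hc : 0 ≤ c)
    (h1 : ∑ i, x i ^ 4 ≤ c * A ^ 2) (h2 : ∑ i, y i ^ 4 ≤ c * B ^ 2) : ∑ i, x i ^ 2 * y i ^ 2 ≤ c * (A * B) := by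
  have h3 := sum_mul_sq_le_sq_mul_sq univ (fun i => x i ^ 2) (fun i => y i ^ 2)
  have h4 : (∑ i, x i ^ 2 * y i ^ 2) ^ 2 ≤ (c * (A * B)) ^ 2 := by
    refine h3.trans ?_
    have e1 : ∑ i, (x i ^ 2) ^ 2 = ∑ i, x i ^ 4 := sum_congr rfl fun i _ => by ring
    have e2 : ∑ i, (y i ^ 2) ^ 2 = ∑ i, y i ^ 4 := sum_congr rfl fun i _ => by ring
    rw [e1, e2]
    calc (∑ i, x i ^ 4) * ∑ i, y i ^ 4 ≤ (c * A ^ 2) * (c * B ^ 2) :=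
          mul_le_mul h1 h2 (sum_nonneg fun i _ => by positivity) (by positivity)
      _ = _ := by ring
  exact (pow_le_pow_iff_left₀ (sum_nonneg fun i _ => by positivity) (by positivity) two_ne_zero).1 h4

lemma bonami : ∀ (r : ℕ) (a : (Fin r → ZMod 3) → ℂ),
    ∑ ξ, ‖FF (fun e => (1 / 3 : ℂ) ^ (wt e) * a e) ξ‖ ^ 4 ≤ 3 ^ r * (∑ e, ‖a e‖ ^ 2) ^ 2 := by
  intro r
  induction r with
  | zero =>
    intro a
    unfold FF ps wt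
    simp [ch_zero]
    ring_nf
    exact le_rfl
  | succ r ih =>
    intro a
    have hG : ∀ s : ZMod 3, s ≠ 0 → ∀ ξ : Fin r → ZMod 3, FF (fun e => (1 / 3 : ℂ) ^ (wt (Fin.cons s e : Fin (r + 1) → ZMod 3)) * a (Fin.cons s e)) ξ =
        (1 / 3 : ℂ) * FF (fun e => (1 / 3 : ℂ) ^ (wt e) * a (Fin.cons s e)) ξ := by
      intro s hs ξ
      unfold FF
      rw [mul_sum]
      refine sum_congr rfl fun e _ => ?_
      beta_reduce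
      rw [wt_cons, if_pos hs, pow_add, pow_one]
      ring
    have hG0 : ∀ ξ : Fin r → ZMod 3, FF (fun e => (1 / 3 : ℂ) ^ (wt (Fin.cons 0 e : Fin (r + 1) → ZMod 3)) * a (Fin.cons 0 e)) ξ =
        FF (fun e => (1 / 3 : ℂ) ^ (wt e) * a (Fin.cons 0 e)) ξ := by
      intro ξ
      unfold FF
      refine sum_congr rfl fun e _ => ?_
      beta_reduce
      rw [wt_cons, if_neg (by simp), zero_add]
    rw [sum_cons, sum_cons]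
    simp_rw [FF_cons, hG0, hG 1 (by decide), hG 2 (by decide)]
    set h0 := fun ξ => FF (fun e => (1 / 3 : ℂ) ^ (wt e) * a (Fin.cons 0 e)) ξ
    set h1 := fun ξ => FF (fun e => (1 / 3 : ℂ) ^ (wt e) * a (Fin.cons 1 e)) ξ
    set h2 := fun ξ => FF (fun e => (1 / 3 : ℂ) ^ (wt e) * a (Fin.cons 2 e)) ξ
    set A0 := ∑ e, ‖a (Fin.cons 0 e)‖ ^ 2
    set A1 := ∑ e, ‖a (Fin.cons 1 e)‖ ^ 2
    set A2 := ∑ e, ‖a (Fin.cons 2 e)‖ ^ 2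
    have p0 : 0 ≤ A0 := sum_nonneg fun _ _ => by positivity
    have p1 : 0 ≤ A1 := sum_nonneg fun _ _ => by positivity
    have p2 : 0 ≤ A2 := sum_nonneg fun _ _ => by positivity
    have q0 : ∑ ξ, ‖h0 ξ‖ ^ 4 ≤ 3 ^ r * A0 ^ 2 := ih _
    have q1 : ∑ ξ, ‖h1 ξ‖ ^ 4 ≤ 3 ^ r * A1 ^ 2 := ih _
    have q2 : ∑ ξ, ‖h2 ξ‖ ^ 4 ≤ 3 ^ r * A2 ^ 2 := ih _
    have c1 := cs (fun ξ => ‖h0 ξ‖) (fun ξ => ‖h1 ξ‖) p0 p1 (c := 3 ^ r) (by positivity) q0 q1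
    have c2 := cs (fun ξ => ‖h0 ξ‖) (fun ξ => ‖h2 ξ‖) p0 p2 (c := 3 ^ r) (by positivity) q0 q2
    have hpt : ∀ ξ, ∑ t, ‖h0 ξ + uu (1 / 3 * h1 ξ) (1 / 3 * h2 ξ) t‖ ^ 4 ≤
        3 * ‖h0 ξ‖ ^ 4 + 24 / 9 * (‖h0 ξ‖ ^ 2 * ‖h1 ξ‖ ^ 2) + 24 / 9 * (‖h0 ξ‖ ^ 2 * ‖h2 ξ‖ ^ 2) +
          72 / 81 * ‖h1 ξ‖ ^ 4 + 72 / 81 * ‖h2 ξ‖ ^ 4 := by
      intro ξ
      refine (four_point _ _ _).trans (le_of_eq ?_)
      rw [norm_mul, norm_mul]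
      have : ‖(1 / 3 : ℂ)‖ = 1 / 3 := by norm_num
      rw [this]
      ring
    have hA : ∑ e : Fin r → ZMod 3, ∑ s : ZMod 3, ‖a (Fin.cons s e)‖ ^ 2 = A0 + A1 + A2 := by
      have h : ∀ e : Fin r → ZMod 3, ∑ s : ZMod 3, ‖a (Fin.cons s e)‖ ^ 2 =
          ‖a (Fin.cons 0 e)‖ ^ 2 + ‖a (Fin.cons 1 e)‖ ^ 2 + ‖a (Fin.cons 2 e)‖ ^ 2 := by
        intro e
        rw [show (univ : Finset (ZMod 3)) = {0, 1, 2} from rfl, sum_insert (by decide), sum_insert (by decide), sum_singleton]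
        ring
      simp_rw [h]
      rw [sum_add_distrib, sum_add_distrib]
    rw [hA]
    refine (sum_le_sum fun ξ _ => hpt ξ).trans ?_
    rw [sum_add_distrib, sum_add_distrib, sum_add_distrib, sum_add_distrib, ← mul_sum, ← mul_sum, ← mul_sum, ← mul_sum, ← mul_sum]
    have h3 : (0 : ℝ) < 3 ^ r := by positivity
    calc _ ≤ 3 * (3 ^ r * A0 ^ 2) + 24 / 9 * (3 ^ r * (A0 * A1)) + 24 / 9 * (3 ^ r * (A0 * A2)) + 72 / 81 * (3 ^ r * A1 ^ 2) +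
          72 / 81 * (3 ^ r * A2 ^ 2) := by gcongr
      _ = 3 ^ r * (3 * A0 ^ 2 + 24 / 9 * (A0 * A1) + 24 / 9 * (A0 * A2) + 72 / 81 * A1 ^ 2 + 72 / 81 * A2 ^ 2) := by ring
      _ ≤ 3 ^ r * (3 * (A0 + A1 + A2) ^ 2) := by
          apply mul_le_mul_of_nonneg_left _ h3.le
          nlinarith [mul_nonneg p0 p1, mul_nonneg p0 p2, mul_nonneg p1 p2, sq_nonneg A1, sq_nonneg A2]
      _ = _ := by rw [pow_succ]; ring

/-- functions of degree at most `d` -/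
def Dg3 {r : ℕ} (d : ℕ) (Φ : (Fin r → ZMod 3) → ℂ) : Prop :=
  ∃ a : (Fin r → ZMod 3) → ℂ, (∀ e, a e ≠ 0 → wt e ≤ d) ∧ ∀ ξ, Φ ξ = FF a ξ

lemma ps_add {r : ℕ} (e e' ξ : Fin r → ZMod 3) : ps (e + e') ξ = ps e ξ * ps e' ξ := by
  unfold ps
  rw [← ch_add, ← sum_add_distrib]
  congr 1
  refine sum_congr rfl fun i _ => ?_
  rw [Pi.add_apply, add_mul]

lemma wt_add {r : ℕ} (e e' : Fin r → ZMod 3) : wt (e + e') ≤ wt e + wt e' := by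
  unfold wt
  rw [← sum_add_distrib]
  refine sum_le_sum fun i _ => ?_
  by_cases h1 : e i = 0
  · by_cases h2 : e' i = 0
    · simp [h1, h2]
    · simp [h1, h2]
  · rw [if_pos h1]
    split_ifs <;> omega

lemma Dg3_ps {r : ℕ} (e : Fin r → ZMod 3) : Dg3 (wt e) (ps e) := by
  classical
  refine ⟨fun e' => if e' = e then 1 else 0, ?_, ?_⟩
  · intro e' h
    by_cases he : e' = e
    · rw [he]
    · exact absurd (if_neg he) h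
  · intro ξ
    unfold FF
    simp

lemma Dg3_mono {r d d' : ℕ} (h : d ≤ d') {Φ : (Fin r → ZMod 3) → ℂ} (hΦ : Dg3 d Φ) : Dg3 d' Φ := by
  obtain ⟨a, h1, h2⟩ := hΦ
  exact ⟨a, fun e he => (h1 e he).trans h, h2⟩

lemma Dg3_sum {r d : ℕ} {ι : Type} (I : Finset ι) (Φ : ι → (Fin r → ZMod 3) → ℂ) (h : ∀ i ∈ I, Dg3 d (Φ i)) :
    Dg3 d (fun ξ => ∑ i ∈ I, Φ i ξ) := by
  classical
  choose! a h1 h2 using h
  refine ⟨fun e => ∑ i ∈ I, a i e, ?_, ?_⟩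
  · intro e he
    obtain ⟨i, hi, hie⟩ := exists_ne_zero_of_sum_ne_zero he
    exact h1 i hi e hie
  · intro ξ
    beta_reduce
    rw [sum_congr rfl (fun i hi => h2 i hi ξ)]
    unfold FF
    rw [sum_comm]
    refine sum_congr rfl fun e _ => ?_
    rw [sum_mul]

lemma Dg3_sq {r d : ℕ} {Φ : (Fin r → ZMod 3) → ℂ} (hΦ : Dg3 d Φ) : Dg3 (2 * d) (fun ξ => Φ ξ ^ 2) := by
  classical
  obtain ⟨a, h1, h2⟩ := hΦ
  refine ⟨fun g => ∑ e, a e * a (g - e), ?_, ?_⟩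
  · intro g hg
    obtain ⟨e, _, he⟩ := exists_ne_zero_of_sum_ne_zero hg
    have e1 : a e ≠ 0 := left_ne_zero_of_mul he
    have e2 : a (g - e) ≠ 0 := right_ne_zero_of_mul he
    have e3 := wt_add e (g - e)
    rw [add_sub_cancel] at e3
    have := h1 _ e1
    have := h1 _ e2
    omega
  · intro ξ
    beta_reduce
    rw [h2, sq]
    unfold FF
    rw [sum_mul_sum]
    have h3 : ∀ g : Fin r → ZMod 3, (∑ e, a e * a (g - e)) * ps g ξ = ∑ e, (a e * ps e ξ) * (a (g - e) * ps (g - e) ξ) := by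
      intro g
      rw [sum_mul]
      refine sum_congr rfl fun e _ => ?_
      have : ps g ξ = ps e ξ * ps (g - e) ξ := by rw [← ps_add, add_sub_cancel]
      rw [this]
      ring
    simp_rw [h3]
    conv_rhs => rw [sum_comm]
    refine sum_congr rfl fun e _ => ?_
    exact (Equiv.sum_comp (Equiv.subRight e) (fun g => (a e * ps e ξ) * (a g * ps g ξ))).symm

lemma bonami_deg {r d : ℕ} {Φ : (Fin r → ZMod 3) → ℂ} (hΦ : Dg3 d Φ) :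
    (∑ ξ, ‖Φ ξ‖ ^ 4) / 3 ^ r ≤ 81 ^ d * ((∑ ξ, ‖Φ ξ‖ ^ 2) / 3 ^ r) ^ 2 := by
  obtain ⟨a, h1, h2⟩ := hΦ
  simp_rw [h2]
  have h3 := bonami r (fun e => (3 : ℂ) ^ (wt e) * a e)
  have e1 : ∀ ξ, FF (fun e => (1 / 3 : ℂ) ^ (wt e) * ((3 : ℂ) ^ (wt e) * a e)) ξ = FF a ξ := by
    intro ξ
    unfold FF
    refine sum_congr rfl fun e _ => ?_
    beta_reduce
    rw [← mul_assoc, ← mul_pow]
    norm_num
  simp_rw [e1] at h3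
  have h4 : ∑ e, ‖(3 : ℂ) ^ (wt e) * a e‖ ^ 2 ≤ 9 ^ d * ∑ e, ‖a e‖ ^ 2 := by
    rw [mul_sum]
    refine sum_le_sum fun e _ => ?_
    by_cases ha : a e = 0
    · rw [ha]; simp
    · rw [norm_mul, norm_pow, mul_pow, ← pow_mul]
      have : ‖(3 : ℂ)‖ = 3 := by norm_num
      rw [this]
      apply mul_le_mul_of_nonneg_right _ (by positivity)
      rw [mul_comm, pow_mul]
      norm_num
      exact pow_le_pow_right₀ (by norm_num) (h1 e ha)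
  have h5 : (0 : ℝ) < 3 ^ r := by positivity
  rw [parseval, mul_div_cancel_left₀ _ h5.ne', div_le_iff₀ h5]
  refine h3.trans ?_
  have h6 : (∑ e, ‖(3 : ℂ) ^ (wt e) * a e‖ ^ 2) ^ 2 ≤ (9 ^ d * ∑ e, ‖a e‖ ^ 2) ^ 2 :=
    pow_le_pow_left₀ (sum_nonneg fun _ _ => by positivity) h4 2
  calc 3 ^ r * (∑ e, ‖(3 : ℂ) ^ (wt e) * a e‖ ^ 2) ^ 2 ≤ 3 ^ r * (9 ^ d * ∑ e, ‖a e‖ ^ 2) ^ 2 :=
        mul_le_mul_of_nonneg_left h6 h5.le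
    _ = _ := by
      rw [mul_pow, ← pow_mul, mul_comm d 2, pow_mul]
      norm_num
      ring

/-- all moments `2^(j+1)` -/
theorem moments (j : ℕ) : ∃ c : ℕ, ∀ (r d : ℕ) (Φ : (Fin r → ZMod 3) → ℂ), Dg3 d Φ →
    (∑ ξ, ‖Φ ξ‖ ^ (2 ^ (j + 1))) / 3 ^ r ≤ 81 ^ (c * d) * ((∑ ξ, ‖Φ ξ‖ ^ 2) / 3 ^ r) ^ (2 ^ j) := by
  induction j with
  | zero =>
    refine ⟨0, fun r d Φ _ => ?_⟩
    simp
  | succ j ih =>
    obtain ⟨c, hc⟩ := ih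
    refine ⟨2 * c + 2 ^ j, fun r d Φ hΦ => ?_⟩
    have h1 := hc r (2 * d) (fun ξ => Φ ξ ^ 2) (Dg3_sq hΦ)
    have e1 : ∀ ξ, ‖Φ ξ ^ 2‖ ^ (2 ^ (j + 1)) = ‖Φ ξ‖ ^ (2 ^ (j + 1 + 1)) := by
      intro ξ
      rw [norm_pow, ← pow_mul]
      congr 1
      rw [pow_succ 2 (j + 1)]
      ring
    have e2 : ∀ ξ, ‖Φ ξ ^ 2‖ ^ 2 = ‖Φ ξ‖ ^ 4 := by
      intro ξ
      rw [norm_pow, ← pow_mul]
    simp_rw [e1, e2] at h1
    refine h1.trans ?_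
    have h2 := bonami_deg hΦ
    have h3 : ((∑ ξ, ‖Φ ξ‖ ^ 4) / 3 ^ r) ^ (2 ^ j) ≤ (81 ^ d * ((∑ ξ, ‖Φ ξ‖ ^ 2) / 3 ^ r) ^ 2) ^ (2 ^ j) :=
      pow_le_pow_left₀ (by positivity) h2 _
    calc (81 : ℝ) ^ (c * (2 * d)) * ((∑ ξ, ‖Φ ξ‖ ^ 4) / 3 ^ r) ^ (2 ^ j) ≤
        81 ^ (c * (2 * d)) * (81 ^ d * ((∑ ξ, ‖Φ ξ‖ ^ 2) / 3 ^ r) ^ 2) ^ (2 ^ j) := mul_le_mul_of_nonneg_left h3 (by positivity)
      _ = _ := by
        rw [mul_pow, ← pow_mul, ← pow_mul, ← mul_assoc, ← pow_add, pow_succ 2 j]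
        congr 2 <;> ring

end Pool.Agent.R177.RF
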