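import Pool.Agent.R177.RF.Grid
/-!
# High moments of sums of a random multiplicative function over multiples of q
-/
open Finset MeasureTheory ProbabilityTheory Filter Topology
open scoped symmDiff

namespace Pool.Agent.R177.RF

variable {Ω : Type} [MeasurableSpace Ω] {μ : Measure Ω} [IsProbabilityMeasure μ] {X : ℕ → Ω → ℝ}

/-- reduction of a product of values -/
lemma red (hs : ∀ p ω, X p ω = 1 ∨ X p ω = -1) {ι : Type} (I : Finset ι) (n : ι → ℕ) (hn : ∀ i ∈ I, Squarefree (n i)) :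
    ∃ D : Finset ℕ, ∃ s : ℕ, ∏ i ∈ I, n i = s ^ 2 * ∏ p ∈ D, p ∧ ∀ ω, ∏ i ∈ I, rf X (n i) ω = ∏ p ∈ D, X p ω := by
  classical
  induction I using Finset.induction_on with
  | empty => exact ⟨∅, 1, by simp, by simp⟩
  | insert i I hi ih =>
    obtain ⟨D, s, h1, h2⟩ := ih (fun j hj => hn j (mem_insert_of_mem hj))
    have hsq := hn i (mem_insert_self i I)
    refine ⟨(n i).primeFactors ∆ D, s * ∏ p ∈ (n i).primeFactors ∩ D, p, ?_, fun ω => ?_⟩
    · rw [prod_insert hi, h1]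
      have h3 := prod_symm (n i).primeFactors D (fun p => p)
      rw [Nat.prod_primeFactors_of_squarefree hsq] at h3
      calc n i * (s ^ 2 * ∏ p ∈ D, p) = s ^ 2 * (n i * ∏ p ∈ D, p) := by ring
        _ = _ := by rw [h3]; ring
    · rw [prod_insert hi, h2]
      have h3 := prod_symm (n i).primeFactors D (fun p => X p ω)
      have h4 : rf X (n i) ω = ∏ p ∈ (n i).primeFactors, X p ω := by
        unfold rf
        rw [if_pos hsq]
      rw [h4, h3, prod_sq hs, one_mul]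

lemma exp_many (hm : ∀ p, Measurable (X p)) (hs : ∀ p ω, X p ω = 1 ∨ X p ω = -1) (h0 : ∀ p, ∫ ω, X p ω ∂μ = 0)
    (hind : iIndepFun X μ) {ι : Type} (I : Finset ι) (n : ι → ℕ) (h : ¬ IsSquare (∏ i ∈ I, n i)) :
    ∫ ω, ∏ i ∈ I, rf X (n i) ω ∂μ = 0 := by
  classical
  by_cases hn : ∀ i ∈ I, Squarefree (n i)
  · obtain ⟨D, s, h1, h2⟩ := red hs I n hn
    simp_rw [h2]
    apply exp_prod hm h0 hind
    rw [nonempty_iff_ne_empty]
    rintro rfl
    apply h
    rw [h1, prod_empty, mul_one]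
    exact ⟨s, sq s⟩
  · push Not at hn
    obtain ⟨i, hi, hni⟩ := hn
    have : ∀ ω, ∏ i ∈ I, rf X (n i) ω = 0 := fun ω => prod_eq_zero hi (by unfold rf; rw [if_neg hni])
    simp_rw [this]
    simp

omit [MeasurableSpace Ω] in
lemma prod_abs (hs : ∀ p ω, X p ω = 1 ∨ X p ω = -1) {ι : Type} (I : Finset ι) (n : ι → ℕ) (ω : Ω) :
    |∏ i ∈ I, rf X (n i) ω| ≤ 1 := by
  rw [abs_prod]
  exact prod_le_one (fun i _ => abs_nonneg _) (fun i _ => rf_abs hs _ _)

lemma count_tuples (k L : ℕ) :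
    ((Fintype.piFinset (fun _ : Fin (2 * k) => Icc 1 L)).filter (fun t => IsSquare (∏ i, t i))).card ≤
      ∑ s ∈ Icc 1 (L ^ k), ((s ^ 2).divisors.card) ^ (2 * k) := by
  classical
  have hsub : (Fintype.piFinset (fun _ : Fin (2 * k) => Icc 1 L)).filter (fun t => IsSquare (∏ i, t i)) ⊆
      (Icc 1 (L ^ k)).biUnion (fun s => Fintype.piFinset (fun _ : Fin (2 * k) => (s ^ 2).divisors)) := by
    intro t ht
    rw [mem_filter, Fintype.mem_piFinset] at ht
    obtain ⟨h1, r, hr⟩ := ht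
    have hpos : 0 < ∏ i, t i := prod_pos fun i _ => (mem_Icc.1 (h1 i)).1
    have hr0 : 0 < r := by
      rcases Nat.eq_zero_or_pos r with h | h
      · rw [hr, h] at hpos; simp at hpos
      · exact h
    have hle : ∏ i, t i ≤ L ^ (2 * k) := by
      calc ∏ i, t i ≤ ∏ _i : Fin (2 * k), L := prod_le_prod' fun i _ => (mem_Icc.1 (h1 i)).2
        _ = L ^ (2 * k) := by rw [prod_const, card_univ, Fintype.card_fin]
    have hrL : r ≤ L ^ k := by
      have : r * r ≤ L ^ k * L ^ k := by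
        rw [← hr, ← pow_add, ← two_mul]
        exact hle
      exact Nat.mul_self_le_mul_self_iff.1 this
    rw [mem_biUnion]
    refine ⟨r, mem_Icc.2 ⟨hr0, hrL⟩, ?_⟩
    rw [Fintype.mem_piFinset]
    intro i
    rw [Nat.mem_divisors]
    refine ⟨?_, by positivity⟩
    rw [sq, ← hr]
    exact dvd_prod_of_mem _ (mem_univ i)
  refine (card_le_card hsub).trans (card_biUnion_le.trans (sum_le_sum fun s _ => ?_))
  rw [Fintype.card_piFinset_const]

lemma count_real (k : ℕ) : ∃ C : ℝ, 0 < C ∧ ∀ L : ℕ, 1 ≤ L →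
    (((Fintype.piFinset (fun _ : Fin (2 * k) => Icc 1 L)).filter (fun t => IsSquare (∏ i, t i))).card : ℝ) ≤ C * (L : ℝ) ^ (k + 1) := by
  set d : ℝ := 1 / (4 * k ^ 2 + 1) with hd
  have hd0 : 0 < d := by positivity
  obtain ⟨C, hC, hdiv⟩ := Pool.Agent.Helper112.divisor_bound d hd0
  refine ⟨C ^ (2 * k), by positivity, fun L hL => ?_⟩
  have hL1 : (1 : ℝ) ≤ L := by exact_mod_cast hL
  have hL0 : (0 : ℝ) < L := by linarith
  have h1 : (((Fintype.piFinset (fun _ : Fin (2 * k) => Icc 1 L)).filter (fun t => IsSquare (∏ i, t i))).card : ℝ) ≤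
      ∑ s ∈ Icc 1 (L ^ k), (((s ^ 2).divisors.card : ℝ)) ^ (2 * k) := by
    exact_mod_cast count_tuples k L
  refine h1.trans ?_
  have h2 : ∀ s ∈ Icc 1 (L ^ k), (((s ^ 2).divisors.card : ℝ)) ^ (2 * k) ≤ C ^ (2 * k) * L := by
    intro s hs
    rw [mem_Icc] at hs
    have hs1 : (1 : ℝ) ≤ s := by exact_mod_cast hs.1
    have hs2 : (s : ℝ) ≤ (L : ℝ) ^ k := by exact_mod_cast hs.2
    have h3 := hdiv (s ^ 2) (Nat.one_le_pow _ _ hs.1)
    have h4 : ((s ^ 2 : ℕ) : ℝ) ^ d ≤ ((L : ℝ) ^ (2 * k)) ^ d := by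
      apply Real.rpow_le_rpow (by positivity) _ hd0.le
      push_cast
      rw [mul_comm, pow_mul]
      exact pow_le_pow_left₀ (by linarith) hs2 2
    have h5 : (((L : ℝ) ^ (2 * k)) ^ d) ^ (2 * k) ≤ L := by
      rw [← Real.rpow_natCast (L : ℝ) (2 * k), ← Real.rpow_mul hL0.le, ← Real.rpow_natCast, ← Real.rpow_mul hL0.le]
      calc (L : ℝ) ^ (((2 * k : ℕ) : ℝ) * d * ((2 * k : ℕ) : ℝ)) ≤ (L : ℝ) ^ (1 : ℝ) := by
            apply Real.rpow_le_rpow_of_exponent_le hL1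
            rw [hd]
            push_cast
            rw [show 2 * (k : ℝ) * (1 / (4 * k ^ 2 + 1)) * (2 * k) = (4 * k ^ 2) / (4 * k ^ 2 + 1) by ring]
            rw [div_le_one (by positivity)]
            linarith
        _ = L := Real.rpow_one _
    calc (((s ^ 2).divisors.card : ℝ)) ^ (2 * k) ≤ (C * ((L : ℝ) ^ (2 * k)) ^ d) ^ (2 * k) := by
          apply pow_le_pow_left₀ (Nat.cast_nonneg _)
          exact h3.trans (mul_le_mul_of_nonneg_left h4 hC.le)
      _ = C ^ (2 * k) * (((L : ℝ) ^ (2 * k)) ^ d) ^ (2 * k) := mul_pow _ _ _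
      _ ≤ _ := mul_le_mul_of_nonneg_left h5 (by positivity)
  refine (sum_le_sum h2).trans ?_
  rw [sum_const, Nat.card_Icc, nsmul_eq_mul, Nat.add_sub_cancel]
  push_cast
  apply le_of_eq
  ring

/-- the moment bound -/
theorem moment (hm : ∀ p, Measurable (X p)) (hs : ∀ p ω, X p ω = 1 ∨ X p ω = -1) (h0 : ∀ p, ∫ ω, X p ω ∂μ = 0)
    (hind : iIndepFun X μ) (k : ℕ) : ∃ C : ℝ, 0 < C ∧ ∀ (L q : ℕ) (a : ℕ → ℝ) (B : ℝ), 1 ≤ L → 1 ≤ q → 0 ≤ B →
      (∀ l ∈ Icc 1 L, |a l| ≤ B) →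
      ∫ ω, (∑ l ∈ Icc 1 L, a l * rf X (q * l) ω) ^ (2 * k) ∂μ ≤ C * B ^ (2 * k) * (L : ℝ) ^ (k + 1) := by
  classical
  obtain ⟨C, hC, hcount⟩ := count_real k
  refine ⟨C, hC, fun L q a B hL hq hB ha => ?_⟩
  have hexp : ∀ ω, (∑ l ∈ Icc 1 L, a l * rf X (q * l) ω) ^ (2 * k) =
      ∑ t ∈ Fintype.piFinset (fun _ : Fin (2 * k) => Icc 1 L), (∏ i, a (t i)) * ∏ i, rf X (q * t i) ω := by
    intro ω
    have h1 := Finset.prod_univ_sum (fun _ : Fin (2 * k) => Icc 1 L) (fun _ l => a l * rf X (q * l) ω)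
    rw [prod_const, card_univ, Fintype.card_fin] at h1
    rw [h1]
    refine sum_congr rfl fun t _ => ?_
    rw [prod_mul_distrib]
  have hmeas : ∀ t : Fin (2 * k) → ℕ, Measurable (fun ω => ∏ i, rf X (q * t i) ω) := fun t =>
    Finset.measurable_prod _ fun i _ => rf_meas hm _
  simp_rw [hexp]
  rw [integral_finsetSum]
  swap
  · intro t _
    refine Integrable.const_mul ?_ _
    refine Integrable.of_bound (C := 1) (hmeas t).aestronglyMeasurable ?_
    filter_upwards with ω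
    rw [Real.norm_eq_abs]
    exact prod_abs hs _ (fun i => q * t i) ω
  have hterm : ∀ t ∈ Fintype.piFinset (fun _ : Fin (2 * k) => Icc 1 L),
      ∫ ω, (∏ i, a (t i)) * ∏ i, rf X (q * t i) ω ∂μ ≤ if IsSquare (∏ i, t i) then B ^ (2 * k) else 0 := by
    intro t ht
    rw [Fintype.mem_piFinset] at ht
    rw [integral_const_mul]
    split_ifs with hsq
    · have e1 : |∏ i, a (t i)| ≤ B ^ (2 * k) := by
        rw [abs_prod]
        calc ∏ i, |a (t i)| ≤ ∏ _i : Fin (2 * k), B := prod_le_prod (fun i _ => abs_nonneg _) fun i _ => ha _ (ht i)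
          _ = B ^ (2 * k) := by rw [prod_const, card_univ, Fintype.card_fin]
      have e2 : |∫ ω, ∏ i, rf X (q * t i) ω ∂μ| ≤ 1 := by
        have := norm_integral_le_of_norm_le_const (μ := μ) (f := fun ω => ∏ i, rf X (q * t i) ω) (C := 1)
          (Filter.Eventually.of_forall fun ω => by rw [Real.norm_eq_abs]; exact prod_abs hs _ (fun i => q * t i) ω)
        simpa using this
      calc (∏ i, a (t i)) * ∫ ω, ∏ i, rf X (q * t i) ω ∂μ ≤ |(∏ i, a (t i)) * ∫ ω, ∏ i, rf X (q * t i) ω ∂μ| := le_abs_self _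
        _ = |∏ i, a (t i)| * |∫ ω, ∏ i, rf X (q * t i) ω ∂μ| := abs_mul _ _
        _ ≤ B ^ (2 * k) * 1 := mul_le_mul e1 e2 (abs_nonneg _) (by positivity)
        _ = _ := mul_one _
    · rw [exp_many hm hs h0 hind, mul_zero]
      intro hcon
      apply hsq
      have e3 : q ^ (2 * k) = (q ^ k) ^ 2 := by rw [← pow_mul, mul_comm]
      rw [prod_mul_distrib, prod_const, card_univ, Fintype.card_fin, e3] at hcon
      exact sq_of_mul_sq (by positivity) hcon
  refine (sum_le_sum hterm).trans ?_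
  rw [← sum_filter, sum_const, nsmul_eq_mul]
  calc _ ≤ (C * (L : ℝ) ^ (k + 1)) * B ^ (2 * k) := mul_le_mul_of_nonneg_right (hcount L hL) (by positivity)
    _ = _ := by ring

end Pool.Agent.R177.RF
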